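import Pool.Agent.Lib.MP_64d474_lc.Circ.Gauge

namespace Pool.Agent.Lib.MP_64d474_lc.Circ

open Equiv

section Path

variable {N : Type} [DecidableEq N] (P : Bool → Perm N) (t : N → ℤˣ) (m0 : N)

/-- Multiplying the signs of the node `x` by `f`. -/
def nodeTwist (g : Gauge N) (x : N) (f : Bool → Bool → ℤˣ)
    (hf : f false false * f false true * f true false * f true true = 1) : Gauge N where
  rho := g.rho
  eps n d e := g.eps n d e * (if n = x then f d e else 1)
  even n := by
    have hE := g.even n
    by_cases h : n = x
    · simp only [if_pos h]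
      calc _ = (g.eps n false false * g.eps n false true * g.eps n true false *
          g.eps n true true) * (f false false * f false true * f true false * f true true) := by
            ac_rfl
        _ = 1 := by rw [hE, hf, mul_one]
    · simp only [if_neg h, mul_one]
      exact hE

/-- Multiplying the sign of the link `l` by `-1`. -/
def linkTwist (g : Gauge N) (l : Bool × N) : Gauge N where
  rho r := g.rho r * (if r = l then -1 else 1)
  eps := g.eps
  even := g.even

theorem dfct_node (g : Gauge N) (x : N) (f : Bool → Bool → ℤˣ)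
    (hf : f false false * f false true * f true false * f true true = 1) (n : N) (d e : Bool) :
    dfct P t m0 (nodeTwist g x f hf) n d e = dfct P t m0 g n d e * (if n = x then f d e else 1) := by
  simp only [dfct, nodeTwist]
  ac_rfl

theorem dfct_link (g : Gauge N) (l : Bool × N) (n : N) (d e : Bool) :
    dfct P t m0 (linkTwist g l) n d e = dfct P t m0 g n d e *
      (if (d, if e then P d n else n) = l then -1 else 1) := by
  simp only [dfct, linkTwist]
  ac_rfl

/-- Moving the defect inside a node. -/
theorem move_node (g : Gauge N) (x : N) (d e : Bool) (h : HasDef P t m0 g x d e) (d' e' : Bool) :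
    ∃ g' : Gauge N, HasDef P t m0 g' x d' e' ∧ ∀ z : Site N, z ≠ Sum.inr x → Agree g g' z := by
  have hf : ∀ d e d' e' : Bool,
      ((fun a b => (if a = d ∧ b = e then -1 else 1) * (if a = d' ∧ b = e' then -1 else 1) :
        Bool → Bool → ℤˣ) false false) *
      ((fun a b => (if a = d ∧ b = e then -1 else 1) * (if a = d' ∧ b = e' then -1 else 1) :
        Bool → Bool → ℤˣ) false true) *
      ((fun a b => (if a = d ∧ b = e then -1 else 1) * (if a = d' ∧ b = e' then -1 else 1) :
        Bool → Bool → ℤˣ) true false) *
      ((fun a b => (if a = d ∧ b = e then -1 else 1) * (if a = d' ∧ b = e' then -1 else 1) :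
        Bool → Bool → ℤˣ) true true) = 1 := by decide
  refine ⟨nodeTwist g x (fun a b => (if a = d ∧ b = e then -1 else 1) *
    (if a = d' ∧ b = e' then -1 else 1)) (hf d e d' e'), ?_, ?_⟩
  · intro n a b
    rw [dfct_node, h n a b]
    by_cases hn : n = x
    · simp only [hn, true_and, if_true]
      generalize (if a = d ∧ b = e then (-1 : ℤˣ) else 1) = u
      rw [← mul_assoc, Int.units_mul_self, one_mul]
    · simp [hn]
  · intro z hz
    rcases z with r | n
    · rfl
    · have : n ≠ x := fun h => hz (by rw [h])
      funext a b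
      simp [nodeTwist, this]

/-- The defect crosses a link, forwards. -/
theorem move_link (g : Gauge N) (x : N) (d : Bool) (h : HasDef P t m0 g x d true) :
    ∃ g' : Gauge N, HasDef P t m0 g' (P d x) d false ∧
      ∀ z : Site N, z ≠ Sum.inl (d, P d x) → Agree g g' z := by
  refine ⟨linkTwist g (d, P d x), ?_, ?_⟩
  · intro n a b
    rw [dfct_link, h n a b]
    by_cases ha : a = d
    · subst ha
      cases b
      · by_cases hn : n = P a x <;> simp [hn]
      · by_cases hn : n = x
        · simp [hn]
        · simp [hn]
    · simp [ha]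
  · intro z hz
    rcases z with r | n
    · have : r ≠ (d, P d x) := fun h => hz (by rw [h])
      simp [Agree, linkTwist, this]
    · rfl

/-- The defect crosses a link, backwards. -/
theorem move_link' (g : Gauge N) (x : N) (d : Bool) (h : HasDef P t m0 g (P d x) d false) :
    ∃ g' : Gauge N, HasDef P t m0 g' x d true ∧
      ∀ z : Site N, z ≠ Sum.inl (d, P d x) → Agree g g' z := by
  refine ⟨linkTwist g (d, P d x), ?_, ?_⟩
  · intro n a b
    rw [dfct_link, h n a b]
    by_cases ha : a = d
    · subst ha
      cases b
      · by_cases hn : n = P a x <;> simp [hn]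
      · by_cases hn : n = x
        · simp [hn]
        · simp [hn]
    · simp [ha]
  · intro z hz
    rcases z with r | n
    · have : r ≠ (d, P d x) := fun h => hz (by rw [h])
      simp [Agree, linkTwist, this]
    · rfl

omit [DecidableEq N] in
theorem agree_trans {g g' g'' : Gauge N} {z : Site N} (h : Agree g g' z) (h' : Agree g' g'' z) :
    Agree g g'' z := by
  rcases z with r | n
  · exact Eq.trans h h'
  · exact Eq.trans h h'

theorem move_step (S : Finset (Site N)) (g : Gauge N) (x y : N) (d e : Bool)
    (h : HasDef P t m0 g x d e) (hs : Step P S x y) :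
    ∃ (g' : Gauge N) (d' e' : Bool), HasDef P t m0 g' y d' e' ∧ ∀ z ∈ S, Agree g g' z := by
  obtain ⟨hx, hy, δ, hδ⟩ := hs
  rcases hδ with ⟨rfl, hl⟩ | ⟨rfl, hl⟩
  · obtain ⟨g1, h1, a1⟩ := move_node P t m0 g x d e h δ true
    obtain ⟨g2, h2, a2⟩ := move_link P t m0 g1 x δ h1
    refine ⟨g2, _, _, h2, fun z hz => agree_trans (a1 z ?_) (a2 z ?_)⟩
    · rintro rfl; exact hx hz
    · rintro rfl; exact hl hz
  · obtain ⟨g1, h1, a1⟩ := move_node P t m0 g _ d e h δ false
    obtain ⟨g2, h2, a2⟩ := move_link' P t m0 g1 y δ h1
    refine ⟨g2, _, _, h2, fun z hz => agree_trans (a1 z ?_) (a2 z ?_)⟩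
    · rintro rfl; exact hx hz
    · rintro rfl; exact hl hz

end Path

theorem stPath : StPath := by
  intro N _ _ P t m0 S g x y d e h hr
  induction hr with
  | refl => exact ⟨g, d, e, h, fun z _ => by rcases z with r | n <;> rfl⟩
  | tail _ hs ih =>
    obtain ⟨g1, d1, e1, h1, a1⟩ := ih
    obtain ⟨g2, d2, e2, h2, a2⟩ := move_step P t m0 S g1 _ _ d1 e1 h1 hs
    exact ⟨g2, d2, e2, h2, fun z hz => agree_trans (a1 z hz) (a2 z hz)⟩

end Pool.Agent.Lib.MP_64d474_lc.Circ
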