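import Pool.Agent.Lib.MP_64d474_lc.Circ.Gauge

/-!
MP_64d474_lc: the pebble game on the two doubled matrices, from big components.
-/

namespace Pool.Agent.Lib.MP_64d474_lc.Circ

open Equiv

section Game

variable {N : Type} {m : ℕ}

/-- The site of an element; padding elements are sent to the node `c0`. -/
def siteE (c0 : N) : El N m → Site N
  | .inl r => .inl r.1
  | .inr (.inl c) => .inr c.1.2
  | .inr (.inr (.inl x)) => .inr x.1.2
  | .inr (.inr (.inr _)) => .inr c0

/-- The map of structures given by a gauge. -/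
def gmapE (m : ℕ) (g : Gauge N) : El N m → El N m :=
  Sum.map (rowMap g) (Sum.map (colMap g) (Sum.map (varMap g) id))

theorem gmapE_inj (g : Gauge N) : Function.Injective (gmapE m g) :=
  (rowMap_inj g).sumMap ((colMap_inj g).sumMap ((varMap_inj g).sumMap Function.injective_id))

theorem siteE_gmapE (c0 : N) (g : Gauge N) (u : El N m) :
    siteE c0 (gmapE m g u) = siteE c0 u := by
  rcases u with r | c | x | y <;> rfl

theorem gmapE_congr {c0 : N} {g g' : Gauge N} {u : El N m} (h : Agree g g' (siteE c0 u)) :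
    gmapE m g u = gmapE m g' u := by
  rcases u with r | c | x | y
  · have h' : g.rho r.1 = g'.rho r.1 := h
    simp [gmapE, rowMap, h']
  · have h' : g.eps c.1.2 = g'.eps c.1.2 := h
    simp [gmapE, colMap, h']
  · have h' : g.eps x.1.2 = g'.eps x.1.2 := h
    simp [gmapE, varMap, h']
  · rfl

theorem Step.mono {P : Bool → Perm N} {S T : Finset (Site N)} (h : S ⊆ T) {x y : N}
    (hs : Step P T x y) : Step P S x y := by
  obtain ⟨h1, h2, d, h3⟩ := hs
  refine ⟨fun hh => h1 (h hh), fun hh => h2 (h hh), d, ?_⟩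
  rcases h3 with ⟨h3, h4⟩ | ⟨h3, h4⟩
  · exact Or.inl ⟨h3, fun hh => h4 (h hh)⟩
  · exact Or.inr ⟨h3, fun hh => h4 (h hh)⟩

theorem Reach.mono {P : Bool → Perm N} {S T : Finset (Site N)} (h : S ⊆ T) {x y : N}
    (hs : Reach P T x y) : Reach P S x y :=
  Relation.ReflTransGen.mono (fun _ _ => Step.mono h) _ _ hs

theorem Big.mono [Fintype N] {P : Bool → Perm N} {S T : Finset (Site N)} (h : S ⊆ T)
    {C : Finset N} (hs : Big P T C) : Big P S C :=
  ⟨hs.1, fun x hx hh => hs.2.1 x hx (h hh), fun x hx y hy => (hs.2.2 x hx y hy).mono h⟩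

variable [DecidableEq N]

theorem Big.inter [Fintype N] {P : Bool → Perm N} {S T : Finset (Site N)}
    {C D : Finset N} (hC : Big P S C) (hD : Big P T D) : ∃ x, x ∈ C ∧ x ∈ D := by
  by_contra hcon
  push Not at hcon
  have hdis : Disjoint C D := Finset.disjoint_left.2 hcon
  have h1 : (C ∪ D).card = C.card + D.card := Finset.card_union_of_disjoint hdis
  have h2 : (C ∪ D).card ≤ Fintype.card N := Finset.card_le_univ _
  have h3 := hC.1
  have h4 := hD.1
  omega

theorem gid_def (P : Bool → Perm N) (t : N → ℤˣ) (c : N) :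
    HasDef P t (P false c) (gid N) c false true := by
  intro n d e
  have h1 : ∀ r : Bool × N, s0 t r * s1 t (P false c) r = if r = (false, P false c) then -1 else 1 := by
    intro r
    unfold s1
    split_ifs
    · rw [mul_neg, Int.units_mul_self]
    · exact Int.units_mul_self _
  cases e
  · simp [dfct, gid]
  · simp only [dfct, gid, if_true, one_mul, h1, and_true]
    refine if_congr ?_ rfl rfl
    simp only [Prod.mk.injEq]
    constructor
    · rintro ⟨rfl, h⟩
      exact ⟨(P false).injective h, rfl⟩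
    · rintro ⟨rfl, rfl⟩
      exact ⟨rfl, rfl⟩

variable (P : Bool → Perm N) (t : N → ℤˣ) (m0 : N)

/-- The key fact: a gauge without defect at the node of the column transports the entries. -/
theorem tens_gauge (c0 : N) (g : Gauge N) (x : N) (d0 e0 : Bool) (hdef : HasDef P t m0 g x d0 e0)
    (u v w : El N m) (hu : siteE c0 u ≠ Sum.inr x) (hv : siteE c0 v ≠ Sum.inr x) :
    tens P (s0 t) m u v w = tens P (s1 t m0) m (gmapE m g u) (gmapE m g v) (gmapE m g w) := by
  have hkey : ∀ (r c y : Ix N), c.1.2 ≠ x →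
      dbl P (s1 t m0) (rowMap g r) (colMap g c) (varMap g y) = dbl P (s0 t) r c y := by
    rintro ⟨⟨d, mm⟩, σ⟩ ⟨⟨c, n⟩, τ⟩ ⟨⟨y, n'⟩, ω⟩ hn
    refine dbl_gauge P t m0 g d mm σ c n τ y n' ω fun _ => ⟨fun _ => ?_, fun _ => ?_⟩
    · rw [hdef n d false, if_neg]
      rintro ⟨h, -, -⟩
      exact hn h
    · rw [hdef n d true, if_neg]
      rintro ⟨h, -, -⟩
      exact hn h
  have hinj := varMap_inj g
  rcases u with r | c | y | z
  · rcases v with r' | c' | y' | z'
    · rfl
    · rcases w with r'' | c'' | y'' | z''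
      · rfl
      · rfl
      · exact (hkey r c' y'' (fun h => hv (by simp [siteE, h]))).symm
      · rfl
    · rfl
    · rfl
  · rcases v with r' | c' | y' | z'
    · rcases w with r'' | c'' | y'' | z''
      · rfl
      · rfl
      · exact (hkey r' c y'' (fun h => hu (by simp [siteE, h]))).symm
      · rfl
    · rfl
    · rfl
    · rfl
  · rcases v with r' | c' | y' | z'
    · rfl
    · rfl
    · rcases w with r'' | c'' | y'' | z''
      · rfl
      · rfl
      · simp only [gmapE, Sum.map_inl, Sum.map_inr, tens, hinj.eq_iff]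
      · rfl
    · rfl
  · rcases v with r' | c' | y' | z'
    · rfl
    · rfl
    · rfl
    · rcases w with r'' | c'' | y'' | z'' <;> rfl

/-- The sites of a position. -/
def sitesE (c0 : N) (p : Finset (El N m × El N m)) : Finset (Site N) :=
  p.image fun z => siteE c0 z.1

/-- The positions of the strategy. -/
def PosE [Fintype N] (c0 : N) (k : ℕ) (p : Finset (El N m × El N m)) : Prop :=
  p.card ≤ k ∧ ∃ (C : Finset N) (g : Gauge N) (x : N) (d e : Bool),
    Big P (sitesE c0 p) C ∧ x ∈ C ∧ HasDef P t m0 g x d e ∧ ∀ z ∈ p, z.2 = gmapE m g z.1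

end Game

theorem stGame (hP : StPath) : StGame := by
  classical
  intro N _ _ P k m t hN hbig
  obtain ⟨C0, hC0⟩ := hbig ∅ (by simp)
  have hne : C0.Nonempty := by
    rw [← Finset.card_pos]
    have := hC0.1
    omega
  obtain ⟨c0, hc0⟩ := hne
  refine ⟨P false c0, PosE P t (P false c0) c0 k, ?_, ?_, ?_, ?_⟩
  · refine ⟨by simp, C0, gid N, c0, false, true, ?_, hc0, gid_def P t c0, by simp⟩
    simpa [sitesE] using hC0
  · rintro p q ⟨hcard, C, g, x, d, e, hC, hx, hdef, hz⟩ hqp
    refine ⟨(Finset.card_le_card hqp).trans hcard, C, g, x, d, e,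
      hC.mono (Finset.image_subset_image hqp), hx, hdef, fun z hz' => hz z (hqp hz')⟩
  · rintro p ⟨hcard, C, g, x, d, e, hC, hx, hdef, hz⟩ u hu v hv
    refine ⟨?_, fun w hw => ?_⟩
    · rw [hz u hu, hz v hv]
      exact (gmapE_inj g).eq_iff.symm
    · rw [hz u hu, hz v hv, hz w hw]
      have hx' := hC.2.1 x hx
      refine tens_gauge P t (P false c0) c0 g x d e hdef u.1 v.1 w.1 (fun h => hx' ?_)
        (fun h => hx' ?_)
      · rw [← h]; exact Finset.mem_image_of_mem _ hu
      · rw [← h]; exact Finset.mem_image_of_mem _ hv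
  · rintro p ⟨hcard, C, g, x, d, e, hC, hx, hdef, hz⟩ hlt
    have hS : (sitesE c0 p).card < k := lt_of_le_of_lt Finset.card_image_le hlt
    have hT : ∀ T : Site N, ∃ (CT : Finset N) (gT : Gauge N) (xT : N) (dT eT : Bool),
        Big P (insert T (sitesE c0 p)) CT ∧ xT ∈ CT ∧ HasDef P t (P false c0) gT xT dT eT ∧
        ∀ z ∈ sitesE c0 p, Agree g gT z := by
      intro T
      obtain ⟨CT, hCT⟩ := hbig (insert T (sitesE c0 p))
        ((Finset.card_insert_le _ _).trans hS)
      obtain ⟨xT, h1, h2⟩ := hC.inter hCT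
      obtain ⟨gT, dT, eT, h3, h4⟩ := hP N P t (P false c0) (sitesE c0 p) g x xT d e hdef
        (hC.2.2 x hx xT h1)
      exact ⟨CT, gT, xT, dT, eT, hCT, h2, h3, h4⟩
    choose CT gT xT dT eT hBig hxT hdT hag using hT
    have hinj : Function.Injective (fun u : El N m => gmapE m (gT (siteE c0 u)) u) := by
      intro u v huv
      have hs : siteE c0 u = siteE c0 v := by
        have := congrArg (siteE c0) huv
        simpa only [siteE_gmapE] using this
      simp only [hs] at huv
      exact gmapE_inj _ huv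
    refine ⟨Equiv.ofBijective _ (Finite.injective_iff_bijective.1 hinj), fun u => ?_⟩
    refine ⟨(Finset.card_insert_le _ _).trans hlt, CT (siteE c0 u), gT (siteE c0 u),
      xT (siteE c0 u), dT (siteE c0 u), eT (siteE c0 u), ?_, hxT _, hdT _, ?_⟩
    · have : sitesE c0 (insert (u, (Equiv.ofBijective _
          (Finite.injective_iff_bijective.1 hinj)) u) p) = insert (siteE c0 u) (sitesE c0 p) := by
        simp [sitesE, Finset.image_insert]
      rw [this]
      exact hBig _
    · intro z hz'
      rcases Finset.mem_insert.1 hz' with rfl | hz'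
      · rfl
      · rw [hz z hz']
        exact gmapE_congr (c0 := c0) (hag _ _ (Finset.mem_image_of_mem _ hz'))

end Pool.Agent.Lib.MP_64d474_lc.Circ
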