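import Pool.Agent.Lib.MP_64d474_lc.Circ.Copies

/-!
The gap version: nonsingular against rank at most `n - N`.
-/

namespace Pool.Agent.Lib.MP_64d474_lc.Circ

open Equiv MvPolynomial

/-- The base pair. -/
def StPair : Prop :=
  ∀ q n : ℕ, 1 ≤ q → 10 ^ 4 * q ≤ n →
    ∃ a b : Fin n → Fin n → Fin n → ℤ,
      (∀ i j l, a i j l = a j i l ∧ a i j l ∈ ({-1, 0, 1, 2} : Set ℤ)) ∧
      (∀ i j l, b i j l = b j i l ∧ b i j l ∈ ({-1, 0, 1, 2} : Set ℤ)) ∧
      (symMat a).det ≠ 0 ∧ (symMat b).det = 0 ∧ KEquiv a b (2 * q + 4)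

theorem pair (hE : StExpander) (hC : StComp) (hG : StGame) (hS : StSign) (hD : StDet)
    (hT : StTens) : StPair := by
  intro q n hq hn
  obtain ⟨k, hk⟩ : ∃ k, k = 2 * q + 4 := ⟨_, rfl⟩
  obtain ⟨m, hm⟩ : ∃ m, n = 1536 * k + m := ⟨n - 1536 * k, by omega⟩
  obtain ⟨P, hP⟩ := hE k (by omega)
  have hN : 2 ≤ Fintype.card (Fin (128 * k)) := by rw [Fintype.card_fin]; omega
  obtain ⟨s, hs⟩ := hS (Fin (128 * k)) ((P false).trans (P true).symm)
  obtain ⟨t, ht⟩ : ∃ t : Fin (128 * k) → ℤˣ, ∀ x, t (P false x) = s x :=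
    ⟨fun y => s ((P false).symm y), fun x => by simp⟩
  obtain ⟨m0, hm0⟩ := hG (Fin (128 * k)) P k m t hN (hC _ P k hN hP)
  obtain ⟨hd0, hd1⟩ := hD (Fin (128 * k)) P t (by
    intro v hv
    refine hs v fun x => ?_
    rw [← ht]
    exact hv x)
  have hcard : Fintype.card (El (Fin (128 * k)) m) = n := by
    simp [Fintype.card_prod]
    omega
  let e : El (Fin (128 * k)) m ≃ Fin n := Fintype.equivFinOfCardEq hcard
  have hK : KEquiv (trans e (tens P (s0 t) m)) (trans e (tens P (s1 t m0) m)) k :=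
    kequiv_trans e hm0
  refine ⟨trans e (tens P (s0 t) m), trans e (tens P (s1 t m0) m), ?_, ?_, ?_, ?_, ?_⟩
  · exact fun i j l => ⟨tens_symm _ _ _ _ _ _, tens_range _ _ _ _ _ _⟩
  · exact fun i j l => ⟨tens_symm _ _ _ _ _ _, tens_range _ _ _ _ _ _⟩
  · rw [det_trans]
    intro h
    apply (hT _ P (s0 t) m).1 hd0
    apply MvPolynomial.rename_injective e e.injective
    rw [h, map_zero]
  · rw [det_trans, (hT _ P (s1 t m0) m).2 (hd1 m0), map_zero]
  · rw [← hk]
    exact hK

theorem kequiv_symmetricOn (hSu : StSupport) (hTr : StTransfer) (q m n : ℕ) (S : Finset (Fin n))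
    (hq : 1 ≤ q) (hm : 12 * q ≤ m) (ι : Fin m ↪ Fin n) (hι : ∀ x, ι x ∈ S)
    (a b : Fin m → Fin m → Fin m → ℤ) (hK : KEquiv a b (2 * q + 4)) (V : Type)
    (C : Circuit n V) (hC : C.SymmetricOn S)
    (hO : ∀ g, (C.orbitOn S g).Finite ∧ (C.orbitOn S g).ncard < 3 ^ q) :
    C.val (ext ι a) C.out = C.val (ext ι b) C.out := by
  have hfix : ∀ (σ : Perm (Fin m)) (x : Fin n), x ∉ S → σ.viaEmbedding ι x = x := by
    intro σ x hx
    apply Equiv.Perm.viaEmbedding_apply_of_notMem
    rintro ⟨y, rfl⟩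
    exact hx (hι y)
  choose τ hτ using fun σ : Perm (Fin m) => hC (σ.viaEmbedding ι) (hfix σ)
  have hsub : ∀ g : C.G, (Set.range fun σ => τ σ g) ⊆ C.orbitOn S g := by
    rintro g k ⟨σ, rfl⟩
    exact ⟨σ.viaEmbedding ι, τ σ, hfix σ, hτ σ, rfl⟩
  have hτ' : ∀ σ, (restr ι C).IsAut σ (τ σ) := fun σ => restr_aut ι C σ (τ σ) (hτ σ)
  obtain ⟨Δ, h1, h2⟩ := gates_choice hSu m q V (restr ι C) hq hm τ hτ' (fun g =>
    ⟨(hO g).1.subset (hsub g), lt_of_le_of_lt (Set.ncard_le_ncard (hsub g) (hO g).1) (hO g).2⟩)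
  have h3 := hTr m (q + 2) (2 * q + 4) V (restr ι C) Δ (fun σ => ⟨τ σ, hτ' σ⟩) h1 h2
    (by omega) _ _ hK
  have e1 := val_restr ι C a _ C.out le_rfl
  have e2 := val_restr ι C b _ C.out le_rfl
  exact e1.symm.trans (h3.trans e2)

section Kernel

variable {m N n : ℕ} (e : Fin m × Fin N ≃ Fin (m * N)) (ι : Fin (m * N) ↪ Fin n)
  (b : Fin m → Fin m → Fin m → ℤ) {F : Type} [Field F] (x : Fin n → F)

/-- The matrix has `N` independent kernel vectors at every point. -/
theorem rank_gap (hb : (symMat b).det = 0) :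
    (evalMat (ext ι (trans e (copies (Fin N) b))) x).rank + N ≤ n := by
  classical
  set κ : Fin N → Fin m → Fin n := fun t u => ι (e (u, t)) with hκ
  have hκinj : ∀ t s u v, κ t u = κ s v → t = s ∧ u = v := by
    intro t s u v h
    have h1 := e.injective (ι.injective h)
    simp only [Prod.mk.injEq] at h1
    exact ⟨h1.2, h1.1⟩
  -- kernel vectors of the blocks
  have hker : ∀ t : Fin N, ∃ v : Fin m → F, v ≠ 0 ∧
      (evalMat b fun l => x (κ t l)).mulVec v = 0 := fun t =>
    Matrix.exists_mulVec_eq_zero_iff.2 (det_evalMat b _ hb)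
  choose v hv0 hv using hker
  let w : Fin N → Fin n → F := fun t i => if h : ∃ u, κ t u = i then v t h.choose else 0
  have hw1 : ∀ t u, w t (κ t u) = v t u := by
    intro t u
    have h : ∃ u', κ t u' = κ t u := ⟨u, rfl⟩
    simp only [w]
    rw [dif_pos h]
    congr 1
    exact (hκinj _ _ _ _ h.choose_spec).2
  have hw2 : ∀ t i, (∀ u, κ t u ≠ i) → w t i = 0 := by
    intro t i h
    simp only [w]
    rw [dif_neg]
    rintro ⟨u, hu⟩
    exact h u hu
  apply rank_add_le _ w
  · intro t h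
    apply hv0 t
    funext u
    rw [← hw1 t u, h]
    rfl
  · intro t
    funext i
    -- coefficients of the row `i` in the columns of block `t`
    have hcoef : ∀ u l, ext ι (trans e (copies (Fin N) b)) i (κ t u) l =
        if h : (∃ i', κ t i' = i) ∧ ∃ l', κ t l' = l then b h.1.choose u h.2.choose else 0 := by
      intro u l
      split_ifs with h
      · obtain ⟨⟨i', rfl⟩, ⟨l', rfl⟩⟩ := h
        generalize_proofs p1 p2
        have e1 := (hκinj _ _ _ _ p1.choose_spec).2
        have e2 := (hκinj _ _ _ _ p2.choose_spec).2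
        rw [e1, e2]
        simp only [hκ]
        rw [ext_apply]
        simp [trans, copies]
      · rcases back_cases ι i with ⟨y, hy, -⟩ | ⟨hi, hi'⟩
        · rcases back_cases ι l with ⟨z, hz, -⟩ | ⟨hl, hl'⟩
          · rw [← hy, ← hz]
            simp only [hκ]
            rw [ext_apply]
            simp only [trans, copies, Equiv.symm_apply_apply]
            rw [if_neg]
            rintro ⟨h1, h2⟩
            apply h
            refine ⟨⟨(e.symm y).1, ?_⟩, ⟨(e.symm z).1, ?_⟩⟩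
            · rw [← hy]
              simp only [hκ]
              congr 1
              rw [← h1]
              simp
            · rw [← hz]
              simp only [hκ]
              congr 1
              rw [h2]
              simp
          · rw [ext_out ι _ _ _ _ (Or.inr (Or.inr hl')), if_neg]
            rintro ⟨-, rfl⟩
            exact hl ⟨_, rfl⟩
        · rw [ext_out ι _ _ _ _ (Or.inl hi'), if_neg]
          rintro ⟨rfl, -⟩
          exact hi ⟨_, rfl⟩
    -- the entry of the product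
    have hsum : (evalMat (ext ι (trans e (copies (Fin N) b))) x).mulVec (w t) i =
        ∑ u, (∑ l, (ext ι (trans e (copies (Fin N) b)) i (κ t u) l : F) * x l) * v t u := by
      simp only [Matrix.mulVec, dotProduct, evalMat, Matrix.of_apply]
      rw [← Finset.sum_subset (Finset.subset_univ (Finset.univ.map ⟨κ t, fun u v h =>
        (hκinj _ _ _ _ h).2⟩))]
      · rw [Finset.sum_map]
        refine Finset.sum_congr rfl fun u _ => ?_
        simp only [Function.Embedding.coeFn_mk]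
        rw [hw1]
      · intro j _ hj
        rw [hw2, mul_zero]
        intro u hu
        exact hj (Finset.mem_map.2 ⟨u, Finset.mem_univ _, hu⟩)
    rw [hsum, Pi.zero_apply]
    by_cases hi : ∃ i', κ t i' = i
    · obtain ⟨i', rfl⟩ := hi
      have h1 := congrFun (hv t) i'
      simp only [Matrix.mulVec, dotProduct, evalMat, Matrix.of_apply, Pi.zero_apply] at h1
      rw [← h1]
      refine Finset.sum_congr rfl fun u _ => ?_
      congr 1
      rw [← Finset.sum_subset (Finset.subset_univ (Finset.univ.map ⟨κ t, fun u v h =>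
        (hκinj _ _ _ _ h).2⟩))]
      · rw [Finset.sum_map]
        refine Finset.sum_congr rfl fun l' _ => ?_
        simp only [Function.Embedding.coeFn_mk]
        rw [hcoef, dif_pos ⟨⟨i', rfl⟩, ⟨l', rfl⟩⟩]
        generalize_proofs p1 p2
        rw [(hκinj _ _ _ _ p1.choose_spec).2, (hκinj _ _ _ _ p2.choose_spec).2]
      · intro l _ hl
        rw [hcoef, dif_neg, Int.cast_zero, zero_mul]
        rintro ⟨-, l', hl'⟩
        exact hl (Finset.mem_map.2 ⟨l', Finset.mem_univ _, hl'⟩)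
    · apply Finset.sum_eq_zero
      intro u _
      rw [Finset.sum_eq_zero, zero_mul]
      intro l _
      rw [hcoef, dif_neg, Int.cast_zero, zero_mul]
      exact fun h => hi h.1
  · intro t s i hts
    by_cases h : ∃ u, κ t u = i
    · right
      apply hw2
      intro u hu
      obtain ⟨u', hu'⟩ := h
      exact hts (hκinj _ _ _ _ (hu'.trans hu.symm)).1
    · left
      exact hw2 _ _ fun u hu => h ⟨u, hu⟩

end Kernel

theorem gap_on (hP : StPair) (hSu : StSupport) (hTr : StTransfer) (hL : StLogic) (q N n : ℕ)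
    (S : Finset (Fin n)) (hq : 1 ≤ q) (hN : 1 ≤ N) (hS : 10 ^ 4 * q * N ≤ S.card) :
    ∃ a b : Fin n → Fin n → Fin n → ℤ,
      (∀ i j l, a i j l = a j i l ∧ a i j l ∈ ({-1, 0, 1, 2} : Set ℤ)) ∧
      (∀ i j l, b i j l = b j i l ∧ b i j l ∈ ({-1, 0, 1, 2} : Set ℤ)) ∧
      (symMat a).det ≠ 0 ∧
      (∀ (F : Type) [Field F] (x : Fin n → F),
        (Matrix.of fun i j => ∑ l, (b i j l : F) * x l).rank + N ≤ n) ∧
      (∀ (V : Type) (C : Circuit n V), C.SymmetricOn S →
        (∀ g, (C.orbitOn S g).Finite ∧ (C.orbitOn S g).ncard < 3 ^ q) →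
        C.val a C.out = C.val b C.out) ∧
      ∀ φ : CForm (2 * q), (∀ v, Holds a φ v) ↔ (∀ v, Holds b φ v) := by
  obtain ⟨m, hm⟩ : ∃ m, m = 10 ^ 4 * q := ⟨_, rfl⟩
  rw [← hm] at hS
  obtain ⟨a, b, ha, hb, hda, hdb, hK⟩ := hP q m hq hm.ge
  let e : Fin m × Fin N ≃ Fin (m * N) := finProdFinEquiv
  have hcard : Fintype.card (Fin (m * N)) ≤ Fintype.card S := by
    rw [Fintype.card_fin, Fintype.card_coe]; exact hS
  obtain ⟨ι₀⟩ := Function.Embedding.nonempty_of_card_le hcard
  let ι : Fin (m * N) ↪ Fin n := ι₀.trans (Function.Embedding.subtype _)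
  have hι : ∀ x, ι x ∈ S := fun x => (ι₀ x).2
  have hK' : KEquiv (trans e (copies (Fin N) a)) (trans e (copies (Fin N) b)) (2 * q + 4) :=
    kequiv_trans e (kequiv_copies hK)
  have hs : ∀ c : Fin m → Fin m → Fin m → ℤ, (∀ i j l, c i j l = c j i l) → ∀ i j l,
      trans e (copies (Fin N) c) i j l = trans e (copies (Fin N) c) j i l :=
    fun c hc i j l => copies_symm c hc _ _ _
  have hr : ∀ c : Fin m → Fin m → Fin m → ℤ, (∀ i j l, c i j l ∈ ({-1, 0, 1, 2} : Set ℤ)) →
      ∀ i j l, trans e (copies (Fin N) c) i j l ∈ ({-1, 0, 1, 2} : Set ℤ) :=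
    fun c hc i j l => copies_range c hc _ _ _
  refine ⟨ext ι (trans e (copies (Fin N) a)), ext ι (trans e (copies (Fin N) b)),
    fun i j l => ⟨ext_symm ι _ (hs a fun i j l => (ha i j l).1) i j l,
    ext_range ι _ (hr a fun i j l => (ha i j l).2) i j l⟩,
    fun i j l => ⟨ext_symm ι _ (hs b fun i j l => (hb i j l).1) i j l,
    ext_range ι _ (hr b fun i j l => (hb i j l).2) i j l⟩,
    ?_, ?_, ?_, fun φ => hL (Fin n) _ _ (2 * q) (kequiv_ext ι (kequiv_mono hK' (by omega))) φ⟩
  · intro h0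
    have h1 := (det_ext ι _).1 h0
    rw [det_trans] at h1
    apply det_copies_ne_zero (T := Fin N) a hda
    apply rename_injective e e.injective
    rw [h1, map_zero]
  · intro F _ x
    exact rank_gap e ι b x hdb
  · intro V C hC hO
    have hmN : m ≤ m * N := Nat.le_mul_of_pos_right m hN
    exact kequiv_symmetricOn hSu hTr q (m * N) n S hq (by omega) ι hι _ _ hK' V C hC hO

end Pool.Agent.Lib.MP_64d474_lc.Circ
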