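import Pool.Agent.Lib.MP_64d474_lc.Circ.Spec2

/-!
Equivalence classes of the points under the 3-cycles of a subgroup.
-/

namespace Pool.Agent.Lib.MP_64d474_lc.Circ

open Equiv

section

variable {Ω : Type} [DecidableEq Ω]

theorem cyc_apply {a b c : Ω} (hab : a ≠ b) (hbc : b ≠ c) (hca : c ≠ a) (z : Ω) :
    (swap a b * swap b c) z = if z = a then b else if z = b then c else if z = c then a else z := by
  simp only [Perm.mul_apply]
  split_ifs with h1 h2 h3
  · subst h1
    rw [swap_apply_of_ne_of_ne hab hca.symm, swap_apply_left]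
  · subst h2
    rw [swap_apply_left, swap_apply_of_ne_of_ne hca hbc.symm]
  · subst h3
    rw [swap_apply_right, swap_apply_right]
  · rw [swap_apply_of_ne_of_ne h2 h3, swap_apply_of_ne_of_ne h1 h2]

/-- `a → b → c → a` is `b → c → a → b`. -/
theorem cyc_rot {a b c : Ω} (hab : a ≠ b) (hbc : b ≠ c) (hca : c ≠ a) :
    swap a b * swap b c = swap b c * swap c a := by
  refine Equiv.ext fun z => ?_
  rw [cyc_apply hab hbc hca, cyc_apply hbc hca hab]
  split_ifs <;> simp_all

theorem cyc_inv {a b c : Ω} : (swap a b * swap b c)⁻¹ = swap c b * swap b a := by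
  rw [mul_inv_rev, swap_inv, swap_inv, swap_comm b c, swap_comm a b]

theorem cyc_conj (x : Perm Ω) (a b c : Ω) :
    x * (swap a b * swap b c) * x⁻¹ = swap (x a) (x b) * swap (x b) (x c) := by
  have h1 := swap_apply_apply x a b
  have h2 := swap_apply_apply x b c
  rw [h1, h2]
  group

/-- `a`, `b`, `c` are different and form a 3-cycle of `H`. -/
def Cyc (H : Subgroup (Perm Ω)) (a b c : Ω) : Prop :=
  a ≠ b ∧ b ≠ c ∧ c ≠ a ∧ swap a b * swap b c ∈ H

theorem rel3_iff (H : Subgroup (Perm Ω)) (a b : Ω) : Rel3 H a b ↔ a = b ∨ ∃ c, Cyc H a b c :=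
  Iff.rfl

variable {H : Subgroup (Perm Ω)}

theorem Cyc.rot {a b c : Ω} (h : Cyc H a b c) : Cyc H b c a := by
  obtain ⟨h1, h2, h3, h4⟩ := h
  exact ⟨h2, h3, h1, by rw [← cyc_rot h1 h2 h3]; exact h4⟩

theorem Cyc.inv {a b c : Ω} (h : Cyc H a b c) : Cyc H c b a := by
  obtain ⟨h1, h2, h3, h4⟩ := h
  exact ⟨h2.symm, h1.symm, h3.symm, by rw [← cyc_inv]; exact H.inv_mem h4⟩

theorem Cyc.conj {a b c : Ω} (h : Cyc H a b c) {x : Perm Ω} (hx : x ∈ H) :
    Cyc H (x a) (x b) (x c) := by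
  obtain ⟨h1, h2, h3, h4⟩ := h
  refine ⟨fun e => h1 (x.injective e), fun e => h2 (x.injective e), fun e => h3 (x.injective e), ?_⟩
  rw [← cyc_conj]
  exact H.mul_mem (H.mul_mem hx h4) (H.inv_mem hx)

theorem Rel3.symm' {a b : Ω} (h : Rel3 H a b) : Rel3 H b a := by
  rcases h with h | ⟨c, h⟩
  · exact Or.inl h.symm
  · exact Or.inr ⟨c, (Cyc.inv h).rot⟩

theorem Rel3.trans' {a b d : Ω} (h1 : Rel3 H a b) (h2 : Rel3 H b d) : Rel3 H a d := by
  rcases h1 with rfl | ⟨c, h1⟩
  · exact h2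
  rcases h2 with rfl | ⟨e, h2⟩
  · exact Or.inr ⟨c, h1⟩
  by_cases had : a = d
  · exact Or.inl had
  right
  have h1' : Cyc H a b c := h1
  have h2' : Cyc H b d e := h2
  by_cases hcd : c = d
  · subst hcd
    exact ⟨b, h1'.inv.rot.rot⟩
  · -- conjugate the second by the inverse of the first
    have hx := H.inv_mem h1'.2.2.2
    have h3 := h2'.conj hx
    have e1 : (swap a b * swap b c)⁻¹ b = a := by
      rw [Perm.inv_eq_iff_eq, cyc_apply h1'.1 h1'.2.1 h1'.2.2.1]
      simp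
    have e2 : (swap a b * swap b c)⁻¹ d = d := by
      rw [Perm.inv_eq_iff_eq, cyc_apply h1'.1 h1'.2.1 h1'.2.2.1, if_neg (Ne.symm had),
        if_neg (Ne.symm h2'.1), if_neg (Ne.symm hcd)]
    rw [e1, e2] at h3
    exact ⟨_, h3⟩

theorem cyc_same {a b c x : Ω} (hbc : b ≠ c) (h1 : Cyc H a b x) (h2 : Cyc H a c x) :
    Cyc H a b c := by
  have h3 := h2.conj h1.2.2.2
  rw [cyc_apply h1.1 h1.2.1 h1.2.2.1, cyc_apply h1.1 h1.2.1 h1.2.2.1,
    cyc_apply h1.1 h1.2.1 h1.2.2.1, if_pos rfl, if_neg h2.1.symm, if_neg hbc.symm,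
    if_neg h2.2.1, if_neg h1.2.2.1, if_neg h1.2.1.symm, if_pos rfl] at h3
  exact h3.rot.rot

theorem cyc_of_rel {a b c : Ω} (hab : a ≠ b) (hac : a ≠ c) (hbc : b ≠ c) (h1 : Rel3 H a b)
    (h2 : Rel3 H a c) : Cyc H a b c := by
  rcases h1 with h1 | ⟨x, h1⟩
  · exact absurd h1 hab
  rcases h2 with h2 | ⟨y, h2⟩
  · exact absurd h2 hac
  have h1' : Cyc H a b x := h1
  have h2' : Cyc H a c y := h2
  by_cases hxc : x = c
  · subst hxc; exact h1'
  by_cases hyb : y = b
  · subst hyb; exact h2'.inv.rot.rot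
  by_cases hxy : x = y
  · subst hxy
    exact cyc_same hbc h1' h2'
  · have h3 := h2'.conj h1'.2.2.2
    rw [cyc_apply h1'.1 h1'.2.1 h1'.2.2.1, cyc_apply h1'.1 h1'.2.1 h1'.2.2.1,
      cyc_apply h1'.1 h1'.2.1 h1'.2.2.1, if_pos rfl, if_neg hac.symm, if_neg hbc.symm,
      if_neg (Ne.symm hxc), if_neg h2'.2.2.1, if_neg hyb, if_neg (Ne.symm hxy)] at h3
    -- `b → c → y → b`
    have h4 : Cyc H c a y := h2'.inv.rot
    have h5 : Cyc H c b y := h3.inv.rot
    exact (cyc_same hab h4 h5).rot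

end

/-- The classes of `Rel3`. -/
theorem stClass : StClass := by
  intro Ω _ _ H
  classical
  refine ⟨⟨fun a => Or.inl rfl, Rel3.symm', Rel3.trans'⟩, ?_, ?_⟩
  · intro x hx a b h
    rcases h with h | ⟨c, h⟩
    · exact Or.inl (by rw [h])
    · exact Or.inr ⟨x c, Cyc.conj h hx⟩
  · intro a σ hσ hfix
    -- the class
    let p : Ω → Prop := fun y => Rel3 H a y
    have hp : ∀ y, p (σ y) ↔ p y := by
      intro y
      by_cases h : p y
      · refine ⟨fun _ => h, fun _ => ?_⟩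
        by_contra h2
        have h3 := hfix _ h2
        have h4 := σ.injective h3
        rw [h4] at h2
        exact h2 h
      · rw [hfix y h]
    have h1 : Perm.ofSubtype (σ.subtypePerm hp) = σ := by
      refine Perm.ofSubtype_subtypePerm hp ?_
      intro y hy
      by_contra h2
      exact hy (hfix y h2)
    have h2 : Perm.sign (σ.subtypePerm hp) = 1 := by
      rw [← Perm.sign_ofSubtype, h1, hσ]
    have h3 : σ.subtypePerm hp ∈ Subgroup.closure {τ : Perm {y // p y} | τ.IsThreeCycle} := by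
      rw [Perm.closure_three_cycles_eq_alternating]
      exact Perm.mem_alternatingGroup.2 h2
    have h4 : Subgroup.closure {τ : Perm {y // p y} | τ.IsThreeCycle} ≤
        H.comap (Perm.ofSubtype) := by
      rw [Subgroup.closure_le]
      intro τ hτ
      have hτ' : τ.IsThreeCycle := hτ
      obtain ⟨u, hu⟩ : ∃ u, u ∈ τ.support := by
        have : τ.support.card = 3 := hτ'.card_support
        exact Finset.card_pos.1 (by omega)
      have h5 := hτ'.eq_swap_mul_swap_iff_mem_support.2 hu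
      have h6 := hτ'.nodup_iff_mem_support.2 hu
      simp only [List.nodup_cons, List.mem_cons, List.not_mem_nil, or_false, not_or] at h6
      obtain ⟨⟨n1, n2⟩, n3, -⟩ := h6
      change Perm.ofSubtype τ ∈ H
      rw [h5, map_mul, Perm.ofSubtype_swap_eq, Perm.ofSubtype_swap_eq]
      have r1 : Rel3 H (u : Ω) (τ u : Ω) := Rel3.trans' (Rel3.symm' u.2) (τ u).2
      have r2 : Rel3 H (u : Ω) (τ (τ u) : Ω) := Rel3.trans' (Rel3.symm' u.2) (τ (τ u)).2
      exact (cyc_of_rel (fun e => n1 (Subtype.ext e)) (fun e => n2 (Subtype.ext e))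
        (fun e => n3 (Subtype.ext e)) r1 r2).2.2.2
    have h5 := h4 h3
    change Perm.ofSubtype (σ.subtypePerm hp) ∈ H at h5
    rwa [h1] at h5

end Pool.Agent.Lib.MP_64d474_lc.Circ
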