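import Pool.Agent.Lib.MP_64d474_lc.Circ.Spec

/-!
The big component: outside a small set of sites an expander has a connected set of more than half
of the nodes.
-/

namespace Pool.Agent.Lib.MP_64d474_lc.Circ

open Equiv

section Comp

variable {N : Type} [DecidableEq N]

omit [DecidableEq N] in
theorem step_symm (P : Bool → Perm N) (S : Finset (Site N)) {x y : N} (h : Step P S x y) :
    Step P S y x := by
  obtain ⟨hx, hy, d, h1 | h1⟩ := h
  · exact ⟨hy, hx, d, Or.inr h1⟩
  · exact ⟨hy, hx, d, Or.inl h1⟩

omit [DecidableEq N] in
theorem reach_trans (P : Bool → Perm N) (S : Finset (Site N)) {x y z : N} (h : Reach P S x y)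
    (h' : Reach P S y z) : Reach P S x z :=
  Relation.ReflTransGen.trans h h'

omit [DecidableEq N] in
theorem reach_symm (P : Bool → Perm N) (S : Finset (Site N)) {x y : N} (h : Reach P S x y) :
    Reach P S y x := by
  induction h with
  | refl => exact Relation.ReflTransGen.refl
  | tail _ hbc ih => exact Relation.ReflTransGen.head (step_symm P S hbc) ih

/-- The edges leaving a closed set are blocked by different sites, for each direction. -/
theorem exit_le (P : Bool → Perm N) (S : Finset (Site N)) (W : Finset N)
    (hW : ∀ x ∈ W, ∀ y, Reach P S x y → y ∈ W) (d : Bool) :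
    (W.filter fun x => P d x ∉ W).card ≤ S.card := by
  classical
  have hblock : ∀ x ∈ W.filter (fun x => P d x ∉ W),
      Sum.inl (d, P d x) ∈ S ∨ Sum.inr x ∈ S ∨ Sum.inr (P d x) ∈ S := by
    intro x hx
    rw [Finset.mem_filter] at hx
    by_contra hcon
    push Not at hcon
    exact hx.2 (hW x hx.1 _ (Relation.ReflTransGen.single
      ⟨hcon.2.1, hcon.2.2, d, Or.inl ⟨rfl, hcon.1⟩⟩))
  refine Finset.card_le_card_of_injOn
    (fun x => if Sum.inl (d, P d x) ∈ S then (Sum.inl (d, P d x) : Site N)
      else if Sum.inr x ∈ S then Sum.inr x else Sum.inr (P d x)) ?_ ?_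
  · intro x hx
    have hx' := hblock x (by simpa using hx)
    simp only [Finset.mem_coe]
    split_ifs with h1 h2
    · exact h1
    · exact h2
    · rcases hx' with h | h | h
      · exact absurd h h1
      · exact absurd h h2
      · exact h
  · intro x hx y hy hxy
    have hx' : x ∈ W ∧ P d x ∉ W := by simpa using hx
    have hy' : y ∈ W ∧ P d y ∉ W := by simpa using hy
    simp only at hxy
    split_ifs at hxy with h1 h2 h3 h4 h5 h6
    all_goals first
      | (simp only [Sum.inl.injEq, Prod.mk.injEq, true_and] at hxy
         exact (P d).injective hxy)
      | (simp only [Sum.inr.injEq] at hxy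
         first
          | exact hxy
          | exact (P d).injective hxy
          | (exfalso; exact hy'.2 (hxy ▸ hx'.1))
          | (exfalso; exact hx'.2 (hxy ▸ hy'.1)))

theorem stComp : StComp := by
  classical
  intro N _ _ P k hN hE S hS
  by_cases hbig : ∃ x : N, Fintype.card N < 2 * (Finset.univ.filter fun y => Reach P S x y).card
  · obtain ⟨x, hx⟩ := hbig
    refine ⟨Finset.univ.filter fun y => Reach P S x y, hx, ?_, ?_⟩
    · intro y hy
      have hy' : Reach P S x y := by simpa using hy
      have h2 : 1 < (Finset.univ.filter fun y => Reach P S x y).card := by omega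
      obtain ⟨z, hz, hzy⟩ := Finset.exists_mem_ne h2 y
      have hz' : Reach P S x z := by simpa using hz
      have hyz : Reach P S y z := reach_trans P S (reach_symm P S hy') hz'
      rcases Relation.ReflTransGen.cases_head hyz with h | ⟨c, hc, -⟩
      · exact absurd h.symm hzy
      · exact hc.1
    · intro y hy z hz
      have hy' : Reach P S x y := by simpa using hy
      have hz' : Reach P S x z := by simpa using hz
      exact reach_trans P S (reach_symm P S hy') hz'
  · push Not at hbig
    exfalso
    -- a closed set of medium size
    have hmed : ∃ W : Finset N, (∀ x ∈ W, ∀ y, Reach P S x y → y ∈ W) ∧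
        Fintype.card N ≤ 4 * W.card ∧ 2 * W.card ≤ Fintype.card N := by
      let F : Finset (Finset N) := Finset.univ.filter fun W =>
        (∀ x ∈ W, ∀ y, Reach P S x y → y ∈ W) ∧ 2 * W.card ≤ Fintype.card N
      have hF : F.Nonempty := ⟨∅, by simp [F]⟩
      obtain ⟨W, hW, hmax⟩ := Finset.exists_max_image F (fun W => W.card) hF
      have hW' : (∀ x ∈ W, ∀ y, Reach P S x y → y ∈ W) ∧ 2 * W.card ≤ Fintype.card N := by
        simpa [F] using hW
      by_cases h4 : Fintype.card N ≤ 4 * W.card
      · exact ⟨W, hW'.1, h4, hW'.2⟩
      · have hlt : W.card < Fintype.card N := by omega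
        obtain ⟨x, hx⟩ : ∃ x, x ∉ W := by
          by_contra hcon
          push Not at hcon
          have : W = Finset.univ := Finset.eq_univ_iff_forall.mpr hcon
          rw [this, Finset.card_univ] at hlt
          omega
        by_cases h5 : Fintype.card N ≤ 4 * (Finset.univ.filter fun y => Reach P S x y).card
        · refine ⟨_, ?_, h5, hbig x⟩
          intro y hy z hz
          have hy' : Reach P S x y := by simpa using hy
          simp only [Finset.mem_filter, Finset.mem_univ, true_and]
          exact reach_trans P S hy' hz
        · exfalso
          have hdisj : Disjoint W (Finset.univ.filter fun y => Reach P S x y) := by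
            rw [Finset.disjoint_left]
            intro y hy hy2
            have hy' : Reach P S x y := by simpa using hy2
            exact hx (hW'.1 y hy x (reach_symm P S hy'))
          have hmem : W ∪ (Finset.univ.filter fun y => Reach P S x y) ∈ F := by
            simp only [F, Finset.mem_filter, Finset.mem_univ, true_and]
            refine ⟨?_, ?_⟩
            · intro y hy z hz
              rcases Finset.mem_union.mp hy with h | h
              · exact Finset.mem_union_left _ (hW'.1 y h z hz)
              · have hy' : Reach P S x y := by simpa using h
                refine Finset.mem_union_right _ ?_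
                simp only [Finset.mem_filter, Finset.mem_univ, true_and]
                exact reach_trans P S hy' hz
            · have := Finset.card_union_le W (Finset.univ.filter fun y => Reach P S x y)
              omega
          have h1 := hmax _ hmem
          rw [Finset.card_union_of_disjoint hdisj] at h1
          have hpos : 0 < (Finset.univ.filter fun y => Reach P S x y).card :=
            Finset.card_pos.mpr ⟨x, by simp [Reach, Relation.ReflTransGen.refl]⟩
          omega
    obtain ⟨W, hcl, hW1, hW2⟩ := hmed
    have h1 := hE W hW1 hW2
    have h2 := exit_le P S W hcl false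
    have h3 := exit_le P S W hcl true
    omega

end Comp

end Pool.Agent.Lib.MP_64d474_lc.Circ
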