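import Pool.Agent.Lib.MP_64d474_lc.Circ.Part

/-!
Disjoint copies of a symbolic matrix.
-/

namespace Pool.Agent.Lib.MP_64d474_lc.Circ

open Equiv MvPolynomial

section Copies

variable {I T : Type} [DecidableEq I] [DecidableEq T]

/-- Disjoint copies, indexed by `T`, of the symbolic matrix with coefficients `a`. -/
def copies (T : Type) [DecidableEq T] (a : I → I → I → ℤ) : I × T → I × T → I × T → ℤ :=
  fun i j l => if i.2 = j.2 ∧ j.2 = l.2 then a i.1 j.1 l.1 else 0

theorem kequiv_copies {a b : I → I → I → ℤ} {k : ℕ} (h : KEquiv a b k) :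
    KEquiv (copies T a) (copies T b) k := by
  obtain ⟨W, h1, h2, h3, h4⟩ := h
  let E : T → I × I → (I × T) × (I × T) := fun t x => ((x.1, t), (x.2, t))
  have hE : ∀ t, Function.Injective (E t) := by
    rintro t ⟨x, y⟩ ⟨x', y'⟩ hxy
    simp only [E, Prod.mk.injEq, and_true] at hxy
    rw [hxy.1, hxy.2]
  let sl : T → Finset ((I × T) × (I × T)) → Finset (I × I) :=
    fun t p => p.preimage (E t) (hE t).injOn
  have hsl : ∀ t p x, x ∈ sl t p ↔ E t x ∈ p := fun t p x => Finset.mem_preimage
  refine ⟨fun p => (∀ x ∈ p, x.1.2 = x.2.2) ∧ ∀ t, W (sl t p), ?_, ?_, ?_, ?_⟩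
  · refine ⟨by simp, fun t => ?_⟩
    have : sl t ∅ = ∅ := by
      ext x; simp [hsl]
    rw [this]; exact h1
  · rintro p q ⟨hp1, hp2⟩ hq
    exact ⟨fun x hx => hp1 x (hq hx), fun t => h2 _ _ (hp2 t) fun x hx =>
      (hsl t p x).2 (hq ((hsl t q x).1 hx))⟩
  · rintro p ⟨hp1, hp2⟩ x hx y hy
    obtain ⟨⟨x1, t⟩, ⟨x2, t'⟩⟩ := x
    obtain ⟨⟨y1, s⟩, ⟨y2, s'⟩⟩ := y
    have ht : t = t' := hp1 _ hx
    have hs : s = s' := hp1 _ hy
    subst ht hs
    refine ⟨?_, ?_⟩
    · by_cases hts : t = s
      · subst hts
        have := (h3 _ (hp2 t) (x1, x2) ((hsl _ _ _).2 hx) (y1, y2) ((hsl _ _ _).2 hy)).1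
        simpa using this
      · simp [hts]
    · rintro ⟨⟨z1, r⟩, ⟨z2, r'⟩⟩ hz
      have hr : r = r' := hp1 _ hz
      subst hr
      simp only [copies]
      by_cases h5 : t = s ∧ s = r
      · obtain ⟨rfl, rfl⟩ := h5
        simp only [and_self, if_true]
        exact (h3 _ (hp2 t) (x1, x2) ((hsl _ _ _).2 hx) (y1, y2) ((hsl _ _ _).2 hy)).2
          (z1, z2) ((hsl _ _ _).2 hz)
      · rw [if_neg h5, if_neg h5]
  · rintro p ⟨hp1, hp2⟩ hc
    have hcard : ∀ t, (sl t p).card < k := by
      intro t
      refine lt_of_le_of_lt ?_ hc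
      rw [← Finset.card_image_of_injective _ (hE t)]
      refine Finset.card_le_card fun x hx => ?_
      obtain ⟨y, hy, rfl⟩ := Finset.mem_image.1 hx
      exact (hsl t p y).1 hy
    choose e he using fun t => h4 _ (hp2 t) (hcard t)
    refine ⟨⟨fun u => (e u.2 u.1, u.2), fun u => ((e u.2).symm u.1, u.2), fun u => by simp,
      fun u => by simp⟩, ?_⟩
    rintro ⟨u, s⟩
    refine ⟨?_, ?_⟩
    · intro x hx
      rcases Finset.mem_insert.1 hx with rfl | hx
      · rfl
      · exact hp1 x hx
    · intro t
      by_cases hts : t = s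
      · subst hts
        refine h2 _ _ (he t u) fun x hx => ?_
        rw [hsl, Finset.mem_insert] at hx
        rcases hx with hx | hx
        · simp only [E, Prod.mk.injEq, and_true, coe_fn_mk] at hx
          have : x = (u, e t u) := Prod.ext hx.1 hx.2
          rw [this]; exact Finset.mem_insert_self _ _
        · exact Finset.mem_insert_of_mem ((hsl t p x).2 hx)
      · refine h2 _ _ (hp2 t) fun x hx => ?_
        rw [hsl, Finset.mem_insert] at hx
        rcases hx with hx | hx
        · exfalso
          apply hts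
          exact congrArg (fun z : (I × T) × (I × T) => z.1.2) hx
        · exact (hsl t p x).2 hx

theorem copies_symm (a : I → I → I → ℤ) (ha : ∀ i j l, a i j l = a j i l) (i j l : I × T) :
    copies T a i j l = copies T a j i l := by
  unfold copies
  rw [ha]
  refine if_congr ⟨?_, ?_⟩ rfl rfl <;>
    (rintro ⟨h1, h2⟩; exact ⟨h1.symm, h1.trans h2⟩)

theorem copies_range (a : I → I → I → ℤ) (ha : ∀ i j l, a i j l ∈ ({-1, 0, 1, 2} : Set ℤ))
    (i j l : I × T) : copies T a i j l ∈ ({-1, 0, 1, 2} : Set ℤ) := by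
  unfold copies
  split_ifs
  · exact ha _ _ _
  · simp

variable [Fintype I] [Fintype T]

theorem symMat_copies (a : I → I → I → ℤ) :
    symMat (copies T a) = Matrix.blockDiagonal fun t =>
      ((symMat a).map (rename fun i : I => (i, t)) : Matrix I I (MvPolynomial (I × T) ℤ)) := by
  ext1 ⟨i, t⟩ ⟨j, s⟩
  rw [Matrix.blockDiagonal_apply]
  have e1 : symMat (copies T a) (i, t) (j, s) =
      ∑ l : I, ∑ r : T, C (if t = s ∧ s = r then a i j l else 0) * X (l, r) := by
    rw [← Fintype.sum_prod_type']
    rfl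
  rw [e1]
  by_cases hts : t = s
  · subst hts
    have e2 : ((symMat a).map (rename fun i : I => (i, t)) : Matrix I I (MvPolynomial (I × T) ℤ))
        i j = rename (fun i : I => (i, t)) (∑ l, C (a i j l) * X l) := rfl
    simp only [true_and, if_true]
    rw [e2]
    simp only [map_sum, map_mul, rename_C, rename_X]
    refine Finset.sum_congr rfl fun l _ => ?_
    rw [Finset.sum_eq_single t]
    · simp
    · intro r _ hr
      rw [if_neg (Ne.symm hr), map_zero, zero_mul]
    · intro h; exact absurd (Finset.mem_univ t) h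
  · simp [hts]

theorem det_copies_ne_zero (a : I → I → I → ℤ) (ha : (symMat a).det ≠ 0) :
    (symMat (copies T a)).det ≠ 0 := by
  rw [symMat_copies, Matrix.det_blockDiagonal, Finset.prod_ne_zero_iff]
  intro t _ h
  apply ha
  have hinj : Function.Injective fun i : I => (i, t) := fun i j h => congrArg Prod.fst h
  apply rename_injective _ hinj
  rw [map_zero, AlgHom.map_det]
  exact h

end Copies

/-- The matrix of the values of the entries at the point `x`. -/
def evalMat {I : Type} [Fintype I] (b : I → I → I → ℤ) {F : Type} [Field F] (x : I → F) :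
    Matrix I I F :=
  Matrix.of fun i j => ∑ l, (b i j l : F) * x l

theorem det_evalMat {I : Type} [Fintype I] [DecidableEq I] (b : I → I → I → ℤ) {F : Type}
    [Field F] (x : I → F) (hb : (symMat b).det = 0) : (evalMat b x).det = 0 := by
  have h : evalMat b x = (symMat b).map (eval₂Hom (Int.castRingHom F) x) := by
    ext i j
    simp only [evalMat, symMat, Matrix.of_apply, Matrix.map_apply, map_sum, map_mul, eval₂Hom_C,
      eval₂Hom_X']
    rfl
  rw [h, ← RingHom.mapMatrix_apply, ← RingHom.map_det, hb, map_zero]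

/-- A matrix with `N` nonzero kernel vectors with disjoint supports. -/
theorem rank_add_le {n N : ℕ} {F : Type} [Field F] (M : Matrix (Fin n) (Fin n) F)
    (v : Fin N → Fin n → F) (h0 : ∀ t, v t ≠ 0) (hM : ∀ t, M.mulVec (v t) = 0)
    (hd : ∀ t s i, t ≠ s → v t i = 0 ∨ v s i = 0) : M.rank + N ≤ n := by
  have hli : LinearIndependent F v := by
    rw [Fintype.linearIndependent_iff]
    intro c hc t
    obtain ⟨i, hi⟩ := Function.ne_iff.1 (h0 t)
    have h1 := congrFun hc i
    rw [Finset.sum_apply, Finset.sum_eq_single t] at h1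
    · simp only [Pi.smul_apply, smul_eq_mul, Pi.zero_apply] at h1
      exact (mul_eq_zero.1 h1).resolve_right hi
    · intro s _ hs
      rcases hd t s i (Ne.symm hs) with h | h
      · exact absurd h hi
      · simp [h]
    · intro h; exact absurd (Finset.mem_univ t) h
  have h2 : N ≤ Module.finrank F (LinearMap.ker M.mulVecLin) := by
    let w : Fin N → LinearMap.ker M.mulVecLin := fun t => ⟨v t, by
      rw [LinearMap.mem_ker, Matrix.mulVecLin_apply]; exact hM t⟩
    have hw : LinearIndependent F w := by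
      apply LinearIndependent.of_comp (LinearMap.ker M.mulVecLin).subtype
      exact hli
    simpa using hw.fintype_card_le_finrank
  have h3 := LinearMap.finrank_range_add_finrank_ker M.mulVecLin
  rw [Module.finrank_fin_fun] at h3
  have h4 : M.rank = Module.finrank F (LinearMap.range M.mulVecLin) := rfl
  omega

end Pool.Agent.Lib.MP_64d474_lc.Circ
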