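import Pool.Agent.Lib.MP_64d474_lc.Circ.Spec

namespace Pool.Agent.Lib.MP_64d474_lc.Circ

/-- A symmetric circuit which decides the nonsingularity of symmetric symbolic matrices has a large
orbit of gates. -/
theorem circuit_bound (h : StMain) (n : ℕ) (V : Type) (C : Circuit n V) (acc : Set V)
    (hn : 10 ^ 4 ≤ n) (hC : C.Symmetric)
    (hdec : ∀ a : Fin n → Fin n → Fin n → ℤ,
      (∀ i j l, a i j l = a j i l ∧ a i j l ∈ ({-1, 0, 1, 2} : Set ℤ)) →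
      (C.val a C.out ∈ acc ↔ (symMat a).det ≠ 0)) :
    ∃ g, (C.orbit g).Infinite ∨ 3 ^ (n / 10 ^ 4) ≤ (C.orbit g).ncard := by
  by_contra hcon
  push Not at hcon
  have h1 : 1 ≤ n / 10 ^ 4 := (Nat.one_le_div_iff (by norm_num)).2 hn
  have h2 : 10 ^ 4 * (n / 10 ^ 4) ≤ n := Nat.mul_div_le _ _
  obtain ⟨a, b, ha, hb, hda, hdb, hcirc, -⟩ := h (n / 10 ^ 4) n h1 h2
  have h3 := hcirc V C hC hcon
  have h4 := (hdec a ha).2 hda
  rw [h3] at h4
  exact (hdec b hb).1 h4 hdb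

end Pool.Agent.Lib.MP_64d474_lc.Circ
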