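import Mathlib

/-!
Symbolic matrices, symmetric circuits over their coefficients, infinitary logic with counting.
Rows, columns and variables are all indexed by the same set.
-/

namespace Pool.Agent.Lib.MP_64d474_lc.Circ

/-- The symbolic matrix with coefficients `a`: entry `(i, j)` is the linear form
`∑ l, a i j l * X l`. -/
noncomputable def symMat {I : Type} [Fintype I] (a : I → I → I → ℤ) :
    Matrix I I (MvPolynomial I ℤ) :=
  fun i j => ∑ l, MvPolynomial.C (a i j l) * MvPolynomial.X l

/-- Gates with values in `V`: an input gate reads one coefficient, an inner gate applies a function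
to the multiset of the values of its children. -/
inductive Gate (n : ℕ) (V G : Type)
  | input (i j l : Fin n) (f : ℤ → V) : Gate n V G
  | inner (op : Multiset V → V) (ch : Multiset G) : Gate n V G

/-- A permutation `σ` of the indices and a permutation `τ` of the gates act on a gate. -/
def Gate.relabel {n : ℕ} {V G : Type} (σ : Equiv.Perm (Fin n)) (τ : Equiv.Perm G) :
    Gate n V G → Gate n V G
  | .input i j l f => .input (σ i) (σ j) (σ l) f
  | .inner op ch => .inner op (ch.map τ)

/-- Circuits whose inputs are the coefficients of an `n × n` symbolic matrix in `n` variables. -/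
structure Circuit (n : ℕ) (V : Type) where
  /-- the gates -/
  G : Type
  /-- the description of each gate -/
  gate : G → Gate n V G
  /-- the output gate -/
  out : G
  /-- the depth of a gate -/
  rk : G → ℕ
  acyclic : ∀ g op ch, gate g = .inner op ch → ∀ h ∈ ch, rk h < rk g

/-- The value of a gate on the symbolic matrix with coefficients `a`. -/
def Circuit.val {n : ℕ} {V : Type} (C : Circuit n V) (a : Fin n → Fin n → Fin n → ℤ) (g : C.G) :
    V :=
  match h : C.gate g with
  | .input i j l f => f (a i j l)
  | .inner op ch => op (ch.attach.map fun x => C.val a x.1)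
termination_by C.rk g
decreasing_by exact C.acyclic g op ch h x.1 x.2

/-- `τ` is an automorphism of the circuit which extends the permutation `σ` of the indices; `σ`
acts at the same time on rows, columns and variables. -/
def Circuit.IsAut {n : ℕ} {V : Type} (C : Circuit n V) (σ : Equiv.Perm (Fin n))
    (τ : Equiv.Perm C.G) : Prop :=
  τ C.out = C.out ∧ ∀ g, C.gate (τ g) = (C.gate g).relabel σ τ

/-- Every permutation of the indices extends to an automorphism of the circuit. -/
def Circuit.Symmetric {n : ℕ} {V : Type} (C : Circuit n V) : Prop :=
  ∀ σ : Equiv.Perm (Fin n), ∃ τ : Equiv.Perm C.G, C.IsAut σ τ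

/-- The orbit of a gate. -/
def Circuit.orbit {n : ℕ} {V : Type} (C : Circuit n V) (g : C.G) : Set C.G :=
  {h | ∃ σ τ, C.IsAut σ τ ∧ τ g = h}

/-- Formulas of infinitary counting logic with the `k` first-order variables `0, …, k-1`. -/
inductive CForm (k : ℕ) : Type 1
  | eq (i j : Fin k) : CForm k
  | coef (z : ℤ) (i j l : Fin k) : CForm k
  | neg (φ : CForm k) : CForm k
  | conj (ι : Type) (φ : ι → CForm k) : CForm k
  | atLeast (m : ℕ) (i : Fin k) (φ : CForm k) : CForm k

/-- Satisfaction in the structure of the symbolic matrix with coefficients `a`. -/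
def Holds {k : ℕ} {I : Type} (a : I → I → I → ℤ) : CForm k → (Fin k → I) → Prop
  | .eq i j, v => v i = v j
  | .coef z i j l, v => a (v i) (v j) (v l) = z
  | .neg φ, v => ¬ Holds a φ v
  | .conj _ φ, v => ∀ t, Holds a (φ t) v
  | .atLeast m i φ, v => ∃ f : Fin m ↪ I, ∀ t, Holds a φ (Function.update v i (f t))

end Pool.Agent.Lib.MP_64d474_lc.Circ
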