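import Pool.Agent.Lib.MP_64d474_lc.Circ.Defs

/-!
Circuits which are symmetric under the permutations of a given set of indices.
-/

namespace Pool.Agent.Lib.MP_64d474_lc.Circ

/-- Every permutation of the indices which moves only elements of `S` extends to an automorphism of
the circuit. -/
def Circuit.SymmetricOn {n : ℕ} {V : Type} (C : Circuit n V) (S : Finset (Fin n)) : Prop :=
  ∀ σ : Equiv.Perm (Fin n), (∀ x, x ∉ S → σ x = x) → ∃ τ : Equiv.Perm C.G, C.IsAut σ τ

/-- The orbit of a gate under the automorphisms which extend permutations of `S`. -/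
def Circuit.orbitOn {n : ℕ} {V : Type} (C : Circuit n V) (S : Finset (Fin n)) (g : C.G) :
    Set C.G :=
  {h | ∃ σ τ, (∀ x, x ∉ S → σ x = x) ∧ C.IsAut σ τ ∧ τ g = h}

end Pool.Agent.Lib.MP_64d474_lc.Circ
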