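import Pool.Agent.Lib.MP_64d474_lc.Circ.Spec

/-!
The two link matrices of a pair of permutations: one is nonsingular, the other singular.
-/

namespace Pool.Agent.Lib.MP_64d474_lc.Circ

open Equiv

set_option linter.unusedSectionVars false

section Matrices

variable {N : Type} [Fintype N] [DecidableEq N] (P : Bool → Perm N) {R : Type*} [CommRing R]

/-- The torus matrix with link signs `s`, evaluated at `X`. -/
def matA (s : Bool × N → ℤˣ) (X : Bool × N → R) : Matrix (Bool × N) (Bool × N) R :=
  fun r c => (if r.2 = c.2 then (sg r.1 c.1 : R) * X c else 0) +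
    (if r.2 = P r.1 c.2 then ((s r : ℤ) : R) * (sg r.1 (!c.1) : R) * X (!c.1, c.2) else 0)

/-- The companion matrix. -/
def matB (s : Bool × N → ℤˣ) (X : Bool × N → R) : Matrix (Bool × N) (Bool × N) R :=
  fun r c => (if r.2 = c.2 then (if r.1 then -1 else 1) * (sg r.1 c.1 : R) * X c else 0) +
    (if r.2 = P r.1 c.2 then
      (if r.1 then 1 else -1) * ((s r : ℤ) : R) * (sg r.1 (!c.1) : R) * X (!c.1, c.2) else 0)

theorem sum_base (s : Bool × N → ℤˣ) (X : Bool × N → R) (r c : Bool × N) :
    ∑ x, (base P s r c x : R) * X x = matA P s X r c := by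
  rw [Fintype.sum_prod_type]
  simp only [Fintype.sum_bool, base, matA]
  obtain ⟨rd, rn⟩ := r
  obtain ⟨cb, cn⟩ := c
  have h : ∀ b : Bool, ∑ x : N, (((if cn = x then
      (if rn = cn ∧ xor cb b = false then sg rd b else 0) +
      (if rn = P rd cn ∧ xor cb b = true then (s (rd, rn) : ℤ) * sg rd b else 0) else 0 : ℤ)) : R)
        * X (b, x) =
      (((if rn = cn ∧ xor cb b = false then sg rd b else 0) +
      (if rn = P rd cn ∧ xor cb b = true then (s (rd, rn) : ℤ) * sg rd b else 0) : ℤ) : R)
        * X (b, cn) := by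
    intro b
    rw [Finset.sum_eq_single cn]
    · simp
    · intro n _ hn
      simp [hn.symm]
    · simp
  simp only [h]
  cases cb
  · simp [add_comm]
  · simp

end Matrices


section Gram

variable {N : Type} [Fintype N] [DecidableEq N] (P : Bool → Perm N) {R : Type*} [CommRing R]

/-- The link through a connection (direction, end, node). -/
def lnk (κ : Bool × Bool × N) : Bool × N :=
  (κ.1, if κ.2.1 then P κ.1 κ.2.2 else κ.2.2)

/-- The sign carried by a connection. -/
def st (s : Bool × N → ℤˣ) (κ : Bool × Bool × N) : ℤˣ := if κ.2.1 then s (lnk P κ) else 1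

/-- The alternating sign of a connection. -/
def qs (κ : Bool × Bool × N) : ℤ := if xor κ.1 κ.2.1 then -1 else 1

/-- Link by connection matrix. -/
def matS (R : Type*) [CommRing R] (s : Bool × N → ℤˣ) :
    Matrix (Bool × N) (Bool × Bool × N) R :=
  fun r κ => if r = lnk P κ then ((st P s κ : ℤ) : R) else 0

/-- Connection by column matrix. -/
def matP (X : Bool × N → R) : Matrix (Bool × Bool × N) (Bool × N) R :=
  fun κ c => if κ.2.2 = c.2 then (sg κ.1 (xor c.1 κ.2.1) : R) * X (xor c.1 κ.2.1, c.2) else 0

/-- The alternating diagonal matrix. -/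
def matQ (N : Type) [DecidableEq N] (R : Type*) [CommRing R] :
    Matrix (Bool × Bool × N) (Bool × Bool × N) R :=
  Matrix.diagonal fun κ => (qs κ : R)

theorem qs_mul_self (κ : Bool × Bool × N) : qs κ * qs κ = 1 := by
  unfold qs; split_ifs <;> rfl

theorem matQ_mul_self : matQ N R * matQ N R = 1 := by
  rw [matQ, Matrix.diagonal_mul_diagonal]
  rw [← Matrix.diagonal_one]
  congr 1
  funext κ
  rw [← Int.cast_mul, qs_mul_self, Int.cast_one]

theorem sum_conn (f : Bool × Bool × N → R) :
    ∑ κ, f κ = ∑ n : N, (f (true, true, n) + f (true, false, n) + (f (false, true, n) +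
      f (false, false, n))) := by
  rw [Fintype.sum_prod_type]
  simp only [Fintype.sum_prod_type (f := fun x : Bool × N => _), Fintype.sum_bool,
    Finset.sum_add_distrib]
  ring

theorem matS_mul_matP (s : Bool × N → ℤˣ) (X : Bool × N → R) :
    matS P R s * matP X = matA P s X := by
  ext r c
  rw [Matrix.mul_apply, sum_conn]
  rw [Finset.sum_eq_single c.2]
  · obtain ⟨rd, rn⟩ := r
    obtain ⟨cb, cn⟩ := c
    cases rd <;> cases cb <;> simp [matS, matP, matA, lnk, st] <;>
      split_ifs with h1 h2 <;> (try rw [← h1]) <;> ring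
  · intro n _ hn
    simp [matP, hn]
  · simp

theorem matS_mul_matQ_mul_matP (s : Bool × N → ℤˣ) (X : Bool × N → R) :
    matS P R s * matQ N R * matP X = matB P s X := by
  ext r c
  rw [Matrix.mul_apply, sum_conn]
  rw [Finset.sum_eq_single c.2]
  · obtain ⟨rd, rn⟩ := r
    obtain ⟨cb, cn⟩ := c
    cases rd <;> cases cb <;>
      simp [matS, matP, matB, matQ, Matrix.mul_diagonal, lnk, st, qs] <;>
      split_ifs with h1 h2 <;> (try rw [← h1]) <;> ring
  · intro n _ hn
    simp [matP, hn]
  · simp

theorem lnk_eq_iff {κ κ' : Bool × Bool × N} (h : lnk P κ = lnk P κ') (hne : κ ≠ κ') :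
    qs κ * qs κ' = -1 := by
  obtain ⟨d, e, n⟩ := κ
  obtain ⟨d', e', n'⟩ := κ'
  simp only [lnk, Prod.mk.injEq] at h
  obtain ⟨rfl, h⟩ := h
  by_cases he : e = e'
  · subst he
    exfalso
    apply hne
    cases e
    · simpa using h
    · have := (P d).injective (by simpa using h)
      rw [this]
  · cases d <;> cases e <;> cases e' <;> simp_all [qs]

/-- The key orthogonality relation. -/
theorem gramS (s : Bool × N → ℤˣ) :
    (matS P R s).transpose * matS P R s +
      matQ N R * ((matS P R s).transpose * matS P R s) * matQ N R = (2 : R) • 1 := by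
  have key : ∀ κ κ', ((matS P R s).transpose * matS P R s) κ κ' =
      if lnk P κ = lnk P κ' then ((st P s κ : ℤ) : R) * ((st P s κ' : ℤ) : R) else 0 := by
    intro κ κ'
    rw [Matrix.mul_apply]
    simp only [Matrix.transpose_apply, matS]
    rw [Finset.sum_eq_single (lnk P κ)]
    · simp
    · intro r _ hr
      simp [hr]
    · simp
  ext κ κ'
  rw [Matrix.add_apply, matQ, Matrix.mul_diagonal, Matrix.diagonal_mul, key, Matrix.smul_apply,
    Matrix.one_apply]
  by_cases hk : κ = κ'
  · subst hk
    have h1 : ((qs κ : ℤ) : R) * ((qs κ : ℤ) : R) = 1 := by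
      rw [← Int.cast_mul, qs_mul_self, Int.cast_one]
    have h2 : ((st P s κ : ℤ) : R) * ((st P s κ : ℤ) : R) = 1 := by
      rw [← Int.cast_mul, Int.units_coe_mul_self, Int.cast_one]
    simp only [if_true, h2, mul_one, h1, smul_eq_mul]
    norm_num
  · by_cases hl : lnk P κ = lnk P κ'
    · have h1 : ((qs κ : ℤ) : R) * ((qs κ' : ℤ) : R) = -1 := by
        rw [← Int.cast_mul, lnk_eq_iff P hl hk]; simp
      simp only [if_pos hl, if_neg hk, smul_zero]
      linear_combination (((st P s κ : ℤ) : R) * ((st P s κ' : ℤ) : R)) * h1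
    · simp [hl, hk]

/-- The squared norm of a node. -/
def nrm (X : Bool × N → R) (c : Bool × N) : R :=
  X (false, c.2) * X (false, c.2) + X (true, c.2) * X (true, c.2)

theorem gramP (X : Bool × N → R) :
    (matP X).transpose * matP X = Matrix.diagonal fun c => 2 * nrm X c := by
  ext c c'
  rw [Matrix.mul_apply, sum_conn, Matrix.diagonal_apply]
  obtain ⟨cb, cn⟩ := c
  obtain ⟨cb', cn'⟩ := c'
  rw [Finset.sum_eq_single cn]
  · by_cases h : cn = cn'
    · subst h
      cases cb <;> cases cb' <;> simp [matP, nrm, sg] <;> ring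
    · simp [matP, h]
  · intro n _ hn
    simp [matP, hn]
  · simp

theorem gramPQ (X : Bool × N → R) :
    (matP X).transpose * matQ N R * matP X = 0 := by
  ext c c'
  rw [Matrix.mul_apply, sum_conn]
  obtain ⟨cb, cn⟩ := c
  obtain ⟨cb', cn'⟩ := c'
  rw [Finset.sum_eq_single cn]
  · by_cases h : cn = cn'
    · subst h
      cases cb <;> cases cb' <;>
        simp [matP, matQ, Matrix.mul_diagonal, qs, sg] <;> ring
    · simp [matP, matQ, Matrix.mul_diagonal, h]
  · intro n _ hn
    simp [matP, matQ, Matrix.mul_diagonal, hn]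
  · simp

theorem matQ_transpose : (matQ N R).transpose = matQ N R := by
  rw [matQ, Matrix.diagonal_transpose]

theorem gram_diag (s : Bool × N → ℤˣ) (X : Bool × N → R) :
    (matA P s X).transpose * matA P s X + (matB P s X).transpose * matB P s X =
      Matrix.diagonal fun c => 4 * nrm X c := by
  have h := gramS P (R := R) s
  have hP := gramP X
  rw [← matS_mul_matP, ← matS_mul_matQ_mul_matP, Matrix.transpose_mul, Matrix.transpose_mul,
    Matrix.transpose_mul, matQ_transpose]
  have e : (matP X).transpose * (matS P R s).transpose * (matS P R s * matP X) +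
      (matP X).transpose * (matQ N R * (matS P R s).transpose) * (matS P R s * matQ N R * matP X) =
      (matP X).transpose * ((matS P R s).transpose * matS P R s +
        matQ N R * ((matS P R s).transpose * matS P R s) * matQ N R) * matP X := by
    simp only [Matrix.mul_add, Matrix.add_mul, Matrix.mul_assoc]
  rw [e, h, Matrix.mul_smul, Matrix.smul_mul, Matrix.mul_one, hP]
  ext c c'
  simp only [Matrix.smul_apply, Matrix.diagonal_apply, smul_eq_mul]
  split_ifs <;> ring

theorem gram_cross (s : Bool × N → ℤˣ) (X : Bool × N → R) :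
    (matA P s X).transpose * matB P s X + (matB P s X).transpose * matA P s X = 0 := by
  have h := gramS P (R := R) s
  have hP := gramPQ X
  have hQ := matQ_mul_self (N := N) (R := R)
  rw [← matS_mul_matP, ← matS_mul_matQ_mul_matP, Matrix.transpose_mul, Matrix.transpose_mul,
    Matrix.transpose_mul, matQ_transpose]
  have e : (matP X).transpose * (matS P R s).transpose * (matS P R s * matQ N R * matP X) +
      (matP X).transpose * (matQ N R * (matS P R s).transpose) * (matS P R s * matP X) =
      (matP X).transpose * ((matS P R s).transpose * matS P R s +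
        matQ N R * ((matS P R s).transpose * matS P R s) * matQ N R) * matQ N R * matP X := by
    simp only [Matrix.mul_add, Matrix.add_mul, Matrix.mul_assoc]
    rw [← Matrix.mul_assoc (matQ N R) (matQ N R), hQ, Matrix.one_mul]
  rw [e, h, Matrix.mul_smul, Matrix.smul_mul, Matrix.smul_mul, Matrix.mul_one, hP, smul_zero]

end Gram


section Sing

open Matrix

variable {N : Type} [Fintype N] [DecidableEq N] (P : Bool → Perm N) (t : N → ℤˣ) (m0 : N)
  {R : Type*} [CommRing R]

/-- The big orthogonal matrix. -/
def matG (s : Bool × N → ℤˣ) (X : Bool × N → R) :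
    Matrix ((Bool × N) ⊕ (Bool × N)) ((Bool × N) ⊕ (Bool × N)) R :=
  Matrix.fromBlocks (matA P s X) (matB P s X) (matB P s X) (matA P s X)

theorem det_G_mul (s : Bool × N → ℤˣ) (X : Bool × N → R) :
    (matG P s X).det * (matA P s X).det = (∏ c, (4 * nrm X c)) * (matA P s X).det := by
  have h1 : (matG P s X)ᵀ * Matrix.fromBlocks (matA P s X) 0 (matB P s X) 1 =
      Matrix.fromBlocks (Matrix.diagonal fun c => 4 * nrm X c) (matB P s X)ᵀ 0 (matA P s X)ᵀ := by
    rw [matG, Matrix.fromBlocks_transpose, Matrix.fromBlocks_multiply]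
    congr 1
    · exact gram_diag P s X
    · simp
    · have := gram_cross P s X
      rw [add_comm] at this
      exact this
    · simp
  have h2 := congrArg Matrix.det h1
  rw [Matrix.det_mul, Matrix.det_transpose, Matrix.det_fromBlocks_zero₁₂, Matrix.det_one, mul_one,
    Matrix.det_fromBlocks_zero₂₁, Matrix.det_diagonal, Matrix.det_transpose] at h2
  exact h2

theorem matA_s1 (X : Bool × N → R) (r : Bool × N) :
    matA P (s1 t m0) X r = if r = (false, m0) then matB P (s0 t) X r else matA P (s0 t) X r := by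
  funext c
  by_cases h : r = (false, m0)
  · subst h
    simp [matA, matB, s1]
  · simp [matA, s1, h]

theorem matB_s1 (X : Bool × N → R) (r : Bool × N) :
    matB P (s1 t m0) X r = if r = (false, m0) then matA P (s0 t) X r else matB P (s0 t) X r := by
  funext c
  by_cases h : r = (false, m0)
  · subst h
    simp [matA, matB, s1]
  · simp [matB, s1, h]

theorem matG_s1 (X : Bool × N → R) :
    matG P (s1 t m0) X = (matG P (s0 t) X).submatrix
      (Equiv.swap (Sum.inl (false, m0)) (Sum.inr (false, m0))) id := by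
  ext i j
  rw [Matrix.submatrix_apply, id]
  rcases i with i | i
  · by_cases h : i = (false, m0)
    · subst h
      rw [Equiv.swap_apply_left]
      rcases j with j | j
      · simp [matG, matA_s1]
      · simp [matG, matB_s1]
    · rw [Equiv.swap_apply_of_ne_of_ne (by simp [h]) (by simp)]
      rcases j with j | j
      · simp [matG, matA_s1, h]
      · simp [matG, matB_s1, h]
  · by_cases h : i = (false, m0)
    · subst h
      rw [Equiv.swap_apply_right]
      rcases j with j | j
      · simp [matG, matB_s1]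
      · simp [matG, matA_s1]
    · rw [Equiv.swap_apply_of_ne_of_ne (by simp) (by simp [h])]
      rcases j with j | j
      · simp [matG, matB_s1, h]
      · simp [matG, matA_s1, h]

theorem det_G_s1 (X : Bool × N → R) : (matG P (s1 t m0) X).det = - (matG P (s0 t) X).det := by
  rw [matG_s1, Matrix.det_permute, Equiv.Perm.sign_swap (by simp)]
  simp

/-- If the first matrix is nonsingular then the second is singular. -/
theorem det_A_s1_eq_zero [IsDomain R] (h2 : (2 : R) ≠ 0) (X : Bool × N → R)
    (hX : ∀ c, nrm X c ≠ 0) (h0 : (matA P (s0 t) X).det ≠ 0) : (matA P (s1 t m0) X).det = 0 := by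
  have e0 := det_G_mul P (s0 t) X
  have e1 := det_G_mul P (s1 t m0) X
  rw [det_G_s1] at e1
  have e0' : (matG P (s0 t) X).det = ∏ c, (4 * nrm X c) := mul_right_cancel₀ h0 e0
  rw [e0'] at e1
  have e3 : (2 : R) * (∏ c, (4 * nrm X c)) * (matA P (s1 t m0) X).det = 0 := by
    linear_combination -e1
  have h4 : (4 : R) ≠ 0 := by
    have : (4 : R) = 2 * 2 := by norm_num
    rw [this]; exact mul_ne_zero h2 h2
  have hD : (∏ c, (4 * nrm X c)) ≠ 0 := Finset.prod_ne_zero_iff.2 fun c _ =>
    mul_ne_zero h4 (hX c)
  rcases mul_eq_zero.1 e3 with h | h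
  · exact absurd h (mul_ne_zero h2 hD)
  · exact h

end Sing

section Nonsing

open Matrix

variable {N : Type} [Fintype N] [DecidableEq N] (P : Bool → Perm N) (t : N → ℤˣ)
  {R : Type*} [CommRing R]

/-- The test point. -/
def X0 (c : Bool × N) : R := if c.1 then 0 else 1

theorem mulVec_X0 (v : Bool × N → R) (d : Bool) (m : N) :
    (matA P (s0 t) (X0 (R := R)) *ᵥ v) (d, m) =
      v (false, m) + ((s0 t (d, m) : ℤ) : R) * v (true, (P d).symm m) := by
  rw [Matrix.mulVec, dotProduct, Fintype.sum_prod_type]
  simp only [Fintype.sum_bool]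
  rw [Finset.sum_eq_single ((P d).symm m), Finset.sum_eq_single m]
  · cases d <;> simp [matA, X0, sg, add_comm]
  · intro n _ hn
    simp [matA, X0, hn.symm]
  · simp
  · intro n _ hn
    have : ¬ m = P d n := fun h => hn (by rw [h]; simp)
    simp [matA, X0, this]
  · simp

theorem kernel_X0 (ht : ∀ v : N → ℤ,
      (∀ x, v x = (t (P false x) : ℤ) * v ((P true).symm (P false x))) → v = 0)
    (v : Bool × N → ℤ) (hv : matA P (s0 t) (X0 (R := ℤ)) *ᵥ v = 0) : v = 0 := by
  have h : ∀ d m, v (false, m) + ((s0 t (d, m) : ℤ)) * v (true, (P d).symm m) = 0 := by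
    intro d m
    have := mulVec_X0 P t v d m
    rw [hv] at this
    simpa using this.symm
  have hu : ∀ u : ℤˣ, ((u : ℤˣ) : ℤ) * ((u : ℤˣ) : ℤ) = 1 := Int.units_coe_mul_self
  have h0 : (fun x => v (true, x)) = 0 := by
    apply ht
    intro x
    have h1 := h false (P false x)
    have h2 := h true (P false x)
    simp only [s0, Bool.false_eq_true, if_false, if_true, Equiv.symm_apply_apply, Units.val_one,
      one_mul] at h1 h2
    have h3 := hu (t (P false x))
    linear_combination ((t (P false x) : ℤˣ) : ℤ) * h1 - ((t (P false x) : ℤˣ) : ℤ) * h2 -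
      v (true, x) * h3
  have ht' : ∀ n : N, v (true, n) = 0 := fun n => congrFun h0 n
  funext c
  obtain ⟨b, n⟩ := c
  cases b
  · have := h true n
    rw [ht', mul_zero, add_zero] at this
    exact this
  · exact ht' n

end Nonsing

section Double

open Matrix

variable {N : Type} [Fintype N] [DecidableEq N] (P : Bool → Perm N) (t : N → ℤˣ) (m0 : N)


/-- Differences of the doubled variables. -/
noncomputable def dX (c : Bool × N) : MvPolynomial (Ix N) ℤ :=
  MvPolynomial.X (c, 1) - MvPolynomial.X (c, -1)

/-- The sign independent part of the doubled matrix. -/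
noncomputable def eE (r c : Bool × N) : MvPolynomial (Ix N) ℤ :=
  ∑ x : Bool × N, MvPolynomial.C (if r.2 = c.2 ∧ c.2 = x.2 ∧ xor c.1 x.1 = r.1 then 1 else 0) *
    (MvPolynomial.X (x, 1) + MvPolynomial.X (x, -1))

theorem sum_units {A : Type*} [AddCommMonoid A] (f : ℤˣ → A) : ∑ t, f t = f 1 + f (-1) := by
  rw [show (Finset.univ : Finset ℤˣ) = {1, -1} from by decide]
  rw [Finset.sum_pair (by decide)]

theorem symMat_dbl (s : Bool × N → ℤˣ) (r c : Bool × N) (σ τ : ℤˣ) :
    symMat (dbl P s) (r, σ) (c, τ) =
      (((σ * τ : ℤˣ) : ℤ) : MvPolynomial (Ix N) ℤ) * matA P s dX r c + eE r c := by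
  rw [symMat, ← sum_base, eE, Finset.mul_sum, ← Finset.sum_add_distrib, Fintype.sum_prod_type]
  refine Finset.sum_congr rfl fun x _ => ?_
  rw [sum_units]
  simp only [dbl, dX, mul_one, mul_neg, Units.val_neg, map_add, map_mul, map_neg,
    neg_mul, Int.cast_mul, Units.val_mul]
  simp only [eq_intCast, Int.cast_ite, Int.cast_one, Int.cast_zero]
  ring

/-- Evaluation at the test point. -/
noncomputable def ev (N : Type) [Fintype N] [DecidableEq N] : MvPolynomial (Ix N) ℤ →+* ℤ :=
  MvPolynomial.eval fun i => if i.1.1 = false ∧ i.2 = 1 then 1 else 0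

theorem ev_dX (c : Bool × N) : ev N (dX c) = X0 c := by
  obtain ⟨b, n⟩ := c
  have h1 : ((-1 : ℤˣ) = 1) = False := by decide
  cases b <;> simp [ev, dX, X0, h1]

theorem map_matA {R S : Type*} [CommRing R] [CommRing S] (f : R →+* S) (s : Bool × N → ℤˣ)
    (X : Bool × N → R) : (matA P s X).map f = matA P s (fun c => f (X c)) := by
  ext r c
  simp only [Matrix.map_apply, matA, map_add, apply_ite f, map_zero, map_mul, map_intCast]

theorem ev_eE (r c : Bool × N) : ev N (eE r c) = if r = c then 1 else 0 := by
  have h1 : ((-1 : ℤˣ) = 1) = False := by decide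
  obtain ⟨rd, rn⟩ := r
  obtain ⟨cb, cn⟩ := c
  rw [eE, map_sum, Fintype.sum_prod_type, Fintype.sum_bool]
  simp only [map_mul, map_add, ev, MvPolynomial.eval_C, MvPolynomial.eval_X, h1, and_false,
    if_false, add_zero, Bool.true_eq_false, mul_zero, Finset.sum_const_zero, zero_add,
    and_true, if_true, mul_one]
  rw [Finset.sum_eq_single cn]
  · by_cases h : rn = cn
    · subst h
      cases rd <;> cases cb <;> simp
    · simp [h]
  · intro n _ hn
    simp [hn.symm]
  · simp

theorem det_s0_ne_zero (ht : ∀ v : N → ℤ,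
    (∀ x, v x = (t (P false x) : ℤ) * v ((P true).symm (P false x))) → v = 0) :
    (matA P (s0 t) (dX (N := N))).det ≠ 0 := by
  intro h
  have h1 := congrArg (ev N) h
  rw [map_zero, RingHom.map_det, RingHom.mapMatrix_apply, map_matA] at h1
  simp only [ev_dX] at h1
  obtain ⟨v, hv0, hv⟩ := Matrix.exists_mulVec_eq_zero_iff.2 h1
  exact hv0 (kernel_X0 P t ht v hv)

theorem nrm_dX_ne_zero (c : Bool × N) : nrm (dX (N := N)) c ≠ 0 := by
  intro h
  have h1 := congrArg (ev N) h
  rw [nrm, map_add, map_mul, map_mul, ev_dX, ev_dX, map_zero] at h1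
  simp [X0] at h1

theorem det_s1_eq_zero (ht : ∀ v : N → ℤ,
    (∀ x, v x = (t (P false x) : ℤ) * v ((P true).symm (P false x))) → v = 0) :
    (matA P (s1 t m0) (dX (N := N))).det = 0 :=
  det_A_s1_eq_zero P t m0 (by norm_num) _ nrm_dX_ne_zero (det_s0_ne_zero P t ht)

/-- The second doubled matrix is identically singular. -/
theorem det_dbl_s1 (ht : ∀ v : N → ℤ,
    (∀ x, v x = (t (P false x) : ℤ) * v ((P true).symm (P false x))) → v = 0) :
    (symMat (dbl P (s1 t m0))).det = 0 := by
  obtain ⟨w, hw0, hw⟩ := Matrix.exists_mulVec_eq_zero_iff.2 (det_s1_eq_zero P t m0 ht)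
  refine Matrix.exists_mulVec_eq_zero_iff.1
    ⟨fun c => ((c.2 : ℤ) : MvPolynomial (Ix N) ℤ) * w c.1, ?_, ?_⟩
  · intro h
    apply hw0
    funext c
    have := congrFun h (c, 1)
    simpa using this
  · funext r
    obtain ⟨r, σ⟩ := r
    rw [Matrix.mulVec, dotProduct, Fintype.sum_prod_type]
    simp only [sum_units, symMat_dbl]
    have h1 := congrFun hw r
    rw [Matrix.mulVec, dotProduct] at h1
    have h2 : ∀ c : Bool × N,
        ((((σ * 1 : ℤˣ) : ℤ) : MvPolynomial (Ix N) ℤ) * matA P (s1 t m0) dX r c + eE r c) *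
          ((((1 : ℤˣ) : ℤ) : MvPolynomial (Ix N) ℤ) * w c) +
        ((((σ * -1 : ℤˣ) : ℤ) : MvPolynomial (Ix N) ℤ) * matA P (s1 t m0) dX r c + eE r c) *
          ((((-1 : ℤˣ) : ℤ) : MvPolynomial (Ix N) ℤ) * w c) =
        2 * ((σ : ℤ) : MvPolynomial (Ix N) ℤ) * (matA P (s1 t m0) dX r c * w c) := by
      intro c
      simp only [mul_one, mul_neg, Units.val_neg, Units.val_one, Int.cast_neg, Int.cast_one]
      ring
    simp only [h2]
    rw [← Finset.mul_sum, h1]
    simp

/-- The first doubled matrix is not identically singular. -/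
theorem det_dbl_s0 (ht : ∀ v : N → ℤ,
    (∀ x, v x = (t (P false x) : ℤ) * v ((P true).symm (P false x))) → v = 0) :
    (symMat (dbl P (s0 t))).det ≠ 0 := by
  intro h
  have h1 := congrArg (ev N) h
  rw [map_zero, RingHom.map_det, RingHom.mapMatrix_apply] at h1
  obtain ⟨v, hv0, hv⟩ := Matrix.exists_mulVec_eq_zero_iff.2 h1
  have key : ∀ r σ, ∑ c : Bool × N,
      ((((σ : ℤˣ) : ℤ) * matA P (s0 t) X0 r c + (if r = c then 1 else 0)) * v (c, 1) +
       (- ((σ : ℤˣ) : ℤ) * matA P (s0 t) X0 r c + (if r = c then 1 else 0)) * v (c, -1)) = 0 := by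
    intro r σ
    have h2 := congrFun hv (r, σ)
    rw [Matrix.mulVec, dotProduct, Fintype.sum_prod_type] at h2
    simp only [sum_units, Matrix.map_apply, symMat_dbl, map_add, map_mul, map_intCast, ev_eE] at h2
    have h3 : ∀ c, ev N (matA P (s0 t) dX r c) = matA P (s0 t) X0 r c := by
      intro c
      have := congrFun (congrFun (map_matA P (ev N) (s0 t) (dX (N := N))) r) c
      simp only [Matrix.map_apply, ev_dX] at this
      exact this
    simp only [h3] at h2
    simpa using h2
  have hd : matA P (s0 t) X0 *ᵥ (fun c => v (c, 1) - v (c, -1)) = 0 := by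
    funext r
    have k1 := key r 1
    have k2 := key r (-1)
    rw [Matrix.mulVec, dotProduct]
    have : 2 * ∑ c, matA P (s0 t) X0 r c * (v (c, 1) - v (c, -1)) = 0 := by
      have e := congrArg₂ (fun a b : ℤ => a - b) k1 k2
      simp only [← Finset.sum_sub_distrib, sub_zero] at e
      rw [Finset.mul_sum, ← e]
      refine Finset.sum_congr rfl fun c _ => ?_
      simp only [Units.val_neg, Units.val_one]
      ring
    simpa using this
  have hd0 := kernel_X0 P t ht _ hd
  have hs : ∀ r, v (r, 1) + v (r, -1) = 0 := by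
    intro r
    have k1 := key r 1
    have k2 := key r (-1)
    have : 2 * (v (r, 1) + v (r, -1)) = 0 := by
      have e : ∑ c : Bool × N, 2 * (if r = c then (v (c, 1) + v (c, -1)) else 0) = 0 := by
        have e := congrArg₂ (fun a b : ℤ => a + b) k1 k2
        simp only [← Finset.sum_add_distrib, add_zero] at e
        refine Eq.trans (Finset.sum_congr rfl fun c _ => ?_) e
        simp only [Units.val_neg, Units.val_one]
        split_ifs <;> ring
      rw [← Finset.mul_sum, Finset.sum_ite_eq] at e
      simpa using e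
    omega
  apply hv0
  funext c
  obtain ⟨c, τ⟩ := c
  have e1 := congrFun hd0 c
  have e2 := hs c
  simp only [Pi.zero_apply] at e1
  rcases Int.units_eq_one_or τ with rfl | rfl
  · simp only [Pi.zero_apply]; omega
  · simp only [Pi.zero_apply]; omega

end Double

theorem stDet : StDet := by
  intro N _ _ P t ht
  exact ⟨det_dbl_s0 P t ht, fun m0 => det_dbl_s1 P t m0 ht⟩

end Pool.Agent.Lib.MP_64d474_lc.Circ
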