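import Pool.Agent.Lib.MP_64d474_lc.Circ.Spec2

/-!
Few sets have few exits under the rotation.
-/

namespace Pool.Agent.Lib.MP_64d474_lc.Circ

open Equiv

theorem stExpA : StExpA := by
  intro n k
  classical
  rcases n with _ | n
  · have h1 : ((Finset.univ : Finset (Finset (Fin 0))).filter fun W =>
        (W.filter fun x => finRotate 0 x ∉ W).card ≤ 2 * k).card ≤ 1 := by
      refine le_trans (Finset.card_filter_le _ _) ?_
      simp
    have h2 : 1 ≤ vol 0 (4 * k) := by
      unfold vol
      rw [Nat.succ_le_iff, Finset.card_pos]
      exact ⟨∅, Finset.mem_filter.2 ⟨Finset.mem_univ _, by simp⟩⟩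
    omega
  · have hD : ∀ W : Finset (Fin (n + 1)),
        (Finset.univ.filter fun x => ¬ (x ∈ W ↔ finRotate (n + 1) x ∈ W)).card =
          2 * (W.filter fun x => finRotate (n + 1) x ∉ W).card := by
      intro W
      have a1 : (Finset.univ.filter fun x => ¬ (x ∈ W ↔ finRotate (n + 1) x ∈ W)) =
          (W.filter fun x => finRotate (n + 1) x ∉ W) ∪
            ((Finset.univ.filter fun x => finRotate (n + 1) x ∈ W).filter fun x => x ∉ W) := by
        ext x
        simp only [Finset.mem_filter, Finset.mem_univ, true_and, Finset.mem_union]
        tauto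
      have a2 : Disjoint (W.filter fun x => finRotate (n + 1) x ∉ W)
          ((Finset.univ.filter fun x => finRotate (n + 1) x ∈ W).filter fun x => x ∉ W) := by
        rw [Finset.disjoint_left]
        intro x hx hx2
        simp only [Finset.mem_filter, Finset.mem_univ, true_and] at hx hx2
        exact hx2.2 hx.1
      rw [a1, Finset.card_union_of_disjoint a2]
      have b1 : (Finset.univ.filter fun x => finRotate (n + 1) x ∈ W).card = W.card := by
        have : (Finset.univ.filter fun x => finRotate (n + 1) x ∈ W) =
            W.map (finRotate (n + 1)).symm.toEmbedding := by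
          ext x
          simp only [Finset.mem_filter, Finset.mem_univ, true_and, Finset.mem_map,
            Equiv.coe_toEmbedding]
          constructor
          · intro hx
            exact ⟨_, hx, by simp⟩
          · rintro ⟨y, hy, rfl⟩
            simpa using hy
        rw [this, Finset.card_map]
      have b2 := Finset.card_filter_add_card_filter_not (s := W)
        (p := fun x => finRotate (n + 1) x ∈ W)
      have b3 := Finset.card_filter_add_card_filter_not
        (s := Finset.univ.filter fun x => finRotate (n + 1) x ∈ W) (p := fun x => x ∈ W)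
      have b4 : ((Finset.univ.filter fun x => finRotate (n + 1) x ∈ W).filter fun x => x ∈ W) =
          W.filter fun x => finRotate (n + 1) x ∈ W := by
        ext x
        simp only [Finset.mem_filter, Finset.mem_univ, true_and]
        tauto
      rw [b4] at b3
      omega
    have key := Finset.card_le_card_of_injOn
      (s := (Finset.univ : Finset (Finset (Fin (n + 1)))).filter fun W =>
        (W.filter fun x => finRotate (n + 1) x ∉ W).card ≤ 2 * k)
      (t := (Finset.univ : Finset Bool) ×ˢ
        ((Finset.univ : Finset (Finset (Fin (n + 1)))).filter fun B => B.card ≤ 4 * k))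
      (fun W => (decide ((0 : Fin (n + 1)) ∈ W),
        Finset.univ.filter fun x => ¬ (x ∈ W ↔ finRotate (n + 1) x ∈ W))) ?_ ?_
    · rw [Finset.card_product] at key
      simpa [vol] using key
    · intro W hW
      rw [Finset.mem_coe, Finset.mem_filter] at hW
      rw [Finset.mem_coe, Finset.mem_product]
      refine ⟨Finset.mem_univ _, ?_⟩
      rw [Finset.mem_filter]
      refine ⟨Finset.mem_univ _, ?_⟩
      have := hD W
      have h2 := hW.2
      show (Finset.univ.filter fun x => ¬ (x ∈ W ↔ finRotate (n + 1) x ∈ W)).card ≤ 4 * k
      omega
    · intro W _ W' _ h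
      simp only [Prod.mk.injEq, decide_eq_decide] at h
      obtain ⟨h0, h1⟩ := h
      have h2 : ∀ x : Fin (n + 1), (x ∈ W ↔ finRotate (n + 1) x ∈ W) ↔
          (x ∈ W' ↔ finRotate (n + 1) x ∈ W') := by
        intro x
        have := Finset.ext_iff.1 h1 x
        simp only [Finset.mem_filter, Finset.mem_univ, true_and] at this
        tauto
      have h3 : ∀ m : ℕ, ∀ hm : m < n + 1, ((⟨m, hm⟩ : Fin (n + 1)) ∈ W ↔
          (⟨m, hm⟩ : Fin (n + 1)) ∈ W') := by
        intro m
        induction m with
        | zero =>
          intro hm
          exact h0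
        | succ m ih =>
          intro hm
          have hm' : m < n + 1 := by omega
          have i1 := ih hm'
          have i2 := h2 ⟨m, hm'⟩
          have e : finRotate (n + 1) ⟨m, hm'⟩ = ⟨m + 1, hm⟩ := by
            apply finRotate_of_lt
            omega
          rw [e] at i2
          tauto
      ext x
      exact h3 x.1 x.2

end Pool.Agent.Lib.MP_64d474_lc.Circ
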