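import Pool.Agent.Lib.MP_64d474_lc.Circ.Spec2

/-!
A given set has few exits only under few permutations.
-/

namespace Pool.Agent.Lib.MP_64d474_lc.Circ

open Equiv

theorem expB_stab (n : ℕ) (W : Finset (Fin n)) :
    ((Finset.univ : Finset (Perm (Fin n))).filter fun g => W.map g.toEmbedding = W).card ≤
      W.card.factorial * (n - W.card).factorial := by
  classical
  have h := DomMulAct.stabilizer_card (f := fun x : Fin n => decide (x ∈ W))
  rw [Fintype.prod_bool] at h
  have h1 : Fintype.card {a : Fin n // decide (a ∈ W) = true} = W.card := by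
    rw [Fintype.card_subtype]
    congr 1
    ext x
    simp
  have h2 : Fintype.card {a : Fin n // decide (a ∈ W) = false} = n - W.card := by
    rw [Fintype.card_subtype]
    have : (Finset.univ.filter fun a : Fin n => decide (a ∈ W) = false) = Wᶜ := by
      ext x
      simp
    rw [this, Finset.card_compl, Fintype.card_fin]
  rw [h1, h2] at h
  rw [← h, Fintype.card_subtype]
  apply Finset.card_le_card
  intro g hg
  rw [Finset.mem_filter] at hg ⊢
  refine ⟨Finset.mem_univ _, ?_⟩
  funext x
  simp only [Function.comp]
  congr 1
  apply propext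
  constructor
  · intro hx
    have : g x ∈ W.map g.toEmbedding := by rw [hg.2]; exact hx
    simpa using this
  · intro hx
    rw [← hg.2]
    simpa using hx

theorem expB_fibre (n : ℕ) (W U : Finset (Fin n)) :
    ((Finset.univ : Finset (Perm (Fin n))).filter fun g => W.map g.toEmbedding = U).card ≤
      W.card.factorial * (n - W.card).factorial := by
  classical
  by_cases h : ∃ g : Perm (Fin n), W.map g.toEmbedding = U
  · obtain ⟨g0, hg0⟩ := h
    refine le_trans (Finset.card_le_card_of_injOn (fun g => g0⁻¹ * g) ?_ ?_) (expB_stab n W)
    · intro g hg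
      rw [Finset.mem_coe, Finset.mem_filter] at hg ⊢
      refine ⟨Finset.mem_univ _, ?_⟩
      ext x
      simp only [Finset.mem_map, Equiv.coe_toEmbedding, Perm.coe_mul, Function.comp_apply]
      constructor
      · rintro ⟨y, hy, rfl⟩
        have : g y ∈ W.map g0.toEmbedding := by
          rw [hg0, ← hg.2]
          simpa using hy
        rw [Finset.mem_map] at this
        obtain ⟨z, hz, hz2⟩ := this
        have e : g0⁻¹ (g y) = z := by
          rw [← hz2]
          simp
        rw [e]
        exact hz
      · intro hx
        have : g0 x ∈ W.map g.toEmbedding := by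
          rw [hg.2, ← hg0]
          simpa using hx
        rw [Finset.mem_map] at this
        obtain ⟨z, hz, hz2⟩ := this
        refine ⟨z, hz, ?_⟩
        have e : g z = g0 x := hz2
        rw [e]
        simp
    · intro a _ b _ hab
      exact mul_left_cancel hab
  · rw [Finset.card_eq_zero.2]
    · exact Nat.zero_le _
    · rw [Finset.filter_eq_empty_iff]
      intro g _ hg
      exact h ⟨g, hg⟩

theorem stExpB : StExpB := by
  intro n k W
  classical
  have key := Finset.card_le_mul_card_image_of_maps_to
    (s := (Finset.univ : Finset (Perm (Fin n))).filter fun P =>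
      (W.filter fun x => P x ∉ W).card ≤ 2 * k)
    (t := (Finset.univ : Finset (Finset (Fin n))).filter fun B => B.card ≤ 4 * k)
    (f := fun P => symmDiff (W.map P.toEmbedding) W) ?_
    (W.card.factorial * (n - W.card).factorial) ?_
  · unfold vol
    exact key.trans (le_of_eq (mul_comm _ _))
  · intro P hP
    rw [Finset.mem_filter] at hP ⊢
    refine ⟨Finset.mem_univ _, ?_⟩
    have e1 : (W.map P.toEmbedding \ W).card = (W.filter fun x => P x ∉ W).card := by
      have : W.map P.toEmbedding \ W = (W.filter fun x => P x ∉ W).map P.toEmbedding := by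
        ext x
        simp only [Finset.mem_sdiff, Finset.mem_map, Finset.mem_filter, Equiv.coe_toEmbedding]
        constructor
        · rintro ⟨⟨y, hy, rfl⟩, hx⟩
          exact ⟨y, ⟨hy, hx⟩, rfl⟩
        · rintro ⟨y, ⟨hy, hx⟩, rfl⟩
          exact ⟨⟨y, hy, rfl⟩, hx⟩
      rw [this, Finset.card_map]
    have e2 : (W \ W.map P.toEmbedding).card = (W.map P.toEmbedding \ W).card := by
      have a1 := Finset.card_sdiff_add_card_inter W (W.map P.toEmbedding)
      have a2 := Finset.card_sdiff_add_card_inter (W.map P.toEmbedding) W
      rw [Finset.inter_comm (W.map P.toEmbedding) W, Finset.card_map] at a2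
      omega
    have e3 : (symmDiff (W.map P.toEmbedding) W).card =
        (W.map P.toEmbedding \ W).card + (W \ W.map P.toEmbedding).card := by
      rw [symmDiff_def, Finset.sup_eq_union, Finset.card_union_of_disjoint]
      exact disjoint_sdiff_sdiff
    have := hP.2
    show (symmDiff (W.map P.toEmbedding) W).card ≤ 4 * k
    omega
  · intro B _
    refine le_trans (Finset.card_le_card ?_) (expB_fibre n W (symmDiff B W))
    intro P hP
    rw [Finset.mem_filter] at hP ⊢
    refine ⟨Finset.mem_univ _, ?_⟩
    rw [← hP.2]
    simp

end Pool.Agent.Lib.MP_64d474_lc.Circ
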