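import Pool.Agent.Lib.MP_64d474_lc.Circ.Spec2

/-!
Module ExpC: the numerical estimate `2 * vol (128 k) (4 k) ^ 2 < C(128 k, w)` for `32 k ≤ w ≤ 64 k`.
-/

namespace Pool.Agent.Lib.MP_64d474_lc.Circ

theorem vol_mul_le (n t : ℕ) : vol n t * 31 ^ (n - t) ≤ 32 ^ n := by
  have h := Finset.sum_pow_mul_eq_add_pow (1 : ℕ) 31 (Finset.univ : Finset (Fin n))
  simp only [one_pow, one_mul, Finset.card_univ, Fintype.card_fin] at h
  have h32 : (1 + 31 : ℕ) = 32 := by norm_num
  rw [h32, Finset.powerset_univ] at h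
  rw [← h, vol, ← smul_eq_mul]
  calc ((Finset.univ : Finset (Finset (Fin n))).filter fun B => B.card ≤ t).card • 31 ^ (n - t)
      ≤ ∑ B ∈ (Finset.univ : Finset (Finset (Fin n))).filter (fun B => B.card ≤ t),
          31 ^ (n - B.card) := by
        apply Finset.card_nsmul_le_sum
        intro B hB
        have hB' : B.card ≤ t := (Finset.mem_filter.mp hB).2
        exact Nat.pow_le_pow_right (by norm_num) (by omega)
    _ ≤ ∑ B : Finset (Fin n), 31 ^ (n - B.card) :=
        Finset.sum_le_sum_of_subset (Finset.filter_subset _ _)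

theorem vol_le (t : ℕ) : vol (32 * t) t ≤ 87 ^ t := by
  have h := vol_mul_le (32 * t) t
  have h1 : 32 * t - t = 31 * t := by omega
  rw [h1, pow_mul, pow_mul] at h
  have h2 : (32 ^ 32 : ℕ) ≤ 87 * 31 ^ 31 := by norm_num
  have h3 : (32 ^ 32 : ℕ) ^ t ≤ 87 ^ t * (31 ^ 31) ^ t := by
    rw [← mul_pow]
    exact Nat.pow_le_pow_left h2 t
  exact Nat.le_of_mul_le_mul_right (h.trans h3) (by positivity)

theorem four_pow_le_choose (m : ℕ) : 4 ^ m ≤ (4 * m).choose m := by
  induction m with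
  | zero => simp
  | succ m ih =>
    have h1 := Nat.add_one_mul_choose_eq (4 * m + 3) m
    have h2 : (4 * m).choose m ≤ (4 * m + 3).choose m := Nat.choose_le_choose m (by omega)
    have h3 : (4 * (m + 1)).choose (m + 1) = 4 * (4 * m + 3).choose m := by
      have h4 : 4 * m + 3 + 1 = 4 * (m + 1) := by omega
      rw [h4] at h1
      have h5 : (m + 1) * (4 * (m + 1)).choose (m + 1) = (m + 1) * (4 * (4 * m + 3).choose m) := by
        rw [Nat.mul_comm (m + 1) ((4 * (m + 1)).choose (m + 1)), ← h1]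
        ring
      exact Nat.eq_of_mul_eq_mul_left (Nat.succ_pos m) h5
    rw [h3, pow_succ]
    omega

theorem choose_le_choose_half (n r : ℕ) : ∀ w, r ≤ w → w ≤ n / 2 → n.choose r ≤ n.choose w := by
  intro w hw
  induction w, hw using Nat.le_induction with
  | base => intro _; exact le_rfl
  | succ w _ ih =>
    intro h
    exact (ih (by omega)).trans (Nat.choose_le_succ_of_lt_half_left (by omega))

theorem stExpC : StExpC := by
  intro k w hk h1 h2
  have hv : vol (128 * k) (4 * k) ≤ 87 ^ (4 * k) := by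
    have h := vol_le (4 * k)
    have e : 32 * (4 * k) = 128 * k := by ring
    rwa [e] at h
  have hc : 4 ^ (32 * k) ≤ (128 * k).choose w := by
    have h := four_pow_le_choose (32 * k)
    have e : 4 * (32 * k) = 128 * k := by ring
    rw [e] at h
    exact h.trans (choose_le_choose_half (128 * k) (32 * k) w h1 (by omega))
  have hx : 2 * (87 ^ (4 * k)) ^ 2 < 4 ^ (32 * k) := by
    have e1 : (87 ^ (4 * k)) ^ 2 = (87 ^ 8) ^ k := by
      rw [← pow_mul, ← pow_mul]
      congr 1
      ring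
    have e2 : (4 : ℕ) ^ (32 * k) = (4 ^ 32) ^ k := by rw [pow_mul]
    rw [e1, e2]
    calc 2 * (87 ^ 8) ^ k ≤ 2 ^ k * (87 ^ 8) ^ k := by
          apply Nat.mul_le_mul_right
          calc 2 = 2 ^ 1 := by norm_num
            _ ≤ 2 ^ k := Nat.pow_le_pow_right (by norm_num) hk
      _ = (2 * 87 ^ 8) ^ k := by rw [mul_pow]
      _ < (4 ^ 32) ^ k := Nat.pow_lt_pow_left (by norm_num) (by omega)
  calc 2 * vol (128 * k) (4 * k) ^ 2 ≤ 2 * (87 ^ (4 * k)) ^ 2 :=
        Nat.mul_le_mul_left _ (Nat.pow_le_pow_left hv 2)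
    _ < 4 ^ (32 * k) := hx
    _ ≤ (128 * k).choose w := hc

end Pool.Agent.Lib.MP_64d474_lc.Circ
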