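import Pool.Agent.Lib.MP_64d474_lc.Circ.Spec2

/-!
MP_64d474_lc, module Expander: the union bound.
-/

namespace Pool.Agent.Lib.MP_64d474_lc.Circ

open Equiv

theorem vol_pos (n t : ℕ) : 0 < vol n t := by
  unfold vol
  exact Finset.card_pos.2 ⟨∅, by simp⟩

theorem stExpander (hA : StExpA) (hB : StExpB) (hC : StExpC) : StExpander := by
  intro k hk
  classical
  set n := 128 * k with hn
  set V := vol n (4 * k) with hV
  have hVpos : 0 < V := vol_pos _ _
  let WW : Finset (Finset (Fin n)) := Finset.univ.filter fun W =>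
    (W.filter fun x => finRotate n x ∉ W).card ≤ 2 * k ∧ n ≤ 4 * W.card ∧ 2 * W.card ≤ n
  let B : Finset (Fin n) → Finset (Perm (Fin n)) := fun W => Finset.univ.filter fun P =>
    (W.filter fun x => P x ∉ W).card ≤ 2 * k
  have hWW : WW.card ≤ 2 * V := by
    refine le_trans (Finset.card_le_card fun W hW => ?_) (hA n k)
    exact Finset.mem_filter.2 ⟨Finset.mem_univ _, (Finset.mem_filter.1 hW).2.1⟩
  have hBW : ∀ W ∈ WW, 2 * V * (B W).card < n.factorial := by
    intro W hW
    obtain ⟨-, -, h1, h2⟩ := Finset.mem_filter.1 hW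
    have h3 : (B W).card ≤ V * (W.card.factorial * (n - W.card).factorial) := hB n k W
    have h4 : 2 * V ^ 2 < n.choose W.card := hC k W.card hk (by omega) (by omega)
    have h5 : n.choose W.card * (W.card.factorial * (n - W.card).factorial) = n.factorial := by
      rw [← mul_assoc]
      exact Nat.choose_mul_factorial_mul_factorial (by omega)
    have h6 : 0 < W.card.factorial * (n - W.card).factorial :=
      Nat.mul_pos (Nat.factorial_pos _) (Nat.factorial_pos _)
    calc 2 * V * (B W).card
        ≤ 2 * V * (V * (W.card.factorial * (n - W.card).factorial)) := Nat.mul_le_mul_left _ h3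
      _ = (2 * V ^ 2) * (W.card.factorial * (n - W.card).factorial) := by ring
      _ < n.choose W.card * (W.card.factorial * (n - W.card).factorial) :=
          Nat.mul_lt_mul_of_pos_right h4 h6
      _ = n.factorial := h5
  by_contra hcon
  push Not at hcon
  have hcov : (Finset.univ : Finset (Perm (Fin n))) ⊆ WW.biUnion B := by
    intro P _
    have h := hcon (fun d => if d then finRotate n else P)
    unfold Expands at h
    push Not at h
    obtain ⟨W, h1, h2, h3⟩ := h
    rw [Fintype.card_fin] at h1 h2
    have h4 : (W.filter fun x => P x ∉ W).card ≤ 2 * k :=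
      le_trans (Nat.le_add_right _ _) h3
    have h5 : (W.filter fun x => finRotate n x ∉ W).card ≤ 2 * k :=
      le_trans (Nat.le_add_left _ _) h3
    exact Finset.mem_biUnion.2 ⟨W, Finset.mem_filter.2 ⟨Finset.mem_univ _, h5, h1, h2⟩,
      Finset.mem_filter.2 ⟨Finset.mem_univ _, h4⟩⟩
  have hcard : n.factorial ≤ ∑ W ∈ WW, (B W).card := by
    have h := Finset.card_le_card hcov
    rw [Finset.card_univ, Fintype.card_perm, Fintype.card_fin] at h
    exact le_trans h Finset.card_biUnion_le
  have h6 : 2 * V * n.factorial ≤ ∑ W ∈ WW, 2 * V * (B W).card := by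
    rw [← Finset.mul_sum]
    exact Nat.mul_le_mul_left _ hcard
  rcases WW.eq_empty_or_nonempty with h0 | h0
  · rw [h0, Finset.sum_empty] at h6
    have h7 : 0 < 2 * V * n.factorial :=
      Nat.mul_pos (Nat.mul_pos two_pos hVpos) (Nat.factorial_pos _)
    omega
  · have h7 : ∑ W ∈ WW, 2 * V * (B W).card < ∑ W ∈ WW, n.factorial :=
      Finset.sum_lt_sum_of_nonempty h0 hBW
    rw [Finset.sum_const, smul_eq_mul] at h7
    have h8 : WW.card * n.factorial ≤ 2 * V * n.factorial := Nat.mul_le_mul_right _ hWW
    omega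

end Pool.Agent.Lib.MP_64d474_lc.Circ
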