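import Pool.Agent.Lib.MP_64d474_lc.Circ.Spec

/-!
MP_64d474_lc, symmetric circuits: supports of gates.
-/

namespace Pool.Agent.Lib.MP_64d474_lc.Circ

open Equiv

section Val

variable {n : ℕ} {V : Type} (C : Circuit n V)

theorem val_of_input {a : Fin n → Fin n → Fin n → ℤ} {g : C.G} {i j l : Fin n} {f : ℤ → V}
    (hg : C.gate g = .input i j l f) : C.val a g = f (a i j l) := by
  rw [Circuit.val]
  split
  · rename_i i' j' l' f' h'
    rw [hg] at h'
    cases h'
    rfl
  · rename_i op ch h'
    rw [hg] at h'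
    cases h'

theorem val_of_inner {a : Fin n → Fin n → Fin n → ℤ} {g : C.G} {op : Multiset V → V}
    {ch : Multiset C.G} (hg : C.gate g = .inner op ch) : C.val a g = op (ch.map (C.val a)) := by
  rw [Circuit.val]
  split
  · rename_i i' j' l' f' h'
    rw [hg] at h'
    cases h'
  · rename_i op' ch' h'
    rw [hg] at h'
    cases h'
    congr 1
    exact Multiset.attach_map_val' ch (C.val a)

theorem gate_induction (P : C.G → Prop)
    (h : ∀ g, (∀ op ch, C.gate g = .inner op ch → ∀ h ∈ ch, P h) → P g) (g : C.G) : P g := by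
  have key : ∀ m : ℕ, ∀ g, C.rk g = m → P g := by
    intro m
    induction m using Nat.strong_induction_on with
    | _ m ih =>
      intro g hg
      refine h g fun op ch hc x hx => ?_
      exact ih (C.rk x) (hg ▸ C.acyclic g op ch hc x hx) x rfl
  exact key _ g rfl

theorem val_aut {σ : Perm (Fin n)} {τ : Perm C.G} (h : C.IsAut σ τ)
    (a : Fin n → Fin n → Fin n → ℤ) (g : C.G) : C.val a (τ g) = C.val (pull σ a) g := by
  induction g using gate_induction C with
  | h g ih =>
    have hτ := h.2 g
    cases hg : C.gate g with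
    | input i j l f =>
      rw [hg] at hτ
      rw [val_of_input C hg, val_of_input C hτ]
      rfl
    | inner op ch =>
      rw [hg] at hτ
      rw [val_of_inner C hg, val_of_inner C hτ, Multiset.map_map]
      congr 1
      refine Multiset.map_congr rfl fun x hx => ?_
      exact ih op ch hg x hx

end Val

section Act

variable {n : ℕ} {V : Type}

/-- Action of permutations on functions of the coefficients. -/
def act (σ : Perm (Fin n)) (φ : (Fin n → Fin n → Fin n → ℤ) → V) :
    (Fin n → Fin n → Fin n → ℤ) → V := fun a => φ (pull σ a)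

theorem act_mul (σ ρ : Perm (Fin n)) (φ : (Fin n → Fin n → Fin n → ℤ) → V) :
    act (σ * ρ) φ = act σ (act ρ φ) := rfl

theorem act_one (φ : (Fin n → Fin n → Fin n → ℤ) → V) : act 1 φ = φ := rfl

theorem act_inv_act (σ : Perm (Fin n)) (φ : (Fin n → Fin n → Fin n → ℤ) → V) :
    act σ⁻¹ (act σ φ) = φ := by
  rw [← act_mul, inv_mul_cancel, act_one]

theorem act_act_inv (σ : Perm (Fin n)) (φ : (Fin n → Fin n → Fin n → ℤ) → V) :
    act σ (act σ⁻¹ φ) = φ := by
  rw [← act_mul, mul_inv_cancel, act_one]

theorem act_injective (σ : Perm (Fin n)) :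
    Function.Injective (act σ : ((Fin n → Fin n → Fin n → ℤ) → V) → _) := by
  intro φ ψ h
  rw [← act_inv_act σ φ, h, act_inv_act]

/-- Stabiliser of a multiset of functions. -/
def stab (M : Multiset ((Fin n → Fin n → Fin n → ℤ) → V)) : Subgroup (Perm (Fin n)) where
  carrier := {σ | M.map (act σ) = M}
  mul_mem' := by
    intro σ ρ hσ hρ
    simp only [Set.mem_ofPred_eq] at hσ hρ ⊢
    have : M.map (act (σ * ρ)) = (M.map (act ρ)).map (act σ) := by
      rw [Multiset.map_map]; rfl
    rw [this, hρ, hσ]
  one_mem' := by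
    simp only [Set.mem_ofPred_eq]
    exact Multiset.map_id' M
  inv_mem' := by
    intro σ hσ
    simp only [Set.mem_ofPred_eq] at hσ ⊢
    conv_lhs => rw [← hσ]
    rw [Multiset.map_map]
    conv_rhs => rw [← Multiset.map_id M]
    refine Multiset.map_congr rfl fun x _ => ?_
    exact act_inv_act σ x

theorem mem_stab {M : Multiset ((Fin n → Fin n → Fin n → ℤ) → V)} {σ : Perm (Fin n)} :
    σ ∈ stab M ↔ M.map (act σ) = M := Iff.rfl

/-- From even permutations to all permutations. -/
theorem stab_of_even (M : Multiset ((Fin n → Fin n → Fin n → ℤ) → V)) (D : Finset (Fin n)) (q : ℕ)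
    (hq : 1 ≤ q) (hn : 12 * q ≤ n) (hD : D.card < q)
    (hev : ∀ σ : Perm (Fin n), Perm.sign σ = 1 → (∀ x ∈ D, σ x = x) → σ ∈ stab M)
    (hM : ∀ ψ ∈ M, ∃ E : Finset (Fin n), E.card ≤ q + 2 ∧
      ∀ σ : Perm (Fin n), (∀ x ∈ E, σ x = x) → act σ ψ = ψ) :
    ∀ σ : Perm (Fin n), (∀ x ∈ D, σ x = x) → σ ∈ stab M := by
  classical
  intro σ hσ
  rcases Int.units_eq_one_or (Perm.sign σ) with hs | hs
  · exact hev σ hs hσ
  · -- odd permutations
    have key : ∀ ρ : Perm (Fin n), (∀ x ∈ D, ρ x = x) → Perm.sign ρ = -1 → ∀ ψ ∈ M,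
        M.count ψ = M.count (act ρ ψ) := by
      intro ρ hρ hsρ ψ hψ
      obtain ⟨E, hE, hfix⟩ := hM ψ hψ
      have hcard : (D ∪ E).card + 2 ≤ Fintype.card (Fin n) := by
        have := Finset.card_union_le D E
        rw [Fintype.card_fin]
        omega
      have h2 : 1 < ((D ∪ E)ᶜ : Finset (Fin n)).card := by
        rw [Finset.card_compl]
        omega
      obtain ⟨x, hx, y, hy, hxy⟩ := Finset.one_lt_card.1 h2
      simp only [Finset.mem_compl, Finset.mem_union, not_or] at hx hy
      have hτ : act (swap x y) ψ = ψ := by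
        refine hfix _ fun z hz => swap_apply_of_ne_of_ne ?_ ?_
        · rintro rfl; exact hx.2 hz
        · rintro rfl; exact hy.2 hz
      have hmem : ρ * swap x y ∈ stab M := by
        refine hev _ ?_ ?_
        · rw [Perm.sign_mul, hsρ, Perm.sign_swap hxy]; rfl
        · intro z hz
          have : swap x y z = z := by
            refine swap_apply_of_ne_of_ne ?_ ?_
            · rintro rfl; exact hx.1 hz
            · rintro rfl; exact hy.1 hz
          rw [Perm.mul_apply, this, hρ z hz]
      rw [mem_stab] at hmem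
      have h3 := Multiset.count_map_eq_count' (act (ρ * swap x y)) M (act_injective _) ψ
      rw [hmem, act_mul, hτ] at h3
      exact h3.symm
    rw [mem_stab]
    refine Multiset.ext.2 fun φ => ?_
    obtain ⟨ψ, rfl⟩ : ∃ ψ, φ = act σ ψ := ⟨act σ⁻¹ φ, (act_act_inv σ φ).symm⟩
    rw [Multiset.count_map_eq_count' (act σ) M (act_injective _) ψ]
    by_cases h1 : ψ ∈ M
    · exact key σ hσ hs ψ h1
    · by_cases h2 : act σ ψ ∈ M
      · have h3 := key σ⁻¹ (fun x hx => by rw [Perm.inv_eq_iff_eq, hσ x hx])
          (by rw [Perm.sign_inv, hs]) _ h2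
        rw [act_inv_act] at h3
        exact h3.symm
      · rw [Multiset.count_eq_zero_of_notMem h1, Multiset.count_eq_zero_of_notMem h2]

end Act

section Index

variable {n : ℕ} {V : Type} (C : Circuit n V)

/-- The function computed by a gate. -/
def fn (g : C.G) : (Fin n → Fin n → Fin n → ℤ) → V := fun a => C.val a g

theorem fn_aut {σ : Perm (Fin n)} {τ : Perm C.G} (h : C.IsAut σ τ) (g : C.G) :
    fn C (τ g) = act σ (fn C g) := by
  funext a
  exact val_aut C h a g

theorem index_stab_le (hC : C.Symmetric) (g : C.G) (op : Multiset V → V) (ch : Multiset C.G)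
    (hg : C.gate g = .inner op ch) (hfin : (C.orbit g).Finite) :
    (stab (ch.map (fn C))).index ≤ (C.orbit g).ncard := by
  classical
  choose τ hτ using hC
  rw [Subgroup.index, ← Nat.card_coe_set_eq]
  have : Finite (C.orbit g) := hfin.to_subtype
  let F : Perm (Fin n) ⧸ stab (ch.map (fn C)) → C.orbit g := fun c =>
    ⟨τ c.out g, c.out, τ c.out, hτ _, rfl⟩
  refine Nat.card_le_card_of_injective F ?_
  intro c d hcd
  have h1 : τ c.out g = τ d.out g := congrArg Subtype.val hcd
  have h2 : (C.gate g).relabel c.out (τ c.out) = (C.gate g).relabel d.out (τ d.out) := by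
    rw [← (hτ c.out).2 g, ← (hτ d.out).2 g, h1]
  rw [hg] at h2
  have h3 : ch.map (τ c.out) = ch.map (τ d.out) := by
    simp only [Gate.relabel, Gate.inner.injEq, true_and] at h2
    exact h2
  have h4 : (ch.map (fn C)).map (act c.out) = (ch.map (fn C)).map (act d.out) := by
    have e : ∀ ρ : Perm (Fin n), (ch.map (fn C)).map (act ρ) = (ch.map (τ ρ)).map (fn C) := by
      intro ρ
      rw [Multiset.map_map, Multiset.map_map]
      refine Multiset.map_congr rfl fun x _ => ?_
      exact (fn_aut C (hτ ρ) x).symm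
    rw [e, e, h3]
  have h5 : c.out⁻¹ * d.out ∈ stab (ch.map (fn C)) := by
    rw [mem_stab]
    have : (ch.map (fn C)).map (act (c.out⁻¹ * d.out)) =
        ((ch.map (fn C)).map (act d.out)).map (act c.out⁻¹) :=
      (Multiset.map_map (act c.out⁻¹) (act d.out) (ch.map (fn C))).symm
    rw [this, ← h4, Multiset.map_map]
    conv_rhs => rw [← Multiset.map_id (ch.map (fn C))]
    refine Multiset.map_congr rfl fun x _ => ?_
    exact act_inv_act c.out x
  have h6 := QuotientGroup.eq.2 h5
  rwa [QuotientGroup.out_eq', QuotientGroup.out_eq'] at h6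

end Index

/-- Supports of gates. -/
theorem stGates (hS : StSupport) : StGates := by
  classical
  intro n q V C hq hn hC horb
  -- supports of inner gates
  have hinner : ∀ g, ∃ D : Finset (Fin n), D.card ≤ q + 2 ∧
      (∀ i j l f, C.gate g = .input i j l f → i ∈ D ∧ j ∈ D ∧ l ∈ D) ∧
      ∀ op ch, C.gate g = .inner op ch → D.card < q ∧
        ∀ σ : Perm (Fin n), Perm.sign σ = 1 → (∀ x ∈ D, σ x = x) → σ ∈ stab (ch.map (fn C)) := by
    intro g
    cases hg : C.gate g with
    | input i j l f =>
      refine ⟨{i, j, l}, ?_, ?_, ?_⟩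
      · have := Finset.card_le_three (a := i) (b := j) (c := l)
        omega
      · intro i' j' l' f' h
        cases h
        simp
      · intro op ch h
        cases h
    | inner op ch =>
      have hidx : (stab (ch.map (fn C))).index < 3 ^ q :=
        lt_of_le_of_lt (index_stab_le C hC g op ch hg (horb g).1) (horb g).2
      obtain ⟨D, hD, hD2⟩ := hS (Fin n) (stab (ch.map (fn C))) q hq
        (by rw [Fintype.card_fin]; exact hn) hidx
      refine ⟨D, by omega, ?_, ?_⟩
      · intro i' j' l' f' h
        cases h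
      · intro op' ch' h
        cases h
        exact ⟨hD, hD2⟩
  choose Δ hΔ1 hΔ2 hΔ3 using hinner
  -- functions of gates are fixed
  have hfix : ∀ g, (∀ σ : Perm (Fin n), (∀ x ∈ Δ g, σ x = x) → act σ (fn C g) = fn C g) ∧
      ∀ op ch, C.gate g = .inner op ch → ∀ σ : Perm (Fin n), (∀ x ∈ Δ g, σ x = x) →
        σ ∈ stab (ch.map (fn C)) := by
    intro g
    induction g using gate_induction C with
    | h g ih =>
      have hB : ∀ op ch, C.gate g = .inner op ch → ∀ σ : Perm (Fin n), (∀ x ∈ Δ g, σ x = x) →
          σ ∈ stab (ch.map (fn C)) := by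
        intro op ch hg
        refine stab_of_even _ (Δ g) q hq hn (hΔ3 g op ch hg).1 (hΔ3 g op ch hg).2 ?_
        intro ψ hψ
        obtain ⟨x, hx, rfl⟩ := Multiset.mem_map.1 hψ
        exact ⟨Δ x, hΔ1 x, (ih op ch hg x hx).1⟩
      refine ⟨?_, hB⟩
      intro σ hσ
      funext a
      change C.val (pull σ a) g = C.val a g
      cases hg : C.gate g with
      | input i j l f =>
        obtain ⟨hi, hj, hl⟩ := hΔ2 g i j l f hg
        rw [val_of_input C hg, val_of_input C hg, pull, hσ i hi, hσ j hj, hσ l hl]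
      | inner op ch =>
        have h1 := hB op ch hg σ hσ
        rw [mem_stab] at h1
        have h2 := congrArg (Multiset.map fun φ => φ a) h1
        rw [Multiset.map_map, Multiset.map_map, Multiset.map_map] at h2
        rw [val_of_inner C hg, val_of_inner C hg]
        congr 1
  refine ⟨Δ, hΔ1, hΔ2, ?_⟩
  intro g op ch hg σ hσ a
  have h1 := (hfix g).2 op ch hg σ hσ
  rw [mem_stab] at h1
  have h2 := congrArg (Multiset.map fun φ => φ a) h1
  rw [Multiset.map_map, Multiset.map_map, Multiset.map_map] at h2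
  exact h2

end Pool.Agent.Lib.MP_64d474_lc.Circ
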