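import Pool.Agent.Lib.MP_64d474_lc.Circ.Spec2
import Pool.Agent.Lib.MP_64d474_lc.Circ.Gauge

namespace Pool.Agent.Lib.MP_64d474_lc.Circ

open Equiv

theorem kequiv_mono {I : Type} [DecidableEq I] {a b : I → I → I → ℤ} {k k' : ℕ} (h : KEquiv a b k)
    (hk : k' ≤ k) : KEquiv a b k' := by
  obtain ⟨W, h1, h2, h3, h4⟩ := h
  exact ⟨W, h1, h2, h3, fun p hp hc => h4 p hp (lt_of_lt_of_le hc hk)⟩

/-- Coefficients transported along a bijection of the index sets. -/
def trans {I J : Type} (e : I ≃ J) (a : I → I → I → ℤ) : J → J → J → ℤ :=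
  fun i j l => a (e.symm i) (e.symm j) (e.symm l)

theorem kequiv_trans {I J : Type} [DecidableEq I] [DecidableEq J] (e : I ≃ J)
    {a b : I → I → I → ℤ} {k : ℕ} (h : KEquiv a b k) : KEquiv (trans e a) (trans e b) k := by
  obtain ⟨W, h1, h2, h3, h4⟩ := h
  let E : J × J → I × I := fun x => (e.symm x.1, e.symm x.2)
  have hE : Function.Injective E := by
    rintro ⟨x, y⟩ ⟨x', y'⟩ hxy
    simp only [E, Prod.mk.injEq] at hxy
    rw [e.symm.injective hxy.1, e.symm.injective hxy.2]
  refine ⟨fun p => W (p.image E), by simpa using h1, ?_, ?_, ?_⟩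
  · intro p q hp hq
    exact h2 _ _ hp (Finset.image_subset_image hq)
  · intro p hp x hx y hy
    obtain ⟨k1, k2⟩ := h3 _ hp (E x) (Finset.mem_image_of_mem E hx) (E y)
      (Finset.mem_image_of_mem E hy)
    refine ⟨?_, ?_⟩
    · have : (e.symm x.1 = e.symm y.1 ↔ e.symm x.2 = e.symm y.2) := k1
      rw [e.symm.injective.eq_iff, e.symm.injective.eq_iff] at this
      exact this
    · intro z hz
      exact k2 (E z) (Finset.mem_image_of_mem E hz)
  · intro p hp hc
    obtain ⟨f, hf⟩ := h4 _ hp (by rwa [Finset.card_image_of_injective _ hE])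
    refine ⟨(e.symm.trans f).trans e, ?_⟩
    intro u
    have := hf (e.symm u)
    show W ((insert (u, ((e.symm.trans f).trans e) u) p).image E)
    rw [Finset.image_insert]
    have h5 : E (u, ((e.symm.trans f).trans e) u) = (e.symm u, f (e.symm u)) := by
      simp [E]
    rw [h5]
    exact this

theorem symMat_trans {I J : Type} [Fintype I] [Fintype J] (e : I ≃ J) (a : I → I → I → ℤ)
    (i j : J) : symMat (trans e a) i j =
      MvPolynomial.rename e (symMat a (e.symm i) (e.symm j)) := by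
  simp only [symMat, trans, map_sum, map_mul, MvPolynomial.rename_C, MvPolynomial.rename_X]
  rw [← e.sum_comp]
  simp

theorem det_trans {I J : Type} [Fintype I] [Fintype J] [DecidableEq I] [DecidableEq J] (e : I ≃ J)
    (a : I → I → I → ℤ) :
    (symMat (trans e a)).det = MvPolynomial.rename e (symMat a).det := by
  have h : symMat (trans e a) =
      ((symMat a).map (MvPolynomial.rename e)).submatrix e.symm e.symm := by
    ext1 i j
    rw [symMat_trans]
    rfl
  rw [h, Matrix.det_submatrix_equiv_self, AlgHom.map_det]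
  rfl

section Range

variable {N : Type} [DecidableEq N]

theorem dbl_range (P : Bool → Perm N) (s : Bool × N → ℤˣ) (r c x : Ix N) :
    dbl P s r c x ∈ ({-1, 0, 1, 2} : Set ℤ) := by
  have hb : base P s r.1 c.1 x.1 = -1 ∨ base P s r.1 c.1 x.1 = 0 ∨ base P s r.1 c.1 x.1 = 1 := by
    have hs : ((s r.1 : ℤˣ) : ℤ) = 1 ∨ ((s r.1 : ℤˣ) : ℤ) = -1 := by
      rcases Int.units_eq_one_or (s r.1) with h | h <;> simp [h]
    have hg : sg r.1.1 x.1.1 = 1 ∨ sg r.1.1 x.1.1 = -1 := by
      unfold sg; split_ifs <;> simp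
    unfold base
    cases hx : xor c.1.1 x.1.1 <;> rcases hs with hs | hs <;> rcases hg with hg | hg <;>
      simp [hs, hg] <;> split_ifs <;> simp <;> tauto
  have hu : ((r.2 * c.2 * x.2 : ℤˣ) : ℤ) = 1 ∨ ((r.2 * c.2 * x.2 : ℤˣ) : ℤ) = -1 := by
    rcases Int.units_eq_one_or (r.2 * c.2 * x.2) with h | h <;> simp [h]
  have hgoal : dbl P s r c x = -1 ∨ dbl P s r c x = 0 ∨ dbl P s r c x = 1 ∨ dbl P s r c x = 2 := by
    unfold dbl
    rcases hu with hu | hu <;> rcases hb with hb | hb | hb <;> rw [hu, hb] <;> split_ifs <;> simp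
  simpa using hgoal

theorem tens_range (P : Bool → Perm N) (s : Bool × N → ℤˣ) (m : ℕ) (i j l : El N m) :
    tens P s m i j l ∈ ({-1, 0, 1, 2} : Set ℤ) := by
  have h0 : (0 : ℤ) ∈ ({-1, 0, 1, 2} : Set ℤ) := by simp
  have h1 : ∀ (p : Prop) [Decidable p], (if p then (1 : ℤ) else 0) ∈ ({-1, 0, 1, 2} : Set ℤ) := by
    intro p _; split_ifs <;> simp
  rcases i with i | i | i | i <;> rcases j with j | j | j | j <;> rcases l with l | l | l | l <;>
    first | exact h0 | exact dbl_range _ _ _ _ _ | exact h1 _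

theorem tens_symm (P : Bool → Perm N) (s : Bool × N → ℤˣ) (m : ℕ) (i j l : El N m) :
    tens P s m i j l = tens P s m j i l := by
  rcases i with i | i | i | i <;> rcases j with j | j | j | j <;> rcases l with l | l | l | l <;>
    first
    | rfl
    | (show (if i = j ∧ j = l then (1 : ℤ) else 0) = if j = i ∧ i = l then 1 else 0
       refine if_congr ⟨?_, ?_⟩ rfl rfl <;> (rintro ⟨rfl, rfl⟩; exact ⟨rfl, rfl⟩))

end Range

theorem main (hE : StExpander) (hC : StComp) (hG : StGame) (hS : StSign) (hD : StDet)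
    (hT : StTens) (hGa : StGates) (hTr : StTransfer) (hL : StLogic) : StMain := by
  intro q n hq hn
  obtain ⟨k, hk⟩ : ∃ k, k = 2 * q + 4 := ⟨_, rfl⟩
  obtain ⟨m, hm⟩ : ∃ m, n = 1536 * k + m := ⟨n - 1536 * k, by omega⟩
  obtain ⟨P, hP⟩ := hE k (by omega)
  have hN : 2 ≤ Fintype.card (Fin (128 * k)) := by rw [Fintype.card_fin]; omega
  obtain ⟨s, hs⟩ := hS (Fin (128 * k)) ((P false).trans (P true).symm)
  obtain ⟨t, ht⟩ : ∃ t : Fin (128 * k) → ℤˣ, ∀ x, t (P false x) = s x :=
    ⟨fun y => s ((P false).symm y), fun x => by simp⟩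
  obtain ⟨m0, hm0⟩ := hG (Fin (128 * k)) P k m t hN (hC _ P k hN hP)
  obtain ⟨hd0, hd1⟩ := hD (Fin (128 * k)) P t (by
    intro v hv
    refine hs v fun x => ?_
    rw [← ht]
    exact hv x)
  have hcard : Fintype.card (El (Fin (128 * k)) m) = n := by
    simp [Fintype.card_prod]
    omega
  let e : El (Fin (128 * k)) m ≃ Fin n := Fintype.equivFinOfCardEq hcard
  have hK : KEquiv (trans e (tens P (s0 t) m)) (trans e (tens P (s1 t m0) m)) k :=
    kequiv_trans e hm0
  refine ⟨trans e (tens P (s0 t) m), trans e (tens P (s1 t m0) m), ?_, ?_, ?_, ?_, ?_, ?_⟩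
  · exact fun i j l => ⟨tens_symm _ _ _ _ _ _, tens_range _ _ _ _ _ _⟩
  · exact fun i j l => ⟨tens_symm _ _ _ _ _ _, tens_range _ _ _ _ _ _⟩
  · rw [det_trans]
    intro h
    apply (hT _ P (s0 t) m).1 hd0
    apply MvPolynomial.rename_injective e e.injective
    rw [h, map_zero]
  · rw [det_trans, (hT _ P (s1 t m0) m).2 (hd1 m0), map_zero]
  · intro V C hC hO
    obtain ⟨Δ, h1, h2⟩ := hGa n q V C hq (by omega) hC hO
    exact hTr n (q + 2) k V C Δ hC h1 h2 (by omega) _ _ hK
  · intro φ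
    exact hL (Fin n) _ _ (2 * q) (kequiv_mono hK (by omega)) φ

end Pool.Agent.Lib.MP_64d474_lc.Circ
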