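import Pool.Agent.Lib.MP_64d474_lc.Circ.Gates
import Pool.Agent.Lib.MP_64d474_lc.Circ.Main

/-!
Supports of gates when only the orbits under a chosen family of automorphisms are small.
-/

namespace Pool.Agent.Lib.MP_64d474_lc.Circ

open Equiv

section Index

variable {n : ℕ} {V : Type} (C : Circuit n V)

theorem index_stab_le' (τ : Perm (Fin n) → Perm C.G) (hτ : ∀ σ, C.IsAut σ (τ σ)) (g : C.G)
    (op : Multiset V → V) (ch : Multiset C.G) (hg : C.gate g = .inner op ch)
    (hfin : (Set.range fun σ => τ σ g).Finite) :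
    (stab (ch.map (fn C))).index ≤ (Set.range fun σ => τ σ g).ncard := by
  classical
  rw [Subgroup.index, ← Nat.card_coe_set_eq]
  have : Finite (Set.range fun σ => τ σ g) := hfin.to_subtype
  let F : Perm (Fin n) ⧸ stab (ch.map (fn C)) → Set.range fun σ => τ σ g := fun c =>
    ⟨τ c.out g, c.out, rfl⟩
  refine Nat.card_le_card_of_injective F ?_
  intro c d hcd
  have h1 : τ c.out g = τ d.out g := congrArg Subtype.val hcd
  have h2 : (C.gate g).relabel c.out (τ c.out) = (C.gate g).relabel d.out (τ d.out) := by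
    rw [← (hτ c.out).2 g, ← (hτ d.out).2 g, h1]
  rw [hg] at h2
  have h3 : ch.map (τ c.out) = ch.map (τ d.out) := by
    simp only [Gate.relabel, Gate.inner.injEq, true_and] at h2
    exact h2
  have h4 : (ch.map (fn C)).map (act c.out) = (ch.map (fn C)).map (act d.out) := by
    have e : ∀ ρ : Perm (Fin n), (ch.map (fn C)).map (act ρ) = (ch.map (τ ρ)).map (fn C) := by
      intro ρ
      rw [Multiset.map_map, Multiset.map_map]
      refine Multiset.map_congr rfl fun x _ => ?_
      exact (fn_aut C (hτ ρ) x).symm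
    rw [e, e, h3]
  have h5 : c.out⁻¹ * d.out ∈ stab (ch.map (fn C)) := by
    rw [mem_stab]
    have : (ch.map (fn C)).map (act (c.out⁻¹ * d.out)) =
        ((ch.map (fn C)).map (act d.out)).map (act c.out⁻¹) :=
      (Multiset.map_map (act c.out⁻¹) (act d.out) (ch.map (fn C))).symm
    rw [this, ← h4, Multiset.map_map]
    conv_rhs => rw [← Multiset.map_id (ch.map (fn C))]
    refine Multiset.map_congr rfl fun x _ => ?_
    exact act_inv_act c.out x
  have h6 := QuotientGroup.eq.2 h5
  rwa [QuotientGroup.out_eq', QuotientGroup.out_eq'] at h6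

end Index

/-- Supports of gates, chosen automorphisms. -/
theorem gates_choice (hS : StSupport) (n q : ℕ) (V : Type) (C : Circuit n V) (hq : 1 ≤ q)
    (hn : 12 * q ≤ n) (τ : Perm (Fin n) → Perm C.G) (hτ : ∀ σ, C.IsAut σ (τ σ))
    (horb : ∀ g, (Set.range fun σ => τ σ g).Finite ∧ (Set.range fun σ => τ σ g).ncard < 3 ^ q) :
    ∃ Δ : C.G → Finset (Fin n), (∀ g, (Δ g).card ≤ q + 2) ∧ IsSupport C Δ := by
  classical
  -- supports of inner gates
  have hinner : ∀ g, ∃ D : Finset (Fin n), D.card ≤ q + 2 ∧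
      (∀ i j l f, C.gate g = .input i j l f → i ∈ D ∧ j ∈ D ∧ l ∈ D) ∧
      ∀ op ch, C.gate g = .inner op ch → D.card < q ∧
        ∀ σ : Perm (Fin n), Perm.sign σ = 1 → (∀ x ∈ D, σ x = x) → σ ∈ stab (ch.map (fn C)) := by
    intro g
    cases hg : C.gate g with
    | input i j l f =>
      refine ⟨{i, j, l}, ?_, ?_, ?_⟩
      · have := Finset.card_le_three (a := i) (b := j) (c := l)
        omega
      · intro i' j' l' f' h
        cases h
        simp
      · intro op ch h
        cases h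
    | inner op ch =>
      have hidx : (stab (ch.map (fn C))).index < 3 ^ q :=
        lt_of_le_of_lt (index_stab_le' C τ hτ g op ch hg (horb g).1) (horb g).2
      obtain ⟨D, hD, hD2⟩ := hS (Fin n) (stab (ch.map (fn C))) q hq
        (by rw [Fintype.card_fin]; exact hn) hidx
      refine ⟨D, by omega, ?_, ?_⟩
      · intro i' j' l' f' h
        cases h
      · intro op' ch' h
        cases h
        exact ⟨hD, hD2⟩
  choose Δ hΔ1 hΔ2 hΔ3 using hinner
  -- functions of gates are fixed
  have hfix : ∀ g, (∀ σ : Perm (Fin n), (∀ x ∈ Δ g, σ x = x) → act σ (fn C g) = fn C g) ∧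
      ∀ op ch, C.gate g = .inner op ch → ∀ σ : Perm (Fin n), (∀ x ∈ Δ g, σ x = x) →
        σ ∈ stab (ch.map (fn C)) := by
    intro g
    induction g using gate_induction C with
    | h g ih =>
      have hB : ∀ op ch, C.gate g = .inner op ch → ∀ σ : Perm (Fin n), (∀ x ∈ Δ g, σ x = x) →
          σ ∈ stab (ch.map (fn C)) := by
        intro op ch hg
        refine stab_of_even _ (Δ g) q hq hn (hΔ3 g op ch hg).1 (hΔ3 g op ch hg).2 ?_
        intro ψ hψ
        obtain ⟨x, hx, rfl⟩ := Multiset.mem_map.1 hψ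
        exact ⟨Δ x, hΔ1 x, (ih op ch hg x hx).1⟩
      refine ⟨?_, hB⟩
      intro σ hσ
      funext a
      change C.val (pull σ a) g = C.val a g
      cases hg : C.gate g with
      | input i j l f =>
        obtain ⟨hi, hj, hl⟩ := hΔ2 g i j l f hg
        rw [val_of_input C hg, val_of_input C hg, pull, hσ i hi, hσ j hj, hσ l hl]
      | inner op ch =>
        have h1 := hB op ch hg σ hσ
        rw [mem_stab] at h1
        have h2 := congrArg (Multiset.map fun φ => φ a) h1
        rw [Multiset.map_map, Multiset.map_map, Multiset.map_map] at h2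
        rw [val_of_inner C hg, val_of_inner C hg]
        congr 1
  refine ⟨Δ, hΔ1, hΔ2, ?_⟩
  intro g op ch hg σ hσ a
  have h1 := (hfix g).2 op ch hg σ hσ
  rw [mem_stab] at h1
  have h2 := congrArg (Multiset.map fun φ => φ a) h1
  rw [Multiset.map_map, Multiset.map_map, Multiset.map_map] at h2
  exact h2

/-- The final theorem for chosen automorphisms. -/
def StMainK : Prop :=
  ∀ q n : ℕ, 1 ≤ q → 10 ^ 4 * q ≤ n →
    ∃ a b : Fin n → Fin n → Fin n → ℤ,
      (∀ i j l, a i j l = a j i l ∧ a i j l ∈ ({-1, 0, 1, 2} : Set ℤ)) ∧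
      (∀ i j l, b i j l = b j i l ∧ b i j l ∈ ({-1, 0, 1, 2} : Set ℤ)) ∧
      (symMat a).det ≠ 0 ∧ (symMat b).det = 0 ∧
      (∀ (V : Type) (C : Circuit n V) (τ : Perm (Fin n) → Perm C.G), (∀ σ, C.IsAut σ (τ σ)) →
        (∀ g, (Set.range fun σ => τ σ g).Finite ∧ (Set.range fun σ => τ σ g).ncard < 3 ^ q) →
        C.val a C.out = C.val b C.out) ∧
      KEquiv a b (2 * q)

theorem main' (hE : StExpander) (hC : StComp) (hG : StGame) (hS : StSign) (hD : StDet)
    (hT : StTens) (hSu : StSupport) (hTr : StTransfer) : StMainK := by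
  intro q n hq hn
  obtain ⟨k, hk⟩ : ∃ k, k = 2 * q + 4 := ⟨_, rfl⟩
  obtain ⟨m, hm⟩ : ∃ m, n = 1536 * k + m := ⟨n - 1536 * k, by omega⟩
  obtain ⟨P, hP⟩ := hE k (by omega)
  have hN : 2 ≤ Fintype.card (Fin (128 * k)) := by rw [Fintype.card_fin]; omega
  obtain ⟨s, hs⟩ := hS (Fin (128 * k)) ((P false).trans (P true).symm)
  obtain ⟨t, ht⟩ : ∃ t : Fin (128 * k) → ℤˣ, ∀ x, t (P false x) = s x :=
    ⟨fun y => s ((P false).symm y), fun x => by simp⟩
  obtain ⟨m0, hm0⟩ := hG (Fin (128 * k)) P k m t hN (hC _ P k hN hP)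
  obtain ⟨hd0, hd1⟩ := hD (Fin (128 * k)) P t (by
    intro v hv
    refine hs v fun x => ?_
    rw [← ht]
    exact hv x)
  have hcard : Fintype.card (El (Fin (128 * k)) m) = n := by
    simp [Fintype.card_prod]
    omega
  let e : El (Fin (128 * k)) m ≃ Fin n := Fintype.equivFinOfCardEq hcard
  have hK : KEquiv (trans e (tens P (s0 t) m)) (trans e (tens P (s1 t m0) m)) k :=
    kequiv_trans e hm0
  refine ⟨trans e (tens P (s0 t) m), trans e (tens P (s1 t m0) m), ?_, ?_, ?_, ?_, ?_, ?_⟩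
  · exact fun i j l => ⟨tens_symm _ _ _ _ _ _, tens_range _ _ _ _ _ _⟩
  · exact fun i j l => ⟨tens_symm _ _ _ _ _ _, tens_range _ _ _ _ _ _⟩
  · rw [det_trans]
    intro h
    apply (hT _ P (s0 t) m).1 hd0
    apply MvPolynomial.rename_injective e e.injective
    rw [h, map_zero]
  · rw [det_trans, (hT _ P (s1 t m0) m).2 (hd1 m0), map_zero]
  · intro V C τ hτ hO
    obtain ⟨Δ, h1, h2⟩ := gates_choice hSu n q V C hq (by omega) τ hτ hO
    exact hTr n (q + 2) k V C Δ (fun σ => ⟨τ σ, hτ σ⟩) h1 h2 (by omega) _ _ hK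
  · exact kequiv_mono hK (by omega)

end Pool.Agent.Lib.MP_64d474_lc.Circ
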