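import Pool.Agent.Lib.MP_64d474_lc.Circ.Spec

namespace Pool.Agent.Lib.MP_64d474_lc.Circ

open Equiv

section Logic

variable {I : Type} [DecidableEq I]

theorem kequiv_symm {a b : I → I → I → ℤ} {k : ℕ} (h : KEquiv a b k) : KEquiv b a k := by
  obtain ⟨W, h1, h2, h3, h4⟩ := h
  have hinj : Function.Injective (Prod.swap : I × I → I × I) := Prod.swap_injective
  refine ⟨fun p => W (p.image Prod.swap), by simpa using h1, ?_, ?_, ?_⟩
  · intro p q hp hq
    exact h2 _ _ hp (Finset.image_subset_image hq)
  · intro p hp x hx y hy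
    obtain ⟨k1, k2⟩ := h3 _ hp (Prod.swap x) (Finset.mem_image_of_mem _ hx) (Prod.swap y)
      (Finset.mem_image_of_mem _ hy)
    refine ⟨?_, ?_⟩
    · exact (show (x.2 = y.2 ↔ x.1 = y.1) from k1).symm
    · intro z hz
      exact (k2 (Prod.swap z) (Finset.mem_image_of_mem _ hz)).symm
  · intro p hp hc
    obtain ⟨f, hf⟩ := h4 _ hp (by rwa [Finset.card_image_of_injective _ hinj])
    refine ⟨f.symm, fun u => ?_⟩
    have := hf (f.symm u)
    show W ((insert (u, f.symm u) p).image Prod.swap)
    rw [Finset.image_insert]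
    rw [Equiv.apply_symm_apply] at this
    exact this

/-- The pebbled pairs with indices in `s`. -/
def prs {k : ℕ} (s : Finset (Fin k)) (v w : Fin k → I) : Finset (I × I) :=
  s.image fun j => (v j, w j)

theorem prs_update {k : ℕ} (s : Finset (Fin k)) (v w : Fin k → I) (i : Fin k) (u u' : I)
    (hs : i ∉ s) : prs (insert i s) (Function.update v i u) (Function.update w i u') ⊆
      insert (u, u') (prs s v w) := by
  intro x hx
  simp only [prs, Finset.mem_image] at hx
  obtain ⟨j, hj, rfl⟩ := hx
  rcases Finset.mem_insert.1 hj with rfl | hj'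
  · simp
  · have hne : j ≠ i := by rintro rfl; exact hs hj'
    rw [Function.update_of_ne hne, Function.update_of_ne hne]
    exact Finset.mem_insert_of_mem (Finset.mem_image_of_mem (fun j => (v j, w j)) hj')

theorem holds_step {k : ℕ} {a b : I → I → I → ℤ} (W : Finset (I × I) → Prop)
    (h2 : ∀ p q, W p → q ⊆ p → W q)
    (h3 : ∀ p, W p → ∀ x ∈ p, ∀ y ∈ p, (x.1 = y.1 ↔ x.2 = y.2) ∧
      ∀ z ∈ p, a x.1 y.1 z.1 = b x.2 y.2 z.2)
    (h4 : ∀ p, W p → p.card < k → ∃ e : I ≃ I, ∀ u, W (insert (u, e u) p))
    (φ : CForm k) : ∀ v w, W (prs Finset.univ v w) → (Holds a φ v ↔ Holds b φ w) := by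
  have hmem : ∀ (v w : Fin k → I) j, (v j, w j) ∈ prs Finset.univ v w :=
    fun v w j => Finset.mem_image_of_mem (fun j => (v j, w j)) (Finset.mem_univ j)
  induction φ with
  | eq i j => intro v w h; exact (h3 _ h _ (hmem v w i) _ (hmem v w j)).1
  | coef z i j l =>
    intro v w h
    have := (h3 _ h _ (hmem v w i) _ (hmem v w j)).2 _ (hmem v w l)
    simp only [Holds]
    rw [show a (v i) (v j) (v l) = b (w i) (w j) (w l) from this]
  | neg φ ih => intro v w h; exact not_congr (ih v w h)
  | conj ι φ ih => intro v w h; exact forall_congr' fun t => ih t v w h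
  | atLeast m i φ ih =>
    intro v w h
    have hcard : (prs (Finset.univ.erase i) v w).card < k := by
      refine lt_of_le_of_lt Finset.card_image_le ?_
      rw [Finset.card_erase_of_mem (Finset.mem_univ i), Finset.card_univ, Fintype.card_fin]
      have := i.pos
      omega
    obtain ⟨e, he⟩ := h4 _ (h2 _ _ h (Finset.image_subset_image (Finset.erase_subset _ _))) hcard
    have he' : ∀ u, W (prs Finset.univ (Function.update v i u) (Function.update w i (e u))) := by
      intro u
      refine h2 _ _ (he u) ?_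
      have := prs_update (Finset.univ.erase i) v w i u (e u) (by simp)
      rwa [Finset.insert_erase (Finset.mem_univ i)] at this
    constructor
    · rintro ⟨f, hf⟩
      refine ⟨f.trans e.toEmbedding, fun t => ?_⟩
      exact (ih _ _ (he' (f t))).1 (hf t)
    · rintro ⟨f, hf⟩
      refine ⟨f.trans e.symm.toEmbedding, fun t => ?_⟩
      have := ih _ _ (he' (e.symm (f t)))
      rw [Equiv.apply_symm_apply] at this
      exact this.2 (hf t)

theorem exists_partner {k : ℕ} (W : Finset (I × I) → Prop) (h1 : W ∅)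
    (h2 : ∀ p q, W p → q ⊆ p → W q)
    (h4 : ∀ p, W p → p.card < k → ∃ e : I ≃ I, ∀ u, W (insert (u, e u) p)) (v : Fin k → I)
    (s : Finset (Fin k)) : ∃ w : Fin k → I, W (prs s v w) := by
  induction s using Finset.induction_on with
  | empty => exact ⟨v, by simpa [prs] using h1⟩
  | insert i s hi ih =>
    obtain ⟨w, hw⟩ := ih
    have hcard : (prs s v w).card < k := by
      refine lt_of_le_of_lt Finset.card_image_le ?_
      have h5 : s.card < (insert i s).card := by rw [Finset.card_insert_of_notMem hi]; omega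
      have h6 : (insert i s).card ≤ k := by
        have := Finset.card_le_univ (insert i s)
        rwa [Fintype.card_fin] at this
      omega
    obtain ⟨e, he⟩ := h4 _ hw hcard
    refine ⟨Function.update w i (e (v i)), h2 _ _ (he (v i)) ?_⟩
    have := prs_update s v w i (v i) (e (v i)) hi
    rwa [Function.update_eq_self] at this

theorem logic_one {a b : I → I → I → ℤ} {k : ℕ} (h : KEquiv a b k) (φ : CForm k)
    (hb : ∀ w, Holds b φ w) : ∀ v, Holds a φ v := by
  obtain ⟨W, h1, h2, h3, h4⟩ := h
  intro v
  obtain ⟨w, hw⟩ := exists_partner W h1 h2 h4 v Finset.univ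
  exact (holds_step W h2 h3 h4 φ v w hw).2 (hb w)

end Logic

theorem stLogic : StLogic := by
  intro I _ a b k h φ
  exact ⟨logic_one (kequiv_symm h) φ, logic_one h φ⟩

end Pool.Agent.Lib.MP_64d474_lc.Circ
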