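import Pool.Agent.Lib.MP_64d474_lc.Circ.Spec2

/-!
If every large set supports a nontrivial element of `H` then most points belong to 3-cycles of `H`.
-/

namespace Pool.Agent.Lib.MP_64d474_lc.Circ

open Equiv

/-- The commutator of two permutations whose supports meet in one point. -/
theorem comm3 {Ω : Type} [DecidableEq Ω] (x y : Perm Ω) (a : Ω) (hx : x a ≠ a) (hy : y a ≠ a)
    (h : ∀ z, z ≠ a → x z ≠ z → y z = z) :
    x a ≠ y a ∧ x * y * x⁻¹ * y⁻¹ = swap a (x a) * swap (x a) (y a) := by
  have hxx : ∀ z, x (x⁻¹ z) = z := fun z => by simp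
  have hyy : ∀ z, y (y⁻¹ z) = z := fun z => by simp
  have hx' : ∀ z, x⁻¹ (x z) = z := fun z => by simp
  have hy' : ∀ z, y⁻¹ (y z) = z := fun z => by simp
  have hxa : x (x a) ≠ x a := fun e => hx (x.injective e)
  have hya : y (y a) ≠ y a := fun e => hy (y.injective e)
  have hne : x a ≠ y a := by
    intro e
    have := h (x a) hx hxa
    rw [e] at this
    exact hya this
  -- `y` fixes `x a`, `x` fixes `y a`
  have h1 : y (x a) = x a := h _ hx hxa
  have h2 : x (y a) = y a := by
    by_contra h3
    exact hya (h _ hy h3)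
  refine ⟨hne, ?_⟩
  ext z
  simp only [Perm.mul_apply]
  by_cases hza : z = a
  · subst hza
    have e1 : y⁻¹ z ≠ z := fun e => hy (by rw [← e, hyy, e])
    have e2 : x (y⁻¹ z) = y⁻¹ z := by
      by_contra h3
      have := h _ e1 h3
      rw [hyy] at this
      exact e1 this.symm
    have e3 : x⁻¹ (y⁻¹ z) = y⁻¹ z := by
      conv_lhs => rw [← e2]
      exact hx' _
    rw [e3, hyy, swap_apply_of_ne_of_ne hx.symm hy.symm, swap_apply_left]
  · by_cases hzx : z = x a
    · subst hzx
      have e1 : y⁻¹ (x a) = x a := by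
        conv_lhs => rw [← h1]
        exact hy' _
      rw [e1, hx', h2, swap_apply_left, swap_apply_of_ne_of_ne hy hne.symm]
    · by_cases hzy : z = y a
      · subst hzy
        have e1 : x⁻¹ a ≠ a := fun e => hx (by rw [← e, hxx, e])
        have e2 : y (x⁻¹ a) = x⁻¹ a := h _ e1 (by rw [hxx]; exact e1.symm)
        rw [hy', e2, hxx, swap_apply_right, swap_apply_right]
      · rw [swap_apply_of_ne_of_ne hzx hzy, swap_apply_of_ne_of_ne hza hzx]
        by_cases hyz : y z = z
        · have e1 : y⁻¹ z = z := by
            conv_lhs => rw [← hyz]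
            exact hy' _
          rw [e1]
          by_cases hxz : x z = z
          · have e2 : x⁻¹ z = z := by
              conv_lhs => rw [← hxz]
              exact hx' _
            rw [e2, hyz, hxz]
          · have e3 : x⁻¹ z ≠ a := fun e => hzx (by rw [← e, hxx])
            have e4 : x (x⁻¹ z) ≠ x⁻¹ z := by
              rw [hxx]
              intro e
              apply hxz
              conv_lhs => rw [e]
              exact hxx z
            rw [h _ e3 e4, hxx]
        · have e3 : y⁻¹ z ≠ a := fun e => hzy (by rw [← e, hyy])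
          have e4 : y (y⁻¹ z) ≠ y⁻¹ z := by
            rw [hyy]
            intro e
            apply hyz
            conv_lhs => rw [e]
            exact hyy z
          have e5 : x (y⁻¹ z) = y⁻¹ z := by
            by_contra h3
            exact e4 (h _ e3 h3)
          have e6 : x⁻¹ (y⁻¹ z) = y⁻¹ z := by
            conv_lhs => rw [← e5]
            exact hx' _
          rw [e6, hyy]
          by_contra h3
          exact hyz (h _ hza h3)

/-- Most points belong to 3-cycles of `H`. -/
theorem stMove : StMove := by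
  intro Ω _ _ H q hq hW
  classical
  -- sets which support no nontrivial element
  let F : Finset (Finset Ω) := Finset.univ.filter fun M =>
    ∀ x ∈ H, (∀ y, y ∉ M → x y = y) → x = 1
  have hF : ∀ M, M ∈ F ↔ ∀ x ∈ H, (∀ y, y ∉ M → x y = y) → x = 1 := by
    intro M; simp [F]
  have hsmall : ∀ M ∈ F, M.card < 3 * q := by
    intro M hM
    by_contra h
    push Not at h
    obtain ⟨x, hx, hx1, hxM⟩ := hW M h
    exact hx1 ((hF M).1 hM x hx hxM)
  have hne : F.Nonempty := ⟨∅, (hF ∅).2 (fun x _ h => Equiv.ext fun y => h y (by simp))⟩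
  obtain ⟨M, hM, hmax⟩ := F.exists_max_image Finset.card hne
  let M' : Finset Ω := Finset.univ.filter fun a => a ∉ M ∧
    ∀ x ∈ H, (∀ y ∈ M, x y = y) → x a = a
  have hM' : ∀ a, a ∈ M' ↔ a ∉ M ∧ ∀ x ∈ H, (∀ y ∈ M, x y = y) → x a = a := by
    intro a; simp [M']
  have hM'F : M' ∈ F := by
    rw [hF]
    intro x hx hxM
    refine Equiv.ext fun y => ?_
    by_cases hy : y ∈ M'
    · refine ((hM' y).1 hy).2 x hx ?_
      intro z hz
      exact hxM z (fun h => ((hM' z).1 h).1 hz)
    · exact hxM y hy
  refine ⟨M ∪ M', ?_, ?_⟩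
  · have h1 := hsmall M hM
    have h2 := hsmall M' hM'F
    have h3 := Finset.card_union_le M M'
    omega
  · intro a ha
    rw [Finset.mem_union, not_or, hM'] at ha
    obtain ⟨haM, hna⟩ := ha
    push Not at hna
    obtain ⟨x, hx, hxM, hxa⟩ := hna haM
    -- `insert a M` is not in `F`
    have hins : insert a M ∉ F := by
      intro h
      have := hmax _ h
      rw [Finset.card_insert_of_notMem haM] at this
      omega
    rw [hF] at hins
    push Not at hins
    obtain ⟨y, hy, hyM, hy1⟩ := hins
    have hya : y a ≠ a := by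
      intro e
      apply hy1
      apply (hF M).1 hM y hy
      intro z hz
      by_cases hza : z = a
      · rw [hza, e]
      · exact hyM z (by simp [hza, hz])
    obtain ⟨hne, hc⟩ := comm3 x y a hxa hya (by
      intro z hza hxz
      apply hyM
      rw [Finset.mem_insert, not_or]
      exact ⟨hza, fun h => hxz (hxM z h)⟩)
    refine ⟨x a, y a, hxa.symm, hne, hya, ?_⟩
    rw [← hc]
    exact H.mul_mem (H.mul_mem (H.mul_mem hx hy) (H.inv_mem hx)) (H.inv_mem hy)

end Pool.Agent.Lib.MP_64d474_lc.Circ
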