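import Pool.Agent.Lib.MP_64d474_lc.Circ.Spec

/-!
Circuits with small supports do not distinguish matrices which are equivalent for the bijective
pebble game.
-/

namespace Pool.Agent.Lib.MP_64d474_lc.Circ

open Equiv

namespace Transfer

variable {n : ℕ} {V : Type} (C : Circuit n V)

theorem val_input {g : C.G} {i j l : Fin n} {f : ℤ → V} (h : C.gate g = .input i j l f)
    (a : Fin n → Fin n → Fin n → ℤ) : C.val a g = f (a i j l) := by
  rw [Circuit.val]
  split
  · rename_i i' j' l' f' h'
    rw [h] at h'
    injection h' with h1 h2 h3 h4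
    subst h1 h2 h3 h4
    rfl
  · rename_i op ch h'
    rw [h] at h'
    cases h'

theorem val_inner {g : C.G} {op : Multiset V → V} {ch : Multiset C.G}
    (h : C.gate g = .inner op ch)
    (a : Fin n → Fin n → Fin n → ℤ) : C.val a g = op (ch.map fun x => C.val a x) := by
  rw [Circuit.val]
  split
  · rename_i i' j' l' f' h'
    rw [h] at h'
    cases h'
  · rename_i op' ch' h'
    rw [h] at h'
    injection h' with h1 h2
    subst h1 h2
    congr 1
    exact Multiset.attach_map_val' ch fun x => C.val a x

/-- Values and automorphisms. -/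
theorem val_aut {σ : Perm (Fin n)} {τ : Perm C.G} (hA : C.IsAut σ τ)
    (a : Fin n → Fin n → Fin n → ℤ) : ∀ (N : ℕ) (g : C.G), C.rk g ≤ N →
    C.val a (τ g) = C.val (pull σ a) g := by
  intro N
  induction N with
  | zero =>
    intro g hg
    cases hgt : C.gate g with
    | input i j l f =>
      have h2 : C.gate (τ g) = .input (σ i) (σ j) (σ l) f := by
        rw [hA.2, hgt]; rfl
      rw [val_input C h2, val_input C hgt]; rfl
    | inner op ch =>
      have h2 : C.gate (τ g) = .inner op (ch.map τ) := by
        rw [hA.2, hgt]; rfl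
      rw [val_inner C h2, val_inner C hgt, Multiset.map_map]
      congr 1
      apply Multiset.map_congr rfl
      intro x hx
      have := C.acyclic g op ch hgt x hx
      omega
  | succ N ih =>
    intro g hg
    cases hgt : C.gate g with
    | input i j l f =>
      have h2 : C.gate (τ g) = .input (σ i) (σ j) (σ l) f := by
        rw [hA.2, hgt]; rfl
      rw [val_input C h2, val_input C hgt]; rfl
    | inner op ch =>
      have h2 : C.gate (τ g) = .inner op (ch.map τ) := by
        rw [hA.2, hgt]; rfl
      rw [val_inner C h2, val_inner C hgt, Multiset.map_map]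
      congr 1
      apply Multiset.map_congr rfl
      intro x hx
      have := C.acyclic g op ch hgt x hx
      exact ih x (by omega)

theorem val_out (hS : C.Symmetric) (a : Fin n → Fin n → Fin n → ℤ) (σ : Perm (Fin n)) :
    C.val (pull σ a) C.out = C.val a C.out := by
  obtain ⟨τ, hA⟩ := hS σ
  rw [← val_aut C hA a (C.rk C.out) C.out le_rfl, hA.1]

theorem pull_pull (σ τ : Perm (Fin n)) (a : Fin n → Fin n → Fin n → ℤ) :
    pull σ (pull τ a) = pull (τ * σ) a := rfl

variable {C}

/-- A permutation fixing the support of a gate does not change its value. -/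
theorem val_supp {Δ : C.G → Finset (Fin n)} (hΔ : IsSupport C Δ) (g : C.G) (σ : Perm (Fin n))
    (hσ : ∀ x ∈ Δ g, σ x = x) (a : Fin n → Fin n → Fin n → ℤ) :
    C.val (pull σ a) g = C.val a g := by
  cases hgt : C.gate g with
  | input i j l f =>
    obtain ⟨hi, hj, hl⟩ := hΔ.1 g i j l f hgt
    rw [val_input C hgt, val_input C hgt]
    simp only [pull, hσ _ hi, hσ _ hj, hσ _ hl]
  | inner op ch =>
    rw [val_inner C hgt, val_inner C hgt, hΔ.2 g op ch hgt σ hσ a]

/-- The permutations fixing `D`. -/
def fixer (D : Finset (Fin n)) : Finset (Perm (Fin n)) :=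
  Finset.univ.filter fun π => ∀ x ∈ D, π x = x

theorem mem_fixer {D : Finset (Fin n)} {π : Perm (Fin n)} :
    π ∈ fixer D ↔ ∀ x ∈ D, π x = x := by
  simp [fixer]

/-- The position given by two permutations. -/
def pairs (D : Finset (Fin n)) (ρ ρ' : Perm (Fin n)) : Finset (Fin n × Fin n) :=
  D.image fun x => (ρ x, ρ' x)

theorem mem_pairs {D : Finset (Fin n)} {ρ ρ' : Perm (Fin n)} {x : Fin n} (hx : x ∈ D) :
    (ρ x, ρ' x) ∈ pairs D ρ ρ' := Finset.mem_image_of_mem _ hx

open Classical in
/-- Splitting the fixer according to the image of one point. -/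
theorem fixer_split (D : Finset (Fin n)) (ω : Fin n) (hω : ω ∉ D) (Q : Perm (Fin n) → Prop) :
    ((fixer D).filter Q).card =
      ∑ u ∈ Dᶜ, ((fixer (insert ω D)).filter fun π => Q (swap ω u * π)).card := by
  rw [Finset.card_eq_sum_card_fiberwise (f := fun π : Perm (Fin n) => π ω) (t := Dᶜ)]
  · apply Finset.sum_congr rfl
    intro u hu
    have huD : u ∉ D := by simpa using hu
    apply Finset.card_bij' (fun π _ => swap ω u * π) (fun π _ => swap ω u * π)
    · intro π hπ
      simp only [Finset.mem_filter, mem_fixer] at hπ ⊢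
      obtain ⟨⟨h1, h2⟩, h3⟩ := hπ
      refine ⟨?_, ?_⟩
      · intro x hx
        rcases Finset.mem_insert.1 hx with rfl | hx
        · simp [h3]
        · rw [Perm.mul_apply, h1 x hx]
          exact swap_apply_of_ne_of_ne (fun h => hω (h ▸ hx)) (fun h => huD (h ▸ hx))
      · rw [← mul_assoc, swap_mul_self, one_mul]; exact h2
    · intro π hπ
      simp only [Finset.mem_filter, mem_fixer] at hπ ⊢
      obtain ⟨h1, h2⟩ := hπ
      refine ⟨⟨?_, h2⟩, ?_⟩
      · intro x hx
        rw [Perm.mul_apply, h1 x (Finset.mem_insert_of_mem hx)]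
        exact swap_apply_of_ne_of_ne (fun h => hω (h ▸ hx)) (fun h => huD (h ▸ hx))
      · rw [Perm.mul_apply, h1 ω (Finset.mem_insert_self _ _)]
        simp
    · intro π _
      rw [← mul_assoc, swap_mul_self, one_mul]
    · intro π _
      rw [← mul_assoc, swap_mul_self, one_mul]
  · intro π hπ
    rw [Finset.mem_coe, Finset.mem_filter, mem_fixer] at hπ
    rw [Finset.mem_coe, Finset.mem_compl]
    intro h
    have h1 := hπ.1 (π ω) h
    have h2 : π ω = ω := π.injective h1
    exact hω (h2 ▸ h)

open Classical in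
theorem double_count {G : Type} (K : Finset (Perm (Fin n))) (F : Perm (Fin n) → G → V) (v : V)
    (ch : Multiset G) :
    ∑ π ∈ K, (ch.map (F π)).count v = (ch.map fun h => (K.filter fun π => F π h = v).card).sum := by
  induction ch using Multiset.induction_on with
  | empty => simp
  | cons x s ih =>
    simp only [Multiset.map_cons, Multiset.count_cons, Multiset.sum_cons, Finset.sum_add_distrib,
      ih]
    rw [add_comm, Finset.card_filter]
    congr 1
    apply Finset.sum_congr rfl
    intro π _
    simp only [eq_comm]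

section Game

variable {a b : Fin n → Fin n → Fin n → ℤ} {k : ℕ} {W : Finset (Fin n × Fin n) → Prop}

open Classical in
/-- The counting lemma. -/
theorem counting {Δ : C.G → Finset (Fin n)} (hΔ : IsSupport C Δ)
    (hmono : ∀ p q, W p → q ⊆ p → W q)
    (hatom : ∀ p, W p → ∀ x ∈ p, ∀ y ∈ p, (x.1 = y.1 ↔ x.2 = y.2) ∧
      ∀ z ∈ p, a x.1 y.1 z.1 = b x.2 y.2 z.2)
    (hforth : ∀ p, W p → p.card < k → ∃ e : Fin n ≃ Fin n, ∀ u, W (insert (u, e u) p))
    (h : C.G)
    (hcl : ∀ ρ ρ' : Perm (Fin n), W (pairs (Δ h) ρ ρ') →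
      C.val (pull ρ a) h = C.val (pull ρ' b) h)
    (S : Finset (Fin n)) (hS : S.card ≤ k) (hSh : Δ h ⊆ S) (v : V) :
    ∀ (N : ℕ) (D : Finset (Fin n)), (Δ h \ D).card = N → D ⊆ S →
      ∀ ρ ρ' : Perm (Fin n), W (pairs D ρ ρ') →
      ((fixer D).filter fun π => C.val (pull (ρ * π) a) h = v).card =
        ((fixer D).filter fun π => C.val (pull (ρ' * π) b) h = v).card := by
  intro N
  induction N with
  | zero =>
    intro D hD hDS ρ ρ' hW
    have hsub : Δ h ⊆ D := Finset.sdiff_eq_empty_iff_subset.1 (Finset.card_eq_zero.1 hD)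
    have hW' : W (pairs (Δ h) ρ ρ') := hmono _ _ hW (Finset.image_subset_image hsub)
    have heq := hcl ρ ρ' hW'
    have ha : ∀ π ∈ fixer D, C.val (pull (ρ * π) a) h = C.val (pull ρ a) h := by
      intro π hπ
      rw [← pull_pull]
      exact val_supp hΔ h π (fun x hx => mem_fixer.1 hπ x (hsub hx)) _
    have hb : ∀ π ∈ fixer D, C.val (pull (ρ' * π) b) h = C.val (pull ρ' b) h := by
      intro π hπ
      rw [← pull_pull]
      exact val_supp hΔ h π (fun x hx => mem_fixer.1 hπ x (hsub hx)) _
    congr 1
    apply Finset.filter_congr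
    intro π hπ
    rw [ha π hπ, hb π hπ, heq]
  | succ N ih =>
    intro D hD hDS ρ ρ' hW
    have hne : (Δ h \ D).Nonempty := by
      rw [← Finset.card_pos]; omega
    obtain ⟨ω, hω⟩ := hne
    obtain ⟨hωh, hωD⟩ := Finset.mem_sdiff.1 hω
    have hcard : (pairs D ρ ρ').card < k := by
      calc (pairs D ρ ρ').card ≤ D.card := Finset.card_image_le
        _ < (insert ω D).card := by rw [Finset.card_insert_of_notMem hωD]; omega
        _ ≤ S.card := Finset.card_le_card (Finset.insert_subset (hSh hωh) hDS)
        _ ≤ k := hS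
    obtain ⟨e, he⟩ := hforth _ hW hcard
    have hfix : ∀ x ∈ D, e (ρ x) = ρ' x := by
      intro x hx
      have h1 := hatom _ (he (ρ x)) (ρ x, e (ρ x)) (Finset.mem_insert_self _ _) (ρ x, ρ' x)
        (Finset.mem_insert_of_mem (mem_pairs hx))
      exact h1.1.1 rfl
    rw [fixer_split D ω hωD, fixer_split D ω hωD]
    have hN : (Δ h \ insert ω D).card = N := by
      rw [Finset.sdiff_insert, Finset.card_erase_of_mem hω, hD]
      rfl
    have hstep : ∀ u ∈ Dᶜ,
        ((fixer (insert ω D)).filter fun π => C.val (pull (ρ * (swap ω u * π)) a) h = v).card =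
        ((fixer (insert ω D)).filter fun π =>
          C.val (pull (ρ' * (swap ω (ρ'.symm (e (ρ u))) * π)) b) h = v).card := by
      intro u hu
      have huD : u ∉ D := by simpa using hu
      have hu' : ρ'.symm (e (ρ u)) ∉ D := by
        intro hmem
        have h1 := hfix _ hmem
        rw [Equiv.apply_symm_apply] at h1
        have h2 : ρ (ρ'.symm (e (ρ u))) = ρ u := e.injective h1
        exact huD ((ρ.injective h2) ▸ hmem)
      have key := ih (insert ω D) hN (Finset.insert_subset (hSh hωh) hDS)
        (ρ * swap ω u) (ρ' * swap ω (ρ'.symm (e (ρ u)))) ?_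
      · simpa only [mul_assoc] using key
      · have hp : pairs (insert ω D) (ρ * swap ω u) (ρ' * swap ω (ρ'.symm (e (ρ u)))) ⊆
            insert (ρ u, e (ρ u)) (pairs D ρ ρ') := by
          intro y hy
          obtain ⟨x, hx, rfl⟩ := Finset.mem_image.1 hy
          rcases Finset.mem_insert.1 hx with rfl | hx
          · simp
          · have h1 : swap ω u x = x :=
              swap_apply_of_ne_of_ne (fun h => hωD (h ▸ hx)) (fun h => huD (h ▸ hx))
            have h2 : swap ω (ρ'.symm (e (ρ u))) x = x :=
              swap_apply_of_ne_of_ne (fun h => hωD (h ▸ hx)) (fun h => hu' (h ▸ hx))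
            apply Finset.mem_insert_of_mem
            rw [Perm.mul_apply, Perm.mul_apply, h1, h2]
            exact mem_pairs hx
        exact hmono _ _ (he (ρ u)) hp
    rw [Finset.sum_congr rfl hstep]
    apply Finset.sum_bij' (fun u _ => ρ'.symm (e (ρ u))) (fun u _ => ρ.symm (e.symm (ρ' u)))
    · intro u hu
      have huD : u ∉ D := by simpa using hu
      rw [Finset.mem_compl]
      intro hmem
      have h1 := hfix _ hmem
      rw [Equiv.apply_symm_apply] at h1
      have h2 : ρ (ρ'.symm (e (ρ u))) = ρ u := e.injective h1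
      exact huD ((ρ.injective h2) ▸ hmem)
    · intro u hu
      have huD : u ∉ D := by simpa using hu
      rw [Finset.mem_compl]
      intro hmem
      have h1 := hfix _ hmem
      rw [Equiv.apply_symm_apply, Equiv.apply_symm_apply] at h1
      exact huD ((ρ'.injective h1) ▸ hmem)
    · intro u _
      simp
    · intro u _
      simp
    · intro u _
      rfl

open Classical in
/-- Gates with small supports take the same value. -/
theorem claim {Δ : C.G → Finset (Fin n)} (hΔ : IsSupport C Δ) {s : ℕ}
    (hs : ∀ g, (Δ g).card ≤ s) (hsk : 2 * s ≤ k)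
    (hmono : ∀ p q, W p → q ⊆ p → W q)
    (hatom : ∀ p, W p → ∀ x ∈ p, ∀ y ∈ p, (x.1 = y.1 ↔ x.2 = y.2) ∧
      ∀ z ∈ p, a x.1 y.1 z.1 = b x.2 y.2 z.2)
    (hforth : ∀ p, W p → p.card < k → ∃ e : Fin n ≃ Fin n, ∀ u, W (insert (u, e u) p)) :
    ∀ (N : ℕ) (g : C.G), C.rk g < N → ∀ ρ ρ' : Perm (Fin n), W (pairs (Δ g) ρ ρ') →
      C.val (pull ρ a) g = C.val (pull ρ' b) g := by
  intro N
  induction N with
  | zero => intro g hg; omega
  | succ N ih =>
    intro g hg ρ ρ' hW
    cases hgt : C.gate g with
    | input i j l f =>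
      obtain ⟨hi, hj, hl⟩ := hΔ.1 g i j l f hgt
      rw [val_input C hgt, val_input C hgt]
      congr 1
      exact (hatom _ hW _ (mem_pairs hi) _ (mem_pairs hj)).2 _ (mem_pairs hl)
    | inner op ch =>
      rw [val_inner C hgt, val_inner C hgt]
      congr 1
      rw [Multiset.ext]
      intro v
      have hca : (fixer (Δ g)).card * (ch.map fun x => C.val (pull ρ a) x).count v =
          (ch.map fun h => ((fixer (Δ g)).filter fun π =>
            C.val (pull (ρ * π) a) h = v).card).sum := by
        rw [← double_count, ← smul_eq_mul, ← Finset.sum_const]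
        apply Finset.sum_congr rfl
        intro π hπ
        rw [← hΔ.2 g op ch hgt π (mem_fixer.1 hπ) (pull ρ a)]
        rfl
      have hcb : (fixer (Δ g)).card * (ch.map fun x => C.val (pull ρ' b) x).count v =
          (ch.map fun h => ((fixer (Δ g)).filter fun π =>
            C.val (pull (ρ' * π) b) h = v).card).sum := by
        rw [← double_count, ← smul_eq_mul, ← Finset.sum_const]
        apply Finset.sum_congr rfl
        intro π hπ
        rw [← hΔ.2 g op ch hgt π (mem_fixer.1 hπ) (pull ρ' b)]
        rfl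
      have hsum : (ch.map fun h => ((fixer (Δ g)).filter fun π =>
            C.val (pull (ρ * π) a) h = v).card) = (ch.map fun h => ((fixer (Δ g)).filter fun π =>
            C.val (pull (ρ' * π) b) h = v).card) := by
        apply Multiset.map_congr rfl
        intro h hh
        have hrk := C.acyclic g op ch hgt h hh
        refine counting hΔ hmono hatom hforth h (ih h (by omega)) (Δ g ∪ Δ h) ?_
          Finset.subset_union_right v _ (Δ g) rfl Finset.subset_union_left ρ ρ' hW
        calc (Δ g ∪ Δ h).card ≤ (Δ g).card + (Δ h).card := Finset.card_union_le _ _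
          _ ≤ k := by have := hs g; have := hs h; omega
      have hpos : 0 < (fixer (Δ g)).card := Finset.card_pos.2 ⟨1, mem_fixer.2 fun x _ => rfl⟩
      rw [hsum] at hca
      exact Nat.eq_of_mul_eq_mul_left hpos (hca.trans hcb.symm)

end Game

end Transfer

/-- Circuits with small supports do not distinguish equivalent matrices. -/
theorem stTransfer : StTransfer := by
  classical
  intro n s k V C Δ hC hs hΔ hsk a b hab
  obtain ⟨W, hW0, hmono, hatom, hforth⟩ := hab
  have hcl := Transfer.claim (a := a) (b := b) hΔ hs hsk hmono hatom hforth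
  have key := Transfer.counting hΔ hmono hatom hforth C.out
    (hcl (C.rk C.out + 1) C.out (Nat.lt_succ_self _)) (Δ C.out)
    (by have := hs C.out; omega) (Finset.Subset.refl _) (C.val a C.out) _ ∅ rfl
    (Finset.empty_subset _) 1 1 (by simpa [Transfer.pairs] using hW0)
  by_contra hne
  have h1 : ((Transfer.fixer (∅ : Finset (Fin n))).filter fun π =>
      C.val (pull (1 * π) a) C.out = C.val a C.out).card ≠ 0 := by
    rw [Finset.card_ne_zero]
    refine ⟨1, Finset.mem_filter.2 ⟨Transfer.mem_fixer.2 fun x _ => rfl, ?_⟩⟩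
    rfl
  rw [key] at h1
  apply h1
  rw [Finset.card_eq_zero, Finset.filter_eq_empty_iff]
  intro π _ h
  rw [one_mul, Transfer.val_out C hC] at h
  exact hne h.symm

end Pool.Agent.Lib.MP_64d474_lc.Circ
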