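import Pool.Agent.Lib.MP_64d474_lc.Circ.Defs2
import Pool.Agent.Lib.MP_64d474_lc.Circ.Transfer
import Pool.Agent.Lib.MP_64d474_lc.Circ.GatesOn

/-!
Reduction of circuits which are symmetric on a set `S` of indices to symmetric circuits.
-/

namespace Pool.Agent.Lib.MP_64d474_lc.Circ

open Equiv MvPolynomial

section Part

variable {m n : ℕ} (ι : Fin m ↪ Fin n)

open Classical in
/-- The partial inverse of `ι`. -/
noncomputable def back (i : Fin n) : Option (Fin m) := if h : ∃ x, ι x = i then some h.choose else none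

theorem back_apply (x : Fin m) : back ι (ι x) = some x := by
  have h : ∃ y, ι y = ι x := ⟨x, rfl⟩
  rw [back, dif_pos h]
  exact congrArg some (ι.injective h.choose_spec)

theorem back_none {i : Fin n} (h : i ∉ Set.range ι) : back ι i = none := by
  rw [back, dif_neg]
  exact h

theorem back_cases (i : Fin n) : (∃ x, ι x = i ∧ back ι i = some x) ∨
    (i ∉ Set.range ι ∧ back ι i = none) := by
  by_cases h : i ∈ Set.range ι
  · obtain ⟨x, rfl⟩ := h
    exact Or.inl ⟨x, rfl, back_apply ι x⟩
  · exact Or.inr ⟨h, back_none ι h⟩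

/-- Coefficients extended by `1` at `(i, i, i)` for the new indices `i`. -/
noncomputable def ext (a : Fin m → Fin m → Fin m → ℤ) (i j l : Fin n) : ℤ :=
  match back ι i, back ι j, back ι l with
  | some x, some y, some z => a x y z
  | _, _, _ => if i = j ∧ j = l then 1 else 0

theorem ext_apply (a : Fin m → Fin m → Fin m → ℤ) (x y z : Fin m) :
    ext ι a (ι x) (ι y) (ι z) = a x y z := by
  simp [ext, back_apply]

theorem ext_out (a : Fin m → Fin m → Fin m → ℤ) (i j l : Fin n)
    (h : back ι i = none ∨ back ι j = none ∨ back ι l = none) :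
    ext ι a i j l = if i = j ∧ j = l then 1 else 0 := by
  unfold ext
  rcases h with h | h | h
  · rw [h]
  · rw [h]; rcases back ι i with _ | x <;> rfl
  · rw [h]; rcases back ι i with _ | x <;> rcases back ι j with _ | y <;> rfl

/-- The circuit on the smaller index set. -/
noncomputable def restr {V : Type} (C : Circuit n V) : Circuit m V where
  G := C.G
  out := C.out
  rk := C.rk
  gate g := match C.gate g with
    | .inner op ch => .inner op ch
    | .input i j l f => match back ι i, back ι j, back ι l with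
      | some x, some y, some z => .input x y z f
      | _, _, _ => .inner (fun _ => f (if i = j ∧ j = l then 1 else 0)) 0
  acyclic g op ch hg h hh := by
    cases hgt : C.gate g with
    | inner op' ch' =>
      rw [hgt] at hg
      simp only [Gate.inner.injEq] at hg
      exact C.acyclic g op' ch' hgt h (by rw [hg.2]; exact hh)
    | input i j l f =>
      rw [hgt] at hg
      rcases hi : back ι i with _ | x <;> rcases hj : back ι j with _ | y <;>
        rcases hl : back ι l with _ | z <;> simp only [hi, hj, hl] at hg <;>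
        first
        | (cases hg; done)
        | (simp only [Gate.inner.injEq] at hg; rw [← hg.2] at hh; simp at hh)

theorem restr_gate_inner {V : Type} (C : Circuit n V) {g : C.G} {op : Multiset V → V}
    {ch : Multiset C.G} (h : C.gate g = .inner op ch) : (restr ι C).gate g = .inner op ch := by
  simp only [restr]
  rw [h]

theorem restr_gate_input {V : Type} (C : Circuit n V) {g : C.G} {i j l : Fin n} {f : ℤ → V}
    (h : C.gate g = .input i j l f) : (restr ι C).gate g = match back ι i, back ι j, back ι l with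
      | some x, some y, some z => .input x y z f
      | _, _, _ => .inner (fun _ => f (if i = j ∧ j = l then 1 else 0)) 0 := by
  simp only [restr]
  rw [h]
  rfl

theorem val_restr {V : Type} (C : Circuit n V) (a : Fin m → Fin m → Fin m → ℤ) : ∀ (N : ℕ)
    (g : C.G), C.rk g ≤ N → (restr ι C).val a g = C.val (ext ι a) g := by
  intro N
  induction N using Nat.strong_induction_on with
  | _ N ih =>
    intro g hg
    cases hgt : C.gate g with
    | input i j l f =>
      rw [Transfer.val_input C hgt]
      have h2 := restr_gate_input ι C hgt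
      rcases hi : back ι i with _ | x
      · rw [hi] at h2
        rw [Transfer.val_inner (restr ι C) h2, ext_out ι a i j l (Or.inl hi)]
      · rcases hj : back ι j with _ | y
        · rw [hi, hj] at h2
          rw [Transfer.val_inner (restr ι C) h2, ext_out ι a i j l (Or.inr (Or.inl hj))]
        · rcases hl : back ι l with _ | z
          · rw [hi, hj, hl] at h2
            rw [Transfer.val_inner (restr ι C) h2, ext_out ι a i j l (Or.inr (Or.inr hl))]
          · rw [hi, hj, hl] at h2
            rw [Transfer.val_input (restr ι C) h2]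
            simp only [ext, hi, hj, hl]
    | inner op ch =>
      rw [Transfer.val_inner C hgt, Transfer.val_inner (restr ι C) (restr_gate_inner ι C hgt)]
      congr 1
      refine Multiset.map_congr rfl fun h hh => ?_
      have hlt := C.acyclic g op ch hgt h hh
      exact ih (C.rk h) (lt_of_lt_of_le hlt hg) h le_rfl

theorem back_via (σ : Perm (Fin m)) (i : Fin n) :
    back ι (σ.viaEmbedding ι i) = (back ι i).map σ := by
  rcases back_cases ι i with ⟨x, rfl, h⟩ | ⟨h, h'⟩
  · rw [Equiv.Perm.viaEmbedding_apply, back_apply, h]; rfl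
  · rw [Equiv.Perm.viaEmbedding_apply_of_notMem _ _ _ h, h']; rfl

theorem restr_aut {V : Type} (C : Circuit n V) (σ : Perm (Fin m)) (τ : Perm C.G)
    (h : C.IsAut (σ.viaEmbedding ι) τ) : (restr ι C).IsAut σ τ := by
  refine ⟨h.1, fun g => ?_⟩
  have h2 : ∀ g, C.gate (τ g) = (C.gate g).relabel (σ.viaEmbedding ι) τ := h.2
  show (restr ι C).gate (τ g) = _
  cases hgt : C.gate g with
  | inner op ch =>
    have h3 : C.gate (τ g) = .inner op (ch.map τ) := (h2 g).trans (by rw [hgt]; rfl)
    rw [restr_gate_inner ι C h3, restr_gate_inner ι C hgt]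
    rfl
  | input i j l f =>
    have h3 : C.gate (τ g) = .input (σ.viaEmbedding ι i) (σ.viaEmbedding ι j)
      (σ.viaEmbedding ι l) f := (h2 g).trans (by rw [hgt]; rfl)
    rw [restr_gate_input ι C h3, restr_gate_input ι C hgt, back_via, back_via, back_via]
    rcases back ι i with _ | x <;> rcases back ι j with _ | y <;> rcases back ι l with _ | z <;>
      simp [Gate.relabel]

/-! The determinant. -/

theorem symMat_ext_in (a : Fin m → Fin m → Fin m → ℤ) (x y : Fin m) :
    symMat (ext ι a) (ι x) (ι y) = rename ι (symMat a x y) := by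
  simp only [symMat, map_sum, map_mul, rename_C, rename_X]
  rw [← Finset.sum_subset (Finset.subset_univ (Finset.univ.map ι))]
  · rw [Finset.sum_map]
    refine Finset.sum_congr rfl fun z _ => ?_
    rw [ext_apply]
  · intro l _ hl
    have hl' : l ∉ Set.range ι := by
      rintro ⟨z, rfl⟩
      exact hl (Finset.mem_map_of_mem ι (Finset.mem_univ z))
    rw [ext_out ι a _ _ _ (Or.inr (Or.inr (back_none ι hl'))), if_neg]
    · simp
    · rintro ⟨-, rfl⟩
      exact hl' ⟨y, rfl⟩

theorem symMat_ext_out (a : Fin m → Fin m → Fin m → ℤ) (i j : Fin n)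
    (h : i ∉ Set.range ι ∨ j ∉ Set.range ι) :
    symMat (ext ι a) i j = if i = j then X i else 0 := by
  have h1 : ∀ l, ext ι a i j l = if i = j ∧ j = l then 1 else 0 := by
    intro l
    apply ext_out
    rcases h with h | h
    · exact Or.inl (back_none ι h)
    · exact Or.inr (Or.inl (back_none ι h))
  simp only [symMat, h1]
  by_cases hij : i = j
  · subst hij
    simp
  · simp [hij]

theorem det_ext (a : Fin m → Fin m → Fin m → ℤ) :
    (symMat (ext ι a)).det = 0 ↔ (symMat a).det = 0 := by
  have hdet : (symMat a).det = 0 ↔ (((rename ι : MvPolynomial (Fin m) ℤ →ₐ[ℤ]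
      MvPolynomial (Fin n) ℤ).mapMatrix (symMat a))).det = 0 := by
    rw [← AlgHom.map_det]
    constructor
    · intro h; rw [h, map_zero]
    · intro h
      exact rename_injective _ ι.injective (by rw [h, map_zero])
  rw [hdet]
  have hin : ∀ (v : Fin n → MvPolynomial (Fin n) ℤ) (x : Fin m),
      (symMat (ext ι a)).mulVec v (ι x) =
      (((rename ι : MvPolynomial (Fin m) ℤ →ₐ[ℤ] MvPolynomial (Fin n) ℤ).mapMatrix
        (symMat a))).mulVec (fun y => v (ι y)) x := by
    intro v x
    simp only [Matrix.mulVec, dotProduct]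
    rw [← Finset.sum_subset (Finset.subset_univ (Finset.univ.map ι))]
    · rw [Finset.sum_map]
      refine Finset.sum_congr rfl fun y _ => ?_
      rw [symMat_ext_in]
      rfl
    · intro j _ hj
      have hj' : j ∉ Set.range ι := by
        rintro ⟨z, rfl⟩
        exact hj (Finset.mem_map_of_mem ι (Finset.mem_univ z))
      rw [symMat_ext_out ι a _ _ (Or.inr hj'), if_neg, zero_mul]
      rintro rfl
      exact hj' ⟨x, rfl⟩
  have hout : ∀ (v : Fin n → MvPolynomial (Fin n) ℤ) (i : Fin n), i ∉ Set.range ι →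
      (symMat (ext ι a)).mulVec v i = X i * v i := by
    intro v i hi
    simp only [Matrix.mulVec, dotProduct]
    rw [Finset.sum_eq_single i]
    · rw [symMat_ext_out ι a _ _ (Or.inl hi), if_pos rfl]
    · intro j _ hj
      rw [symMat_ext_out ι a _ _ (Or.inl hi), if_neg (Ne.symm hj), zero_mul]
    · intro h; exact absurd (Finset.mem_univ i) h
  constructor
  · intro h
    obtain ⟨v, hv0, hv⟩ := Matrix.exists_mulVec_eq_zero_iff.2 h
    refine Matrix.exists_mulVec_eq_zero_iff.1 ⟨fun y => v (ι y), ?_, ?_⟩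
    · intro h0
      apply hv0
      funext i
      by_cases hi : i ∈ Set.range ι
      · obtain ⟨x, rfl⟩ := hi
        exact congrFun h0 x
      · have h1 := hout v i hi
        rw [hv] at h1
        exact (mul_eq_zero.1 h1.symm).resolve_left (X_ne_zero i)
    · funext x
      rw [← hin v x, hv]
      rfl
  · intro h
    obtain ⟨w, hw0, hw⟩ := Matrix.exists_mulVec_eq_zero_iff.2 h
    obtain ⟨v, hv1, hv2⟩ : ∃ v : Fin n → MvPolynomial (Fin n) ℤ, (∀ x, v (ι x) = w x) ∧
        ∀ i, i ∉ Set.range ι → v i = 0 := by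
      refine ⟨fun i => match back ι i with | some x => w x | none => 0, ?_, ?_⟩
      · intro x; simp only [back_apply]
      · intro i hi; simp only [back_none ι hi]
    refine Matrix.exists_mulVec_eq_zero_iff.1 ⟨v, ?_, ?_⟩
    · intro h0
      apply hw0
      funext x
      rw [← hv1 x, h0]
      rfl
    · funext i
      by_cases hi : i ∈ Set.range ι
      · obtain ⟨x, rfl⟩ := hi
        rw [hin v x]
        simp only [hv1]
        rw [hw]
        rfl
      · rw [hout v i hi, hv2 i hi, mul_zero]
        rfl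

theorem ext_symm (a : Fin m → Fin m → Fin m → ℤ) (ha : ∀ i j l, a i j l = a j i l)
    (i j l : Fin n) : ext ι a i j l = ext ι a j i l := by
  unfold ext
  have h4 : (i = j ∧ j = l) ↔ (j = i ∧ i = l) := by
    constructor <;> (rintro ⟨rfl, rfl⟩; exact ⟨rfl, rfl⟩)
  rcases back ι i with _ | x <;> rcases back ι j with _ | y <;> rcases back ι l with _ | z <;>
    simp only [h4, ha]

theorem ext_range (a : Fin m → Fin m → Fin m → ℤ) (ha : ∀ i j l, a i j l ∈ ({-1, 0, 1, 2} : Set ℤ))
    (i j l : Fin n) : ext ι a i j l ∈ ({-1, 0, 1, 2} : Set ℤ) := by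
  have h1 : ∀ (p : Prop) [Decidable p], (if p then (1 : ℤ) else 0) ∈ ({-1, 0, 1, 2} : Set ℤ) := by
    intro p _; split_ifs <;> simp
  unfold ext
  rcases back ι i with _ | x <;> rcases back ι j with _ | y <;> rcases back ι l with _ | z <;>
    first | exact h1 _ | exact ha _ _ _

theorem kequiv_ext {a b : Fin m → Fin m → Fin m → ℤ} {k : ℕ} (h : KEquiv a b k) :
    KEquiv (ext ι a) (ext ι b) k := by
  obtain ⟨W, h1, h2, h3, h4⟩ := h
  let E : Fin m × Fin m → Fin n × Fin n := fun x => (ι x.1, ι x.2)
  have hE : Function.Injective E := by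
    rintro ⟨x, y⟩ ⟨x', y'⟩ hxy
    simp only [E, Prod.mk.injEq] at hxy
    rw [ι.injective hxy.1, ι.injective hxy.2]
  -- the old pairs of a position
  let old : Finset (Fin n × Fin n) → Finset (Fin m × Fin m) := fun p => p.preimage E hE.injOn
  have hold : ∀ p x, x ∈ old p ↔ E x ∈ p := fun p x => Finset.mem_preimage
  refine ⟨fun p => (∀ x ∈ p, (x.1 ∈ Set.range ι ∧ x.2 ∈ Set.range ι) ∨
    (x.1 ∉ Set.range ι ∧ x.1 = x.2)) ∧ W (old p), ?_, ?_, ?_, ?_⟩
  · refine ⟨by simp, ?_⟩
    have : old ∅ = ∅ := by
      ext x; simp [hold]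
    rw [this]; exact h1
  · rintro p q ⟨hp1, hp2⟩ hq
    exact ⟨fun x hx => hp1 x (hq hx), h2 _ _ hp2 (fun x hx => (hold q x).1 hx |> fun h => (hold p x).2 (hq h))⟩
  · rintro p ⟨hp1, hp2⟩ x hx y hy
    have hdec : ∀ z ∈ p, (∃ u v, z = (ι u, ι v) ∧ (u, v) ∈ old p) ∨
        (z.1 ∉ Set.range ι ∧ z.1 = z.2) := by
      intro z hz
      rcases hp1 z hz with ⟨⟨u, hu⟩, ⟨v, hv⟩⟩ | h
      · left
        refine ⟨u, v, ?_, ?_⟩
        · rw [hu, hv]
        · rw [hold]; show (ι u, ι v) ∈ p
          rw [hu, hv]; exact hz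
      · exact Or.inr h
    have hiff : (x.1 = y.1 ↔ x.2 = y.2) := by
      rcases hdec x hx with ⟨u, v, rfl, huv⟩ | ⟨hx1, hx2⟩ <;>
        rcases hdec y hy with ⟨u', v', rfl, huv'⟩ | ⟨hy1, hy2⟩
      · have := (h3 _ hp2 _ huv _ huv').1
        simpa [ι.injective.eq_iff] using this
      · constructor
        · intro h; exact absurd ⟨u, h⟩ hy1
        · intro h; exact absurd ⟨v, h.trans hy2.symm⟩ hy1
      · constructor
        · intro h; exact absurd ⟨u', h.symm⟩ hx1
        · intro h; exact absurd ⟨v', h.symm.trans hx2.symm⟩ hx1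
      · rw [hx2, hy2]
    refine ⟨hiff, ?_⟩
    intro z hz
    have hiff2 : (y.1 = z.1 ↔ y.2 = z.2) := by
      rcases hdec y hy with ⟨u, v, rfl, huv⟩ | ⟨hx1, hx2⟩ <;>
        rcases hdec z hz with ⟨u', v', rfl, huv'⟩ | ⟨hy1, hy2⟩
      · have := (h3 _ hp2 _ huv _ huv').1
        simpa [ι.injective.eq_iff] using this
      · constructor
        · intro h; exact absurd ⟨u, h⟩ hy1
        · intro h; exact absurd ⟨v, h.trans hy2.symm⟩ hy1
      · constructor
        · intro h; exact absurd ⟨u', h.symm⟩ hx1
        · intro h; exact absurd ⟨v', h.symm.trans hx2.symm⟩ hx1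
      · rw [hx2, hy2]
    have hout : (back ι x.1 = none ∨ back ι y.1 = none ∨ back ι z.1 = none) →
        (back ι x.2 = none ∨ back ι y.2 = none ∨ back ι z.2 = none) →
        ext ι a x.1 y.1 z.1 = ext ι b x.2 y.2 z.2 := by
      intro k1 k2
      rw [ext_out ι a _ _ _ k1, ext_out ι b _ _ _ k2]
      exact if_congr (and_congr hiff hiff2) rfl rfl
    rcases hdec x hx with ⟨u, v, rfl, huv⟩ | ⟨hx1, hx2⟩
    · rcases hdec y hy with ⟨u', v', rfl, huv'⟩ | ⟨hy1, hy2⟩
      · rcases hdec z hz with ⟨u'', v'', rfl, huv''⟩ | ⟨hz1, hz2⟩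
        · show ext ι a (ι u) (ι u') (ι u'') = ext ι b (ι v) (ι v') (ι v'')
          rw [ext_apply, ext_apply]
          exact (h3 _ hp2 _ huv _ huv').2 _ huv''
        · exact hout (Or.inr (Or.inr (back_none ι hz1)))
            (Or.inr (Or.inr (back_none ι (hz2 ▸ hz1))))
      · exact hout (Or.inr (Or.inl (back_none ι hy1)))
          (Or.inr (Or.inl (back_none ι (hy2 ▸ hy1))))
    · exact hout (Or.inl (back_none ι hx1)) (Or.inl (back_none ι (hx2 ▸ hx1)))
  · rintro p ⟨hp1, hp2⟩ hc
    have hcard : (old p).card < k := by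
      refine lt_of_le_of_lt ?_ hc
      rw [← Finset.card_image_of_injective _ hE]
      refine Finset.card_le_card fun x hx => ?_
      obtain ⟨y, hy, rfl⟩ := Finset.mem_image.1 hx
      exact (hold p y).1 hy
    obtain ⟨e, he⟩ := h4 _ hp2 hcard
    refine ⟨Equiv.Perm.viaEmbedding e ι, fun u => ⟨?_, ?_⟩⟩
    · intro x hx
      rcases Finset.mem_insert.1 hx with rfl | hx
      · by_cases hu : u ∈ Set.range ι
        · obtain ⟨u, rfl⟩ := hu
          left
          exact ⟨⟨u, rfl⟩, ⟨e u, (Equiv.Perm.viaEmbedding_apply e ι u).symm⟩⟩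
        · right
          exact ⟨hu, (Equiv.Perm.viaEmbedding_apply_of_notMem e ι u hu).symm⟩
      · exact hp1 x hx
    · by_cases hu : u ∈ Set.range ι
      · obtain ⟨u, rfl⟩ := hu
        refine h2 _ _ (he u) fun x hx => ?_
        rw [hold, Finset.mem_insert] at hx
        rcases hx with hx | hx
        · rw [Equiv.Perm.viaEmbedding_apply] at hx
          have : x = (u, e u) := hE hx
          rw [this]; exact Finset.mem_insert_self _ _
        · exact Finset.mem_insert_of_mem ((hold p x).2 hx)
      · refine h2 _ _ hp2 fun x hx => ?_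
        rw [hold, Finset.mem_insert] at hx
        rcases hx with hx | hx
        · exfalso
          apply hu
          have := congrArg Prod.fst hx
          exact ⟨x.1, this⟩
        · exact (hold p x).2 hx

end Part

/-- Circuits which are symmetric on a set `S` of indices and have small orbits do not distinguish
a certain pair of matrices, and neither do formulas with few variables. -/
theorem pair_on (h : StMainK) (hL : StLogic) (q n : ℕ) (S : Finset (Fin n)) (hq : 1 ≤ q)
    (hS : 10 ^ 4 * q ≤ S.card) :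
    ∃ a b : Fin n → Fin n → Fin n → ℤ,
      (∀ i j l, a i j l = a j i l ∧ a i j l ∈ ({-1, 0, 1, 2} : Set ℤ)) ∧
      (∀ i j l, b i j l = b j i l ∧ b i j l ∈ ({-1, 0, 1, 2} : Set ℤ)) ∧
      (symMat a).det ≠ 0 ∧ (symMat b).det = 0 ∧
      (∀ (V : Type) (C : Circuit n V), C.SymmetricOn S →
        (∀ g, (C.orbitOn S g).Finite ∧ (C.orbitOn S g).ncard < 3 ^ q) →
        C.val a C.out = C.val b C.out) ∧
      ∀ φ : CForm (2 * q), (∀ v, Holds a φ v) ↔ (∀ v, Holds b φ v) := by
  obtain ⟨a, b, ha, hb, hda, hdb, hcirc, hK⟩ := h q S.card hq hS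
  let ι : Fin S.card ↪ Fin n := S.equivFin.symm.toEmbedding.trans (Function.Embedding.subtype _)
  have hι : ∀ x, ι x ∈ S := fun x => (S.equivFin.symm x).2
  have hfix : ∀ (σ : Perm (Fin S.card)) (x : Fin n), x ∉ S → σ.viaEmbedding ι x = x := by
    intro σ x hx
    apply Equiv.Perm.viaEmbedding_apply_of_notMem
    rintro ⟨y, rfl⟩
    exact hx (hι y)
  refine ⟨ext ι a, ext ι b, fun i j l => ⟨ext_symm ι a (fun i j l => (ha i j l).1) i j l,
    ext_range ι a (fun i j l => (ha i j l).2) i j l⟩,
    fun i j l => ⟨ext_symm ι b (fun i j l => (hb i j l).1) i j l,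
    ext_range ι b (fun i j l => (hb i j l).2) i j l⟩,
    fun h0 => hda ((det_ext ι a).1 h0), (det_ext ι b).2 hdb, ?_,
    fun φ => hL (Fin n) _ _ (2 * q) (kequiv_ext ι hK) φ⟩
  intro V C hC hO
  choose τ hτ using fun σ : Perm (Fin S.card) => hC (σ.viaEmbedding ι) (hfix σ)
  have hsub : ∀ g : C.G, (Set.range fun σ => τ σ g) ⊆ C.orbitOn S g := by
    rintro g k ⟨σ, rfl⟩
    exact ⟨σ.viaEmbedding ι, τ σ, hfix σ, hτ σ, rfl⟩
  have h1 := hcirc V (restr ι C) τ (fun σ => restr_aut ι C σ (τ σ) (hτ σ)) (fun g =>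
    ⟨(hO g).1.subset (hsub g), lt_of_le_of_lt (Set.ncard_le_ncard (hsub g) (hO g).1) (hO g).2⟩)
  have e1 := val_restr ι C a _ C.out le_rfl
  have e2 := val_restr ι C b _ C.out le_rfl
  exact e1.symm.trans (h1.trans e2)

end Pool.Agent.Lib.MP_64d474_lc.Circ
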