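import Pool.Agent.Lib.MP_64d474_lc.Circ.Spec

/-!
MP_64d474_lc: signs with product `-1` on each cycle of a permutation (module Sign).
-/

namespace Pool.Agent.Lib.MP_64d474_lc.Circ

open Equiv Equiv.Perm

theorem stSign : StSign := by
  intro N _ _ π
  classical
  let S : Setoid N := SameCycle.setoid π
  let f : N → N := fun x => (Quotient.mk S x).out
  have hf : ∀ x, SameCycle π (f x) x := fun x => Quotient.mk_out (s := S) x
  have hfπ : ∀ x, f (π x) = f x := by
    intro x
    have h : Quotient.mk S (π x) = Quotient.mk S x :=
      Quotient.sound (s := S) (sameCycle_apply_left.mpr (SameCycle.refl π x))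
    show (Quotient.mk S (π x)).out = (Quotient.mk S x).out
    rw [h]
  refine ⟨fun x => if f x = x then -1 else 1, fun v hv => ?_⟩
  have hv : ∀ x, v x = (((if f x = x then -1 else 1 : ℤˣ)) : ℤ) * v (π x) := hv
  have hzero : ∀ x, v x = 0 → v (π x) = 0 := by
    intro x hx
    have h := hv x
    rw [hx] at h
    by_cases hfx : f x = x
    · simpa [hfx] using h
    · simpa [hfx] using h.symm
  have hpow : ∀ (n : ℕ) x, f ((π ^ n) x) = f x := by
    intro n
    induction n with
    | zero => intro x; rfl
    | succ n ih =>
      intro x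
      rw [pow_succ', Perm.mul_apply, hfπ, ih]
  have key : ∀ x, f x = x → v x = 0 := by
    intro x hx
    have hex : ∃ m : ℕ, 0 < m ∧ (π ^ m) x = x :=
      ⟨orderOf π, orderOf_pos π, by rw [pow_orderOf_eq_one]; rfl⟩
    have hm := Nat.find_spec hex
    have hmin := fun j => Nat.find_min (m := j) hex
    set m := Nat.find hex
    have h1 : ∀ j, 1 ≤ j → j ≤ m → v ((π ^ j) x) = v (π x) := by
      intro j hj
      induction j, hj using Nat.le_induction with
      | base => intro _; rw [pow_one]
      | succ j hj ih =>
        intro hjm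
        have h2 : (π ^ j) x ≠ x := fun h => hmin j (by omega) ⟨by omega, h⟩
        have h3 := hv ((π ^ j) x)
        rw [if_neg (by rw [hpow, hx]; exact fun h => h2 h.symm)] at h3
        rw [pow_succ', Perm.mul_apply, ← ih (by omega)]
        simpa using h3.symm
    have h2 := h1 m (by omega) le_rfl
    rw [hm.2] at h2
    have h3 := hv x
    rw [if_pos hx, ← h2] at h3
    have h4 : v x = - v x := by simpa using h3
    omega
  funext x
  obtain ⟨n, hn⟩ := (hf x).exists_nat_pow_eq
  have h0 : v (f x) = 0 := key (f x) (by
    rw [← hpow n (f x), hn])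
  have h1 : ∀ j : ℕ, v ((π ^ j) (f x)) = 0 := by
    intro j
    induction j with
    | zero => simpa using h0
    | succ j ih =>
      rw [pow_succ', Perm.mul_apply]
      exact hzero _ ih
  have h2 := h1 n
  rw [hn] at h2
  exact h2

end Pool.Agent.Lib.MP_64d474_lc.Circ
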