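import Pool.Agent.Lib.MP_64d474_lc.Circ.Defs

/-!
MP_64d474_lc: symmetric circuits for symbolic determinant identity testing have exponential size.
Internal definitions and the exact statements of the modules.
-/

namespace Pool.Agent.Lib.MP_64d474_lc.Circ

open Equiv

/-! ## Games, relabelings -/

/-- Duplicator wins the bijective game with `k` pebbles on `a` and `b`. -/
def KEquiv {I : Type} [DecidableEq I] (a b : I → I → I → ℤ) (k : ℕ) : Prop :=
  ∃ W : Finset (I × I) → Prop, W ∅ ∧ (∀ p q, W p → q ⊆ p → W q) ∧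
    (∀ p, W p → ∀ x ∈ p, ∀ y ∈ p, (x.1 = y.1 ↔ x.2 = y.2) ∧
      ∀ z ∈ p, a x.1 y.1 z.1 = b x.2 y.2 z.2) ∧
    (∀ p, W p → p.card < k → ∃ e : I ≃ I, ∀ u, W (insert (u, e u) p))

/-- Relabeled coefficients. -/
def pull {I : Type} (σ : Perm I) (a : I → I → I → ℤ) : I → I → I → ℤ :=
  fun i j l => a (σ i) (σ j) (σ l)

/-! ## The matrices of two permutations of a set of nodes -/

section Graph

variable {N : Type} [DecidableEq N]

/-- Sign of the variable kind `x` in rows of direction `d`. -/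
def sg (d x : Bool) : ℤ := if d = false ∧ x = true then -1 else 1

/-- Coefficient of the variable `x` in the entry (row `r`, column `c`); rows are the links
`(d, m)`, which join the nodes `(P d)⁻¹ m` and `m`; `s` are the link signs. -/
def base (P : Bool → Perm N) (s : Bool × N → ℤˣ) (r c x : Bool × N) : ℤ :=
  if c.2 = x.2 then
    (if r.2 = c.2 ∧ xor c.1 x.1 = false then sg r.1 x.1 else 0) +
    (if r.2 = P r.1 c.2 ∧ xor c.1 x.1 = true then (s r : ℤ) * sg r.1 x.1 else 0)
  else 0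

/-- Index type of the doubled matrices. -/
abbrev Ix (N : Type) : Type := (Bool × N) × ℤˣ

/-- Coefficients of the doubled matrix. -/
def dbl (P : Bool → Perm N) (s : Bool × N → ℤˣ) (r c x : Ix N) : ℤ :=
  ((r.2 * c.2 * x.2 : ℤˣ) : ℤ) * base P s r.1 c.1 x.1 +
    if r.1.2 = c.1.2 ∧ c.1.2 = x.1.2 ∧ xor c.1.1 x.1.1 = r.1.1 then 1 else 0

/-- Link signs of the nonsingular matrix. -/
def s0 (t : N → ℤˣ) (r : Bool × N) : ℤˣ := if r.1 then 1 else t r.2

/-- Link signs of the singular matrix: the sign of the link `(false, m0)` is changed. -/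
def s1 (t : N → ℤˣ) (m0 : N) (r : Bool × N) : ℤˣ := if r = (false, m0) then - s0 t r else s0 t r

/-- Elements: rows, columns, variables of the doubled matrix, padding. -/
abbrev El (N : Type) (m : ℕ) : Type := Ix N ⊕ Ix N ⊕ Ix N ⊕ Fin m

set_option synthInstance.maxSize 100000 in
instance instDecEqEl (m : ℕ) : DecidableEq (El N m) := inferInstance

/-- The matrix `[[0, A, 0], [Aᵀ, 0, 0], [0, 0, diag]]`, `A` the doubled matrix. -/
def tens (P : Bool → Perm N) (s : Bool × N → ℤˣ) (m : ℕ) : El N m → El N m → El N m → ℤ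
  | .inl r, .inr (.inl c), .inr (.inr (.inl x)) => dbl P s r c x
  | .inr (.inl c), .inl r, .inr (.inr (.inl x)) => dbl P s r c x
  | .inr (.inr (.inl x)), .inr (.inr (.inl y)), .inr (.inr (.inl z)) =>
      if x = y ∧ y = z then 1 else 0
  | .inr (.inr (.inr x)), .inr (.inr (.inr y)), .inr (.inr (.inr z)) =>
      if x = y ∧ y = z then 1 else 0
  | _, _, _ => 0

/-- Links or nodes. -/
abbrev Site (N : Type) : Type := (Bool × N) ⊕ N

/-- One step along a link; both nodes and the link have to avoid `S`. -/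
def Step (P : Bool → Perm N) (S : Finset (Site N)) (x y : N) : Prop :=
  Sum.inr x ∉ S ∧ Sum.inr y ∉ S ∧
    ∃ d, (y = P d x ∧ Sum.inl (d, y) ∉ S) ∨ (x = P d y ∧ Sum.inl (d, x) ∉ S)

/-- Reachability avoiding `S`. -/
def Reach (P : Bool → Perm N) (S : Finset (Site N)) : N → N → Prop :=
  Relation.ReflTransGen (Step P S)

/-- `C` is a set of more than half of the nodes, connected outside `S`. -/
def Big [Fintype N] (P : Bool → Perm N) (S : Finset (Site N)) (C : Finset N) : Prop :=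
  Fintype.card N < 2 * C.card ∧ (∀ x ∈ C, Sum.inr x ∉ S) ∧ ∀ x ∈ C, ∀ y ∈ C, Reach P S x y

/-- Expansion. -/
def Expands [Fintype N] (P : Bool → Perm N) (k : ℕ) : Prop :=
  ∀ W : Finset N, Fintype.card N ≤ 4 * W.card → 2 * W.card ≤ Fintype.card N →
    2 * k < (W.filter fun x => P false x ∉ W).card + (W.filter fun x => P true x ∉ W).card

end Graph

/-! ## Module statements -/

/-- Expanders exist (counting; `P true` can be `finRotate`). -/
def StExpander : Prop :=
  ∀ k, 1 ≤ k → ∃ P : Bool → Perm (Fin (128 * k)), Expands P k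

/-- The big component. -/
def StComp : Prop :=
  ∀ (N : Type) [Fintype N] [DecidableEq N] (P : Bool → Perm N) (k : ℕ), 2 ≤ Fintype.card N →
    Expands P k → ∀ S : Finset (Site N), S.card ≤ k → ∃ C, Big P S C

/-- The pebble game on the two matrices. -/
def StGame : Prop :=
  ∀ (N : Type) [Fintype N] [DecidableEq N] (P : Bool → Perm N) (k m : ℕ) (t : N → ℤˣ),
    2 ≤ Fintype.card N → (∀ S : Finset (Site N), S.card ≤ k → ∃ C, Big P S C) →
    ∃ m0 : N, KEquiv (tens P (s0 t) m) (tens P (s1 t m0) m) k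

/-- Signs with product `-1` on each cycle. -/
def StSign : Prop :=
  ∀ (N : Type) [Fintype N] [DecidableEq N] (π : Perm N), ∃ s : N → ℤˣ,
    ∀ v : N → ℤ, (∀ x, v x = (s x : ℤ) * v (π x)) → v = 0

/-- The two determinants. -/
def StDet : Prop :=
  ∀ (N : Type) [Fintype N] [DecidableEq N] (P : Bool → Perm N) (t : N → ℤˣ),
    (∀ v : N → ℤ, (∀ x, v x = (t (P false x) : ℤ) * v ((P true).symm (P false x))) → v = 0) →
    (symMat (dbl P (s0 t))).det ≠ 0 ∧ ∀ m0, (symMat (dbl P (s1 t m0))).det = 0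

/-- The symmetric matrix. -/
def StTens : Prop :=
  ∀ (N : Type) [Fintype N] [DecidableEq N] (P : Bool → Perm N) (s : Bool × N → ℤˣ) (m : ℕ),
    ((symMat (dbl P s)).det ≠ 0 → (symMat (tens P s m)).det ≠ 0) ∧
    ((symMat (dbl P s)).det = 0 → (symMat (tens P s m)).det = 0)

/-- Subgroups of small index of the symmetric group. -/
def StSupport : Prop :=
  ∀ (Ω : Type) [Fintype Ω] [DecidableEq Ω] (H : Subgroup (Perm Ω)) (q : ℕ), 1 ≤ q →
    12 * q ≤ Fintype.card Ω → H.index < 3 ^ q → ∃ Δ : Finset Ω, Δ.card < q ∧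
      ∀ σ : Perm Ω, Perm.sign σ = 1 → (∀ x ∈ Δ, σ x = x) → σ ∈ H

/-- `Δ g` is a support of the gate `g`, for all gates. -/
def IsSupport {n : ℕ} {V : Type} (C : Circuit n V) (Δ : C.G → Finset (Fin n)) : Prop :=
  (∀ g i j l f, C.gate g = .input i j l f → i ∈ Δ g ∧ j ∈ Δ g ∧ l ∈ Δ g) ∧
  ∀ g op ch, C.gate g = .inner op ch → ∀ σ : Perm (Fin n), (∀ x ∈ Δ g, σ x = x) → ∀ a,
    (ch.map fun h => C.val (pull σ a) h) = ch.map fun h => C.val a h

/-- Supports of gates. -/
def StGates : Prop :=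
  ∀ (n q : ℕ) (V : Type) (C : Circuit n V), 1 ≤ q → 12 * q ≤ n → C.Symmetric →
    (∀ g, (C.orbit g).Finite ∧ (C.orbit g).ncard < 3 ^ q) →
    ∃ Δ : C.G → Finset (Fin n), (∀ g, (Δ g).card ≤ q + 2) ∧ IsSupport C Δ

/-- Circuits with small supports do not distinguish equivalent matrices. -/
def StTransfer : Prop :=
  ∀ (n s k : ℕ) (V : Type) (C : Circuit n V) (Δ : C.G → Finset (Fin n)), C.Symmetric →
    (∀ g, (Δ g).card ≤ s) → IsSupport C Δ → 2 * s ≤ k →
    ∀ a b : Fin n → Fin n → Fin n → ℤ, KEquiv a b k → C.val a C.out = C.val b C.out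

/-- Formulas do not distinguish equivalent matrices. -/
def StLogic : Prop :=
  ∀ (I : Type) [DecidableEq I] (a b : I → I → I → ℤ) (k : ℕ), KEquiv a b k →
    ∀ φ : CForm k, (∀ v, Holds a φ v) ↔ (∀ v, Holds b φ v)

/-- The final theorem. -/
def StMain : Prop :=
  ∀ q n : ℕ, 1 ≤ q → 10 ^ 4 * q ≤ n →
    ∃ a b : Fin n → Fin n → Fin n → ℤ,
      (∀ i j l, a i j l = a j i l ∧ a i j l ∈ ({-1, 0, 1, 2} : Set ℤ)) ∧
      (∀ i j l, b i j l = b j i l ∧ b i j l ∈ ({-1, 0, 1, 2} : Set ℤ)) ∧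
      (symMat a).det ≠ 0 ∧ (symMat b).det = 0 ∧
      (∀ (V : Type) (C : Circuit n V), C.Symmetric →
        (∀ g, (C.orbit g).Finite ∧ (C.orbit g).ncard < 3 ^ q) → C.val a C.out = C.val b C.out) ∧
      ∀ φ : CForm (2 * q), (∀ v, Holds a φ v) ↔ (∀ v, Holds b φ v)

end Pool.Agent.Lib.MP_64d474_lc.Circ
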