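import Pool.Agent.Lib.MP_64d474_lc.Circ.Spec

/-!
Statements of the parts of the modules `StExpander` and `StSupport`.
-/

namespace Pool.Agent.Lib.MP_64d474_lc.Circ

open Equiv

/-! ## Expander -/

/-- Number of the subsets of `Fin n` with at most `t` elements. -/
def vol (n t : ℕ) : ℕ := ((Finset.univ : Finset (Finset (Fin n))).filter fun B => B.card ≤ t).card

/-- Few sets have few exits under the rotation. -/
def StExpA : Prop :=
  ∀ n k : ℕ, ((Finset.univ : Finset (Finset (Fin n))).filter fun W =>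
    (W.filter fun x => finRotate n x ∉ W).card ≤ 2 * k).card ≤ 2 * vol n (4 * k)

/-- A given set has few exits only under few permutations. -/
def StExpB : Prop :=
  ∀ (n k : ℕ) (W : Finset (Fin n)), ((Finset.univ : Finset (Perm (Fin n))).filter fun P =>
    (W.filter fun x => P x ∉ W).card ≤ 2 * k).card ≤
      vol n (4 * k) * (W.card.factorial * (n - W.card).factorial)

/-- Numerical estimate. -/
def StExpC : Prop :=
  ∀ k w : ℕ, 1 ≤ k → 32 * k ≤ w → w ≤ 64 * k →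
    2 * vol (128 * k) (4 * k) ^ 2 < (128 * k).choose w

/-! ## Support -/

/-- A subgroup of index `< 3 ^ q` contains an element which rotates some of `q` given disjoint
triples. -/
def StTriple : Prop :=
  ∀ (Ω : Type) [Fintype Ω] [DecidableEq Ω] (H : Subgroup (Perm Ω)) (q : ℕ), H.index < 3 ^ q →
    ∀ T : Fin q × Fin 3 ↪ Ω, ∃ x ∈ H, x ≠ 1 ∧ (∀ y, y ∉ Set.range T → x y = y) ∧
      ∀ i, (∀ j, x (T (i, j)) = T (i, j)) ∨ (∀ j, x (T (i, j)) = T (i, j + 1)) ∨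
        ∀ j, x (T (i, j)) = T (i, j + 2)

/-- `a` and `b` are equal or belong to a 3-cycle of `H` (`swap a b * swap b c` is `a ↦ b ↦ c ↦ a`). -/
def Rel3 {Ω : Type} [DecidableEq Ω] (H : Subgroup (Perm Ω)) (a b : Ω) : Prop :=
  a = b ∨ ∃ c, a ≠ b ∧ b ≠ c ∧ c ≠ a ∧ swap a b * swap b c ∈ H

/-- The classes of `Rel3`. -/
def StClass : Prop :=
  ∀ (Ω : Type) [Fintype Ω] [DecidableEq Ω] (H : Subgroup (Perm Ω)), Equivalence (Rel3 H) ∧
    (∀ x ∈ H, ∀ a b, Rel3 H a b → Rel3 H (x a) (x b)) ∧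
    ∀ (a : Ω) (σ : Perm Ω), Perm.sign σ = 1 → (∀ y, ¬ Rel3 H a y → σ y = y) → σ ∈ H

/-- Most points belong to 3-cycles of `H`. -/
def StMove : Prop :=
  ∀ (Ω : Type) [Fintype Ω] [DecidableEq Ω] (H : Subgroup (Perm Ω)) (q : ℕ), 1 ≤ q →
    (∀ W : Finset Ω, 3 * q ≤ W.card → ∃ x ∈ H, x ≠ 1 ∧ ∀ y, y ∉ W → x y = y) →
    ∃ B : Finset Ω, B.card + 2 ≤ 6 * q ∧ ∀ a, a ∉ B → ∃ b c, a ≠ b ∧ b ≠ c ∧ c ≠ a ∧
      swap a b * swap b c ∈ H

end Pool.Agent.Lib.MP_64d474_lc.Circ
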