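import Pool.Agent.Lib.MP_64d474_lc.Circ.Spec2

/-!
MP_64d474_lc: subgroups of small index of the symmetric group contain the even permutations of
almost all points (choice of disjoint triples).
-/

namespace Pool.Agent.Lib.MP_64d474_lc.Circ

open Equiv

/-- Greedy choice of disjoint triples. -/
theorem exists_triples {Ω : Type} [DecidableEq Ω] (R : Ω → Ω → Prop) (q : ℕ)
    (hstep : ∀ U : Finset Ω, U.card + 3 ≤ 3 * q → ∃ a b c, a ∉ U ∧ b ∉ U ∧ c ∉ U ∧
      a ≠ b ∧ b ≠ c ∧ a ≠ c ∧ R a b ∧ ¬ R b c) :
    ∀ j ≤ q, ∃ t : Fin j → Fin 3 → Ω, Function.Injective (fun p : Fin j × Fin 3 => t p.1 p.2) ∧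
      ∀ i, R (t i 0) (t i 1) ∧ ¬ R (t i 1) (t i 2) := by
  intro j
  induction j with
  | zero => intro _; exact ⟨fun i => i.elim0, fun p => p.1.elim0, fun i => i.elim0⟩
  | succ j ih =>
    intro hj
    obtain ⟨t, ht, hR⟩ := ih (by omega)
    have hU : (Finset.univ.image (fun p : Fin j × Fin 3 => t p.1 p.2)).card ≤ 3 * j := by
      refine Finset.card_image_le.trans ?_
      simp [Fintype.card_prod]
      omega
    obtain ⟨a, b, c, ha, hb, hc, hab, hbc, hac, h1, h2⟩ := hstep
      (Finset.univ.image (fun p : Fin j × Fin 3 => t p.1 p.2)) (by omega)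
    have hin : ∀ i k, t i k ∈ Finset.univ.image (fun p : Fin j × Fin 3 => t p.1 p.2) :=
      fun i k => Finset.mem_image.2 ⟨(i, k), Finset.mem_univ _, rfl⟩
    have hnew : ∀ k : Fin 3, ∀ i l, (![a, b, c] : Fin 3 → Ω) k ≠ t i l := by
      intro k i l h
      have := hin i l
      rw [← h] at this
      fin_cases k
      · exact ha this
      · exact hb this
      · exact hc this
    have hinj : Function.Injective (![a, b, c] : Fin 3 → Ω) := by
      intro k l h
      fin_cases k <;> fin_cases l <;> simp_all
    refine ⟨Fin.cons ![a, b, c] t, ?_, ?_⟩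
    · rintro ⟨i, k⟩ ⟨i', k'⟩ h
      simp only at h
      refine Fin.cases ?_ (fun i => ?_) i h <;> refine Fin.cases ?_ (fun i' => ?_) i'
      · intro h
        simp only [Fin.cons_zero] at h
        rw [hinj h]
      · intro h
        simp only [Fin.cons_zero, Fin.cons_succ] at h
        exact absurd h (hnew _ _ _)
      · intro h
        simp only [Fin.cons_zero, Fin.cons_succ] at h
        exact absurd h.symm (hnew _ _ _)
      · intro h
        simp only [Fin.cons_succ] at h
        have := ht (a₁ := (i, k)) (a₂ := (i', k')) h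
        simp only [Prod.mk.injEq] at this
        rw [this.1, this.2]
    · intro i
      refine Fin.cases ?_ (fun i => ?_) i
      · simpa using ⟨h1, h2⟩
      · simpa using hR i

/-- Disjoint triples `a, b, c` with `a ~ b`, not `b ~ c`, do not exist. -/
theorem no_triples (h1 : StTriple) (h2 : StClass) {Ω : Type} [Fintype Ω] [DecidableEq Ω]
    (H : Subgroup (Perm Ω)) (q : ℕ) (hH : H.index < 3 ^ q) (t : Fin q → Fin 3 → Ω)
    (ht : Function.Injective (fun p : Fin q × Fin 3 => t p.1 p.2))
    (hR : ∀ i, Rel3 H (t i 0) (t i 1) ∧ ¬ Rel3 H (t i 1) (t i 2)) : False := by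
  obtain ⟨x, hx, hx1, hfix, hrot⟩ := h1 Ω H q hH ⟨fun p => t p.1 p.2, ht⟩
  obtain ⟨heq, hinv, -⟩ := h2 Ω H
  apply hx1
  ext y
  by_cases hy : y ∈ Set.range (⟨fun p => t p.1 p.2, ht⟩ : Fin q × Fin 3 ↪ Ω)
  · obtain ⟨⟨i, k⟩, rfl⟩ := hy
    rcases hrot i with h | h | h
    · exact h k
    · exfalso
      have e0 := h 0
      have e1 := h 1
      simp only [Function.Embedding.coeFn_mk] at e0 e1
      have := hinv x hx _ _ (hR i).1
      rw [e0, e1] at this
      exact (hR i).2 this
    · exfalso
      have e0 := h 0
      have e1 := h 1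
      simp only [Function.Embedding.coeFn_mk] at e0 e1
      have := hinv x hx _ _ (hR i).1
      rw [e0, e1] at this
      have h3 : Rel3 H (t i 2) (t i 0) := this
      exact (hR i).2 (heq.symm (heq.trans h3 (hR i).1))
  · exact hfix y hy

theorem stSupport (h1 : StTriple) (h2 : StClass) (h3 : StMove) : StSupport := by
  classical
  intro Ω _ _ H q hq hΩ hH
  obtain ⟨heq, hinv, halt⟩ := h2 Ω H
  obtain ⟨B, hB, hBm⟩ := h3 Ω H q hq (by
    intro W hW
    have hc : Fintype.card (Fin q × Fin 3) ≤ Fintype.card W := by
      simp [Fintype.card_prod]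
      omega
    obtain ⟨f⟩ := Function.Embedding.nonempty_of_card_le hc
    obtain ⟨x, hx, hx1, hfix, -⟩ := h1 Ω H q hH (f.trans (Function.Embedding.subtype _))
    refine ⟨x, hx, hx1, fun y hy => hfix y ?_⟩
    rintro ⟨p, rfl⟩
    exact hy (f p).2)
  by_cases hbig : ∃ a, ∃ O : Finset Ω, (∀ y, y ∈ O ↔ Rel3 H a y) ∧ Fintype.card Ω < O.card + q
  · obtain ⟨a, O, hO, hc⟩ := hbig
    refine ⟨Oᶜ, ?_, fun σ hσ hfix => halt a σ hσ fun y hy => hfix y ?_⟩
    · rw [Finset.card_compl]
      have := O.card_le_univ
      omega
    · rw [Finset.mem_compl, hO]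
      exact hy
  · exfalso
    push Not at hbig
    by_cases hmid : ∃ a, ∃ O : Finset Ω, (∀ y, y ∈ O ↔ Rel3 H a y) ∧ 2 * q ≤ O.card
    · obtain ⟨a, O, hO, hc⟩ := hmid
      have hc2 := hbig a O hO
      have e1 : Fintype.card (Fin q × Fin 2) ≤ Fintype.card O := by
        simp [Fintype.card_prod]
        omega
      have e2 : Fintype.card (Fin q) ≤ Fintype.card (Oᶜ : Finset Ω) := by
        simp only [Fintype.card_fin, Fintype.card_coe, Finset.card_compl]
        omega
      obtain ⟨f⟩ := Function.Embedding.nonempty_of_card_le e1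
      obtain ⟨g⟩ := Function.Embedding.nonempty_of_card_le e2
      have hf : ∀ p, (f p : Ω) ∈ O := fun p => (f p).2
      have hg : ∀ p, (g p : Ω) ∉ O := fun p => Finset.mem_compl.1 (g p).2
      have hfi : ∀ p p', (f p : Ω) = f p' → p = p' := fun p p' h => f.injective (Subtype.ext h)
      have hgi : ∀ p p', (g p : Ω) = g p' → p = p' := fun p p' h => g.injective (Subtype.ext h)
      have hfg : ∀ p p', (f p : Ω) ≠ g p' := fun p p' h => hg p' (h ▸ hf p)
      refine no_triples h1 h2 H q hH (fun i => ![(f (i, 0) : Ω), f (i, 1), g i]) ?_ ?_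
      · rintro ⟨i, k⟩ ⟨i', k'⟩ h
        simp only at h
        fin_cases k <;> fin_cases k'
        · have := hfi _ _ h
          simp only [Prod.mk.injEq] at this
          simp [this.1]
        · have := hfi _ _ h
          simp at this
        · exact absurd h (hfg _ _)
        · have := hfi _ _ h
          simp at this
        · have := hfi _ _ h
          simp only [Prod.mk.injEq] at this
          simp [this.1]
        · exact absurd h (hfg _ _)
        · exact absurd h.symm (hfg _ _)
        · exact absurd h.symm (hfg _ _)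
        · have := hgi _ _ h
          simp [this]
      · intro i
        have ha := (hO _).1 (hf (i, 0))
        have hb := (hO _).1 (hf (i, 1))
        refine ⟨heq.trans (heq.symm ha) hb, fun h => hg i ((hO _).2 (heq.trans hb h))⟩
    · push Not at hmid
      obtain ⟨t, ht, hR⟩ := exists_triples (Rel3 H) q (by
        intro U hU
        -- two unused points in one class
        have hcls : ∃ a b, a ∉ U ∧ b ∉ U ∧ a ≠ b ∧ Rel3 H a b := by
          by_contra hno
          push Not at hno
          let X : Finset Ω := (U ∪ B)ᶜ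
          have hX : 3 * q + 5 ≤ X.card := by
            have := Finset.card_union_le U B
            have e : X.card = Fintype.card Ω - (U ∪ B).card := Finset.card_compl _
            omega
          -- every point of X gives two points of U
          have hX2 : X.card ≤ U.card := by
            have hch : ∀ a ∈ X, ∃ b ∈ U, Rel3 H a b := by
              intro a ha
              have ha' : a ∉ U ∧ a ∉ B := by
                simpa [X] using ha
              obtain ⟨b, c, hab, hbc, hca, hm⟩ := hBm a ha'.2
              refine ⟨b, ?_, Or.inr ⟨c, hab, hbc, hca, hm⟩⟩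
              by_contra hb
              exact hno a b ha'.1 hb hab (Or.inr ⟨c, hab, hbc, hca, hm⟩)
            choose! f hfU hfR using hch
            refine Finset.card_le_card_of_injOn f (fun a ha => hfU a ha) ?_
            intro a ha a' ha' h
            have ha1 : a ∉ U ∧ a ∉ B := by
              simpa [X] using ha
            have ha2 : a' ∉ U ∧ a' ∉ B := by
              simpa [X] using ha'
            by_contra hne
            have r1 := hfR a ha
            have r2 := hfR a' ha'
            rw [← h] at r2
            exact hno a a' ha1.1 ha2.1 hne (heq.trans r1 (heq.symm r2))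
          omega
        obtain ⟨a, b, ha, hb, hab, hR⟩ := hcls
        let O : Finset Ω := Finset.univ.filter fun y => Rel3 H b y
        have hO := hmid b O (by simp [O])
        obtain ⟨c, hc⟩ : ∃ c, c ∉ U ∪ O := by
          by_contra hall
          push Not at hall
          have h5 : (Finset.univ : Finset Ω).card ≤ (U ∪ O).card :=
            Finset.card_le_card fun y _ => hall y
          have := Finset.card_union_le U O
          rw [Finset.card_univ] at h5
          omega
        have hc' : c ∉ U ∧ ¬ Rel3 H b c := by
          simpa [O] using hc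
        refine ⟨a, b, c, ha, hb, hc'.1, hab, ?_, ?_, hR, hc'.2⟩
        · rintro rfl
          exact hc'.2 (heq.refl _)
        · rintro rfl
          exact hc'.2 (heq.symm hR)) q le_rfl
      exact no_triples h1 h2 H q hH t ht hR

end Pool.Agent.Lib.MP_64d474_lc.Circ
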