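import Pool.Agent.Lib.MP_64d474_lc.Circ.Spec

/-!
MP_64d474_lc: the determinant of the symmetric matrix `[[0, A, 0], [Aᵀ, 0, 0], [0, 0, diag]]`.
-/

namespace Pool.Agent.Lib.MP_64d474_lc.Circ

open MvPolynomial

section

variable {N : Type} [Fintype N] [DecidableEq N]

/-- The variables of the doubled matrix among all variables. -/
def tensVar (N : Type) (m : ℕ) (x : Ix N) : El N m := Sum.inr (Sum.inr (Sum.inl x))

lemma tensVar_injective (N : Type) (m : ℕ) : Function.Injective (tensVar N m) := by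
  intro x y h
  simpa [tensVar] using h

/-- The doubled matrix with renamed variables. -/
noncomputable def tensA (P : Bool → Equiv.Perm N) (s : Bool × N → ℤˣ) (m : ℕ) :
    Matrix (Ix N) (Ix N) (MvPolynomial (El N m) ℤ) :=
  (rename (tensVar N m) : MvPolynomial (Ix N) ℤ →ₐ[ℤ] MvPolynomial (El N m) ℤ).mapMatrix
    (symMat (dbl P s))

lemma tensA_det (P : Bool → Equiv.Perm N) (s : Bool × N → ℤˣ) (m : ℕ) :
    (tensA P s m).det = rename (tensVar N m) (symMat (dbl P s)).det := by
  rw [tensA, ← AlgHom.map_det]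

lemma tensA_det_eq_zero (P : Bool → Equiv.Perm N) (s : Bool × N → ℤˣ) (m : ℕ) :
    (tensA P s m).det = 0 ↔ (symMat (dbl P s)).det = 0 := by
  rw [tensA_det]
  constructor
  · intro h
    exact rename_injective _ (tensVar_injective N m) (by rw [h, map_zero])
  · intro h
    rw [h, map_zero]

lemma tensA_apply (P : Bool → Equiv.Perm N) (s : Bool × N → ℤˣ) (m : ℕ) (r c : Ix N) :
    tensA P s m r c = ∑ l, C (dbl P s r c l) * X (tensVar N m l) := by
  simp [tensA, symMat]

lemma tens_RC (P : Bool → Equiv.Perm N) (s : Bool × N → ℤˣ) (m : ℕ) (r c : Ix N) :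
    symMat (tens P s m) (.inl r) (.inr (.inl c)) = tensA P s m r c := by
  rw [tensA_apply]
  simp only [symMat, Fintype.sum_sum_type]
  simp [tens, tensVar]

lemma tens_CR (P : Bool → Equiv.Perm N) (s : Bool × N → ℤˣ) (m : ℕ) (r c : Ix N) :
    symMat (tens P s m) (.inr (.inl c)) (.inl r) = tensA P s m r c := by
  rw [tensA_apply]
  simp only [symMat, Fintype.sum_sum_type]
  simp [tens, tensVar]

lemma tens_XX (P : Bool → Equiv.Perm N) (s : Bool × N → ℤˣ) (m : ℕ) (x y : Ix N) :
    symMat (tens P s m) (.inr (.inr (.inl x))) (.inr (.inr (.inl y))) =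
      if x = y then X (.inr (.inr (.inl x))) else 0 := by
  simp only [symMat, Fintype.sum_sum_type]
  by_cases h : x = y
  · subst h
    simp [tens]
  · simp [tens, h]

lemma tens_PP (P : Bool → Equiv.Perm N) (s : Bool × N → ℤˣ) (m : ℕ) (x y : Fin m) :
    symMat (tens P s m) (.inr (.inr (.inr x))) (.inr (.inr (.inr y))) =
      if x = y then X (.inr (.inr (.inr x))) else 0 := by
  simp only [symMat, Fintype.sum_sum_type]
  by_cases h : x = y
  · subst h
    simp [tens]
  · simp [tens, h]

lemma tens_RR (P : Bool → Equiv.Perm N) (s : Bool × N → ℤˣ) (m : ℕ) (r c : Ix N) :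
    symMat (tens P s m) (.inl r) (.inl c) = 0 := by
  simp [symMat, tens]

lemma tens_RX (P : Bool → Equiv.Perm N) (s : Bool × N → ℤˣ) (m : ℕ) (r : Ix N)
    (c : Ix N ⊕ Fin m) :
    symMat (tens P s m) (.inl r) (.inr (.inr c)) = 0 := by
  simp [symMat, tens]

lemma tens_CC (P : Bool → Equiv.Perm N) (s : Bool × N → ℤˣ) (m : ℕ) (r c : Ix N) :
    symMat (tens P s m) (.inr (.inl r)) (.inr (.inl c)) = 0 := by
  simp [symMat, tens]

lemma tens_CX (P : Bool → Equiv.Perm N) (s : Bool × N → ℤˣ) (m : ℕ) (r : Ix N)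
    (c : Ix N ⊕ Fin m) :
    symMat (tens P s m) (.inr (.inl r)) (.inr (.inr c)) = 0 := by
  simp [symMat, tens]

lemma tens_XR (P : Bool → Equiv.Perm N) (s : Bool × N → ℤˣ) (m : ℕ) (x : Ix N ⊕ Fin m)
    (c : Ix N) :
    symMat (tens P s m) (.inr (.inr x)) (.inl c) = 0 := by
  rcases x with x | x <;> simp [symMat, tens]

lemma tens_XC (P : Bool → Equiv.Perm N) (s : Bool × N → ℤˣ) (m : ℕ) (x : Ix N ⊕ Fin m)
    (c : Ix N) :
    symMat (tens P s m) (.inr (.inr x)) (.inr (.inl c)) = 0 := by
  rcases x with x | x <;> simp [symMat, tens]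

lemma tens_XP (P : Bool → Equiv.Perm N) (s : Bool × N → ℤˣ) (m : ℕ) (x : Ix N)
    (c : Fin m) :
    symMat (tens P s m) (.inr (.inr (.inl x))) (.inr (.inr (.inr c))) = 0 := by
  simp [symMat, tens]

lemma tens_PX (P : Bool → Equiv.Perm N) (s : Bool × N → ℤˣ) (m : ℕ) (x : Ix N)
    (c : Fin m) :
    symMat (tens P s m) (.inr (.inr (.inr c))) (.inr (.inr (.inl x))) = 0 := by
  simp [symMat, tens]

/-- The kernel of the symmetric matrix. -/
lemma tens_mulVec (P : Bool → Equiv.Perm N) (s : Bool × N → ℤˣ) (m : ℕ)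
    (v : El N m → MvPolynomial (El N m) ℤ) :
    (symMat (tens P s m)).mulVec v = 0 ↔
      (tensA P s m).mulVec (fun c => v (.inr (.inl c))) = 0 ∧
      (tensA P s m).transpose.mulVec (fun r => v (.inl r)) = 0 ∧
      (∀ x, v (.inr (.inr (.inl x))) = 0) ∧ ∀ x, v (.inr (.inr (.inr x))) = 0 := by
  have hR : ∀ r, (symMat (tens P s m)).mulVec v (.inl r) =
      (tensA P s m).mulVec (fun c => v (.inr (.inl c))) r := by
    intro r
    simp [Matrix.mulVec, dotProduct, Fintype.sum_sum_type, tens_RR, tens_RC, tens_RX]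
  have hC : ∀ c, (symMat (tens P s m)).mulVec v (.inr (.inl c)) =
      (tensA P s m).transpose.mulVec (fun r => v (.inl r)) c := by
    intro c
    simp [Matrix.mulVec, dotProduct, Fintype.sum_sum_type, tens_CR, tens_CC, tens_CX]
  have hX : ∀ x, (symMat (tens P s m)).mulVec v (.inr (.inr (.inl x))) =
      X (.inr (.inr (.inl x))) * v (.inr (.inr (.inl x))) := by
    intro x
    simp [Matrix.mulVec, dotProduct, Fintype.sum_sum_type, tens_XR, tens_XC, tens_XX, tens_XP]
  have hP : ∀ x, (symMat (tens P s m)).mulVec v (.inr (.inr (.inr x))) =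
      X (.inr (.inr (.inr x))) * v (.inr (.inr (.inr x))) := by
    intro x
    simp [Matrix.mulVec, dotProduct, Fintype.sum_sum_type, tens_XR, tens_XC, tens_PP, tens_PX]
  constructor
  · intro h
    have h' : ∀ i, (symMat (tens P s m)).mulVec v i = 0 := fun i => by rw [h]; rfl
    refine ⟨?_, ?_, ?_, ?_⟩
    · funext r
      rw [← hR r, h' (.inl r)]; rfl
    · funext c
      rw [← hC c, h' (.inr (.inl c))]; rfl
    · intro x
      have := h' (.inr (.inr (.inl x)))
      rw [hX x] at this
      exact (mul_eq_zero.1 this).resolve_left (X_ne_zero _)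
    · intro x
      have := h' (.inr (.inr (.inr x)))
      rw [hP x] at this
      exact (mul_eq_zero.1 this).resolve_left (X_ne_zero _)
  · rintro ⟨h1, h2, h3, h4⟩
    funext i
    rcases i with r | c | x | x
    · rw [hR r, h1]; rfl
    · rw [hC c, h2]; rfl
    · rw [hX x, h3 x, mul_zero]; rfl
    · rw [hP x, h4 x, mul_zero]; rfl

lemma tens_det_eq_zero (P : Bool → Equiv.Perm N) (s : Bool × N → ℤˣ) (m : ℕ) :
    (symMat (tens P s m)).det = 0 ↔ (tensA P s m).det = 0 := by
  constructor
  · intro h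
    by_contra hA
    obtain ⟨v, hv0, hv⟩ := Matrix.exists_mulVec_eq_zero_iff.2 h
    obtain ⟨h1, h2, h3, h4⟩ := (tens_mulVec P s m v).1 hv
    have hC : (fun c => v (.inr (.inl c))) = 0 := by
      by_contra hne
      exact hA (Matrix.exists_mulVec_eq_zero_iff.1 ⟨_, hne, h1⟩)
    have hR : (fun r => v (.inl r)) = 0 := by
      by_contra hne
      apply hA
      rw [← Matrix.det_transpose]
      exact Matrix.exists_mulVec_eq_zero_iff.1 ⟨_, hne, h2⟩
    apply hv0
    funext i
    rcases i with r | c | x | x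
    · exact congrFun hR r
    · exact congrFun hC c
    · exact h3 x
    · exact h4 x
  · intro h
    obtain ⟨w, hw0, hw⟩ := Matrix.exists_mulVec_eq_zero_iff.2 h
    refine Matrix.exists_mulVec_eq_zero_iff.1
      ⟨Sum.elim (fun _ => 0) (Sum.elim w (Sum.elim (fun _ => 0) (fun _ => 0))), ?_, ?_⟩
    · intro h0
      apply hw0
      funext c
      have := congrFun h0 (.inr (.inl c))
      simpa using this
    · rw [tens_mulVec]
      refine ⟨?_, ?_, ?_, ?_⟩
      · simpa using hw
      · funext c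
        simp [Matrix.mulVec, dotProduct]
      · intro x
        rfl
      · intro x
        rfl

end

theorem stTens : StTens := by
  intro N _ _ P s m
  have h := (tens_det_eq_zero P s m).trans (tensA_det_eq_zero P s m)
  exact ⟨fun h1 h2 => h1 (h.1 h2), fun h1 => h.2 h1⟩

end Pool.Agent.Lib.MP_64d474_lc.Circ
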