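import Pool.Agent.Lib.MP_64d474_lc.Circ.Spec2

/-!
A subgroup of small index contains an element which rotates some of the given disjoint triples.
-/

namespace Pool.Agent.Lib.MP_64d474_lc.Circ

open Equiv

/-- Rotation of the triples. -/
def rot3 {q : ℕ} (f : Fin q → Fin 3) : Perm (Fin q × Fin 3) where
  toFun x := (x.1, x.2 + f x.1)
  invFun x := (x.1, x.2 - f x.1)
  left_inv x := by simp
  right_inv x := by simp

theorem rot3_inv_mul {q : ℕ} (f g : Fin q → Fin 3) :
    (rot3 f)⁻¹ * rot3 g = rot3 (g - f) := by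
  rw [inv_mul_eq_iff_eq_mul]
  refine Equiv.ext fun x => Prod.ext rfl ?_
  change x.2 + g x.1 = x.2 + (g x.1 - f x.1) + f x.1
  abel

/-- A subgroup of index `< 3 ^ q` contains an element which rotates some of `q` given disjoint
triples. -/
theorem stTriple : StTriple := by
  intro Ω _ _ H q hq T
  classical
  have hfin : Finite (Perm Ω ⧸ H) := inferInstance
  let _ : Fintype (Perm Ω ⧸ H) := Fintype.ofFinite _
  have hcard : Fintype.card (Perm Ω ⧸ H) < Fintype.card (Fin q → Fin 3) := by
    have h1 : H.index = Fintype.card (Perm Ω ⧸ H) := by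
      rw [Subgroup.index_eq_card, Nat.card_eq_fintype_card]
    rw [← h1]
    simpa using hq
  obtain ⟨f, g, hfg, heq⟩ := Fintype.exists_ne_map_eq_of_card_lt
    (fun f : Fin q → Fin 3 => ((Perm.viaEmbeddingHom T (rot3 f) : Perm Ω) : Perm Ω ⧸ H)) hcard
  have hmem : (Perm.viaEmbeddingHom T (rot3 f))⁻¹ * (Perm.viaEmbeddingHom T (rot3 g)) ∈ H :=
    QuotientGroup.eq.1 heq
  rw [← map_inv, ← map_mul, rot3_inv_mul] at hmem
  refine ⟨_, hmem, ?_, ?_, ?_⟩
  · intro h1
    rw [← map_one (Perm.viaEmbeddingHom T)] at h1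
    have h2 := Perm.viaEmbeddingHom_injective T h1
    apply hfg
    funext i
    have h3 := congrArg (fun e : Perm (Fin q × Fin 3) => (e (i, 0)).2) h2
    simp [rot3, sub_eq_zero] at h3
    exact h3.symm
  · intro y hy
    exact Perm.viaEmbedding_apply_of_notMem _ _ _ hy
  · intro i
    have key : ∀ j, (Perm.viaEmbeddingHom T (rot3 (g - f))) (T (i, j)) = T (i, j + (g - f) i) := by
      intro j
      exact Perm.viaEmbedding_apply _ _ _
    have h3 : ∀ c : Fin 3, c = 0 ∨ c = 1 ∨ c = 2 := by decide
    rcases h3 ((g - f) i) with h | h | h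
    · left
      intro j
      rw [key, h, add_zero]
    · right; left
      intro j
      rw [key, h]
    · right; right
      intro j
      rw [key, h]

end Pool.Agent.Lib.MP_64d474_lc.Circ
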